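import Pool.Agent.Work.MP_a98e4e_ag.CF.Lead

/-!
# Closed fibre packages from arrays of coefficients
-/

set_option autoImplicit false
set_option linter.unusedSectionVars false
set_option linter.unusedSimpArgs false

open Module Finset

namespace LicciCF

/-- independence of the basis -/
theorem sum_indep' {k C M : Type*} [Field k] [AddCommGroup C] [Module k C] [AddCommGroup M] [Module k M]
    {ι ι' : Type*} [Fintype ι] [Fintype ι'] (e : Basis ι k C) (e' : Basis ι' k C) (F : C →ₗ[k] Dual k C →ₗ[k] M) :
    ∑ i, F (e i) (e.coord i) = ∑ j, F (e' j) (e'.coord j) := by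
  classical
  have h1 : ∀ i, F (e i) (e.coord i) = ∑ j, e'.repr (e i) j • F (e' j) (e.coord i) := by
    intro i
    conv_lhs => rw [← e'.sum_repr (e i)]
    simp only [map_sum, LinearMap.sum_apply, map_smul, LinearMap.smul_apply]
  have h2 : ∀ j, e'.coord j = ∑ i, e'.repr (e i) j • e.coord i := by
    intro j
    apply e.ext
    intro i
    rw [LinearMap.sum_apply]
    rw [Finset.sum_eq_single i (fun b _ hb => by simp [Finsupp.single_apply, Ne.symm hb])
      (fun h => absurd (mem_univ _) h)]
    simp
  rw [sum_congr rfl fun i _ => h1 i, sum_comm]
  refine sum_congr rfl fun j _ => ?_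
  conv_rhs => rw [h2 j]
  simp only [map_sum, map_smul]

theorem sum_single_mul {k ι : Type*} [Field k] [Fintype ι] [DecidableEq ι] (f : ι → k) (j : ι) :
    ∑ x, (Pi.single j 1 : ι → k) x * f x = f j := by
  rw [Finset.sum_eq_single j (fun b _ hb => by simp [hb]) (fun h => absurd (mem_univ _) h), Pi.single_eq_same, one_mul]

theorem trace_pi {k ι : Type*} [Field k] [Fintype ι] [DecidableEq ι] (f : (ι → k) →ₗ[k] (ι → k)) :
    LinearMap.trace k (ι → k) f = ∑ i, f (Pi.single i 1) i := by
  rw [LinearMap.trace_eq_matrix_trace k (Pi.basisFun k ι) f, Matrix.trace]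
  refine sum_congr rfl fun i _ => ?_
  rw [Matrix.diag_apply, LinearMap.toMatrix_apply]
  simp

namespace Arr

variable {ι κ : Type} {k : Type*} [Field k] [CharZero k] [Fintype ι] [Fintype κ] [DecidableEq ι] [DecidableEq κ]

/-- coefficients of `R(e_i,ξ^j)` -/
def Rr (P : Arr k ι κ) (i j : ι) (p q : κ) : k := (if i = j then if p = q then 1 else 0 else 0) + P.sg i j p q

/-- coefficients of `T(e_i,ξ^j) e_l` -/
def Tt (P : Arr k ι κ) (i j l m : ι) : k :=
  2 * (if j = l then if i = m then 1 else 0 else 0) - (if i = j then if l = m then 1 else 0 else 0) - P.S i l j m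

/-- array form of `Dat.IsPkg` -/
structure IsPkg (P : Arr k ι κ) : Prop where
  alt : ∀ p, P.om p p = 0
  anti : ∀ p q, P.om p q = -P.om q p
  nondeg : ∀ u : κ → k, (∀ q, ∑ p, u p * P.om p q = 0) → u = 0
  sp : ∀ i j p q, ∑ r, P.sg i j p r * P.om r q + ∑ r, P.sg i j q r * P.om p r = 0
  S_alt : ∀ i l m, P.S i i l m = 0
  S_anti : ∀ i j l m, P.S i j l m = -P.S j i l m
  S_skew : ∀ i j l m, P.S i j l m + P.S i j m l = 0
  dim : Fintype.card κ = 56 + 2 * Fintype.card ι
  d1 : ∀ i j p q, ∑ m, ∑ r, P.Rr i m p r * P.Rr m j r q = 12 * P.Rr i j p q
  d2 : ∀ i j l m, ∑ r, ∑ s, P.S i j r s * P.S s r l m = 24 * P.S i j l m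
  d0 : ∀ i j i' j', ∑ l, ∑ m, P.Tt i' j' l m * P.Tt i j m l - 2⁻¹ * ∑ p, ∑ q, P.sg i' j' p q * P.sg i j q p =
    12 * P.Tt i j i' j'

theorem R_single (P : Arr k ι κ) (i j : ι) (u : κ → k) (q : κ) :
    P.toDat.R (Pi.single i 1) (LinearMap.proj j) u q = ∑ p, u p * P.Rr i j p q := by
  have h1 : (Pi.single i 1 : ι → k) j = if i = j then 1 else 0 := by
    rw [Pi.single_apply]; exact if_congr eq_comm rfl rfl
  rw [Dat.R, LinearMap.add_apply, LinearMap.smul_apply, LinearMap.id_apply, σ_single, LinearMap.proj_apply, h1]
  simp only [Pi.add_apply, Pi.smul_apply, smul_eq_mul, Rr, mul_add, sum_add_distrib]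
  congr 1
  rw [Finset.sum_eq_single q (fun b _ hb => by simp [hb]) (fun h => absurd (mem_univ _) h)]
  simp only [if_true]
  ring

theorem T_single (P : Arr k ι κ) (i j l : ι) (m : ι) :
    P.toDat.T (Pi.single i 1) (LinearMap.proj j) (Pi.single l 1) m = P.Tt i j l m := by
  have h1 : ∀ i j, (Pi.single i 1 : ι → k) j = if i = j then 1 else 0 := by
    intro i j
    rw [Pi.single_apply]; exact if_congr eq_comm rfl rfl
  have h2 : ((P.toDat.S (Pi.single i 1)).flip (LinearMap.proj j)) (Pi.single l 1) m = P.S i l j m := by
    rw [LinearMap.flip_apply, S_single,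
      Finset.sum_eq_single l (fun b _ hb => by simp [hb]) (fun h => absurd (mem_univ _) h)]
    simp
  simp only [Dat.T, LinearMap.sub_apply, LinearMap.smul_apply, Pi.sub_apply, h2, Pi.smul_apply, LinearMap.smulRight_apply,
    LinearMap.proj_apply, LinearMap.id_apply, smul_eq_mul, h1, Tt]
  have h3 : (if l = j then (1 : k) else 0) = if j = l then 1 else 0 := if_congr eq_comm rfl rfl
  rw [h3]
  split_ifs <;> ring

theorem R_add_left (P : Arr k ι κ) (x y : ι → k) (ξ : Dual k (ι → k)) :
    P.toDat.R (x + y) ξ = P.toDat.R x ξ + P.toDat.R y ξ := by
  simp only [Dat.R, map_add, add_smul, LinearMap.add_apply]; abel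
theorem R_smul_left (P : Arr k ι κ) (c : k) (x : ι → k) (ξ : Dual k (ι → k)) :
    P.toDat.R (c • x) ξ = c • P.toDat.R x ξ := by
  simp only [Dat.R, map_smul, smul_eq_mul, mul_smul, LinearMap.smul_apply, smul_add]
theorem R_add_right (P : Arr k ι κ) (x : ι → k) (ξ η : Dual k (ι → k)) :
    P.toDat.R x (ξ + η) = P.toDat.R x ξ + P.toDat.R x η := by
  simp only [Dat.R, map_add, add_smul, LinearMap.add_apply]; abel
theorem R_smul_right (P : Arr k ι κ) (c : k) (x : ι → k) (ξ : Dual k (ι → k)) :
    P.toDat.R x (c • ξ) = c • P.toDat.R x ξ := by
  simp only [Dat.R, map_smul, smul_eq_mul, mul_smul, LinearMap.smul_apply, smul_add]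

theorem T_add_left (P : Arr k ι κ) (x y : ι → k) (ξ : Dual k (ι → k)) :
    P.toDat.T (x + y) ξ = P.toDat.T x ξ + P.toDat.T y ξ := by
  refine LinearMap.ext fun z => ?_
  simp only [Dat.T, LinearMap.sub_apply, LinearMap.smul_apply, LinearMap.smulRight_apply, LinearMap.id_apply,
    LinearMap.flip_apply, map_add, LinearMap.add_apply]
  module
theorem T_smul_left (P : Arr k ι κ) (c : k) (x : ι → k) (ξ : Dual k (ι → k)) :
    P.toDat.T (c • x) ξ = c • P.toDat.T x ξ := by
  refine LinearMap.ext fun z => ?_
  simp only [Dat.T, LinearMap.sub_apply, LinearMap.smul_apply, LinearMap.smulRight_apply, LinearMap.id_apply,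
    LinearMap.flip_apply, map_smul, LinearMap.add_apply, smul_eq_mul]
  module
theorem T_add_right (P : Arr k ι κ) (x : ι → k) (ξ η : Dual k (ι → k)) :
    P.toDat.T x (ξ + η) = P.toDat.T x ξ + P.toDat.T x η := by
  refine LinearMap.ext fun z => ?_
  simp only [Dat.T, LinearMap.sub_apply, LinearMap.smul_apply, LinearMap.smulRight_apply, LinearMap.id_apply,
    LinearMap.flip_apply, map_add, LinearMap.add_apply]
  module
theorem T_smul_right (P : Arr k ι κ) (c : k) (x : ι → k) (ξ : Dual k (ι → k)) :
    P.toDat.T x (c • ξ) = c • P.toDat.T x ξ := by
  refine LinearMap.ext fun z => ?_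
  simp only [Dat.T, LinearMap.sub_apply, LinearMap.smul_apply, LinearMap.smulRight_apply, LinearMap.id_apply,
    LinearMap.flip_apply, map_smul, LinearMap.add_apply, smul_eq_mul]
  module

theorem pi_ext_single {M : Type*} [AddCommGroup M] [Module k M] {ι : Type*} [Fintype ι] [DecidableEq ι]
    {f g : (ι → k) →ₗ[k] M} (h : ∀ i, f (Pi.single i 1) = g (Pi.single i 1)) : f = g := by
  apply (Pi.basisFun k ι).ext
  intro i
  rw [Pi.basisFun_apply]
  exact h i

theorem coord_basisFun (i : ι) : (Pi.basisFun k ι).coord i = LinearMap.proj i := by
  ext x
  simp

/-- closed fibre packages from arrays -/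
theorem IsPkg.toDat {P : Arr k ι κ} (h : P.IsPkg) : P.toDat.IsPkg where
  alt u := by
    have h1 : P.toDat.ω u u = -P.toDat.ω u u := by
      conv_lhs => rw [toDat_ω, sum_comm]
      rw [toDat_ω, ← sum_neg_distrib]
      refine sum_congr rfl fun p _ => ?_
      rw [← sum_neg_distrib]
      exact sum_congr rfl fun q _ => by rw [h.anti q p]; ring
    linear_combination (1 / 2 : k) * h1
  nondeg u hu := by
    apply h.nondeg
    intro q
    rw [← ω_single]
    exact hu _
  sp x ξ u w := by
    induction x using pi_ind with
    | hz => simp
    | ha a b ha hb => simp only [LinearMap.add_apply, map_add]; linear_combination ha + hb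
    | hs c a ha => simp only [LinearMap.smul_apply, map_smul, smul_eq_mul]; linear_combination c * ha
    | h0 i =>
      induction ξ using dual_ind with
      | hz => simp
      | ha a b ha hb => simp only [LinearMap.add_apply, map_add]; linear_combination ha + hb
      | hs c a ha => simp only [LinearMap.smul_apply, map_smul, smul_eq_mul]; linear_combination c * ha
      | h0 j =>
        induction u using pi_ind with
        | hz => simp
        | ha a b ha hb => simp only [LinearMap.add_apply, map_add]; linear_combination ha + hb
        | hs c a ha => simp only [LinearMap.smul_apply, map_smul, smul_eq_mul]; linear_combination c * ha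
        | h0 p =>
          induction w using pi_ind with
          | hz => simp
          | ha a b ha hb => simp only [LinearMap.add_apply, map_add]; linear_combination ha + hb
          | hs c a ha => simp only [LinearMap.smul_apply, map_smul, smul_eq_mul]; linear_combination c * ha
          | h0 q =>
            have e1 := h.sp i j p q
            rw [ω_single, σ_single, σ_single]
            have e2 : ∀ p, (fun q => ∑ r, (Pi.single p 1 : κ → k) r * P.sg i j r q) = P.sg i j p := by
              intro p
              ext q
              rw [Finset.sum_eq_single p (fun b _ hb => by simp [hb]) (fun h => absurd (mem_univ _) h)]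
              simp
            rw [e2, e2]
            have e3 : P.toDat.ω (Pi.single p 1) (P.sg i j q) = ∑ r, P.sg i j q r * P.om p r := by
              rw [toDat_ω, Finset.sum_eq_single p (fun b _ hb => by simp [hb]) (fun h => absurd (mem_univ _) h)]
              simp
            rw [e3]
            exact e1
  S_alt x := by
    have h1 : ∀ x y, P.toDat.S x y = -P.toDat.S y x := by
      intro x y
      induction x using pi_ind with
      | hz => simp
      | ha a b ha hb => simp only [LinearMap.add_apply, map_add, ha, hb, neg_add]
      | hs c a ha => simp only [LinearMap.smul_apply, map_smul, ha, smul_neg]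
      | h0 i =>
        induction y using pi_ind with
        | hz => simp
        | ha a b ha hb => simp only [LinearMap.add_apply, map_add, ha, hb, neg_add]
        | hs c a ha => simp only [LinearMap.smul_apply, map_smul, ha, smul_neg]
        | h0 j =>
          ext1 ξ
          induction ξ using dual_ind with
          | hz => simp
          | ha a b ha hb => simp only [map_add, ha, hb]
          | hs c a ha => simp only [map_smul, ha]
          | h0 l =>
            ext m
            rw [LinearMap.neg_apply, Pi.neg_apply, S_single, S_single,
              Finset.sum_eq_single j (fun b _ hb => by simp [hb]) (fun h => absurd (mem_univ _) h),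
              Finset.sum_eq_single i (fun b _ hb => by simp [hb]) (fun h => absurd (mem_univ _) h),
              Pi.single_eq_same, Pi.single_eq_same, h.S_anti]
            ring
    have h2 := h1 x x
    have h3 : (2 : k) • P.toDat.S x x = 0 := by
      rw [two_smul]
      nth_rewrite 1 [h2]
      exact neg_add_cancel _
    exact (smul_eq_zero.1 h3).resolve_left two_ne_zero
  S_skew x y ξ η := by
    induction x using pi_ind with
    | hz => simp
    | ha a b ha hb => simp only [LinearMap.add_apply, map_add]; linear_combination ha + hb
    | hs c a ha => simp only [LinearMap.smul_apply, map_smul, smul_eq_mul]; linear_combination c * ha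
    | h0 i =>
      induction y using pi_ind with
      | hz => simp
      | ha a b ha hb => simp only [LinearMap.add_apply, map_add]; linear_combination ha + hb
      | hs c a ha => simp only [LinearMap.smul_apply, map_smul, smul_eq_mul]; linear_combination c * ha
      | h0 j =>
        induction ξ using dual_ind with
        | hz => simp
        | ha a b ha hb => simp only [LinearMap.add_apply, map_add]; linear_combination ha + hb
        | hs c a ha => simp only [LinearMap.smul_apply, map_smul, smul_eq_mul]; linear_combination c * ha
        | h0 l =>
          induction η using dual_ind with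
          | hz => simp
          | ha a b ha hb => simp only [LinearMap.add_apply, map_add]; linear_combination ha + hb
          | hs c a ha => simp only [LinearMap.smul_apply, map_smul, smul_eq_mul]; linear_combination c * ha
          | h0 m =>
            rw [LinearMap.proj_apply, LinearMap.proj_apply, S_single, S_single,
              Finset.sum_eq_single j (fun b _ hb => by simp [hb]) (fun h => absurd (mem_univ _) h),
              Finset.sum_eq_single j (fun b _ hb => by simp [hb]) (fun h => absurd (mem_univ _) h),
              Pi.single_eq_same, one_mul, one_mul]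
            exact h.S_skew i j l m
  dim := by
    rw [Module.finrank_fintype_fun_eq_card, Module.finrank_fintype_fun_eq_card]
    exact h.dim
  d1 ι' _ e x ξ := by
    let F : (ι → k) →ₗ[k] Dual k (ι → k) →ₗ[k] ((κ → k) →ₗ[k] (κ → k)) :=
      LinearMap.mk₂ k (fun c ζ => P.toDat.R c ξ ∘ₗ P.toDat.R x ζ)
        (fun a b c => by rw [R_add_left, LinearMap.add_comp])
        (fun a b c => by rw [R_smul_left, LinearMap.smul_comp])
        (fun a b c => by rw [R_add_right, LinearMap.comp_add])
        (fun a b c => by rw [R_smul_right, LinearMap.comp_smul])
    have h1 := sum_indep' e (Pi.basisFun k ι) F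
    have h2 : ∑ i, F (e i) (e.coord i) = ∑ i, P.toDat.R (e i) ξ ∘ₗ P.toDat.R x (e.coord i) := rfl
    rw [← h2, h1]
    have h3 : ∀ j, F (Pi.basisFun k ι j) ((Pi.basisFun k ι).coord j) =
        P.toDat.R (Pi.single j 1) ξ ∘ₗ P.toDat.R x (LinearMap.proj j) := by
      intro j
      rw [coord_basisFun, Pi.basisFun_apply]
      rfl
    rw [sum_congr rfl fun j _ => h3 j]
    clear_value F
    clear h1 h2 h3
    induction x using pi_ind with
    | hz =>
      have : ∀ ξ, P.toDat.R 0 ξ = 0 := fun ξ => by simp [Dat.R]
      simp [this]
    | ha a b ha hb => simp only [R_add_left, LinearMap.comp_add, sum_add_distrib, ha, hb, smul_add]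
    | hs c a ha =>
      simp only [R_smul_left, LinearMap.comp_smul, ← smul_sum, ha]
      rw [smul_comm]
    | h0 i =>
      induction ξ using dual_ind with
      | hz =>
        have : ∀ x, P.toDat.R x 0 = 0 := fun ξ => by simp [Dat.R]
        simp [this]
      | ha a b ha hb => simp only [R_add_right, LinearMap.add_comp, sum_add_distrib, ha, hb, smul_add]
      | hs c a ha =>
        simp only [R_smul_right, LinearMap.smul_comp, ← smul_sum, ha]
        rw [smul_comm]
      | h0 j =>
        apply pi_ext_single
        intro p
        ext q
        rw [LinearMap.sum_apply, Finset.sum_apply, LinearMap.smul_apply, Pi.smul_apply, R_single, smul_eq_mul]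
        rw [Finset.sum_eq_single p (fun b _ hb => by simp [hb]) (fun h => absurd (mem_univ _) h),
          Pi.single_eq_same, one_mul, ← h.d1 i j p q]
        refine sum_congr rfl fun m _ => ?_
        rw [LinearMap.comp_apply, R_single]
        refine sum_congr rfl fun r _ => ?_
        rw [R_single, Finset.sum_eq_single p (fun b _ hb => by simp [hb]) (fun h => absurd (mem_univ _) h),
          Pi.single_eq_same, one_mul]
  d2 ι' _ e x y := by
    let F : (ι → k) →ₗ[k] Dual k (ι → k) →ₗ[k] (Dual k (ι → k) →ₗ[k] (ι → k)) :=
      LinearMap.mk₂ k (fun c ζ => P.toDat.S (P.toDat.S x y ζ) c)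
        (fun a b c => by rw [map_add])
        (fun a b c => by rw [map_smul])
        (fun a b c => by rw [map_add, map_add, LinearMap.add_apply])
        (fun a b c => by rw [map_smul, map_smul, LinearMap.smul_apply])
    have h1 := sum_indep' e (Pi.basisFun k ι) F
    have h2 : ∑ i, F (e i) (e.coord i) = ∑ i, P.toDat.S (P.toDat.S x y (e.coord i)) (e i) := rfl
    rw [← h2, h1]
    have h3 : ∀ j, F (Pi.basisFun k ι j) ((Pi.basisFun k ι).coord j) =
        P.toDat.S (P.toDat.S x y (LinearMap.proj j)) (Pi.single j 1) := by
      intro j
      rw [coord_basisFun, Pi.basisFun_apply]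
      rfl
    rw [sum_congr rfl fun j _ => h3 j]
    clear_value F
    clear h1 h2 h3
    induction x using pi_ind with
    | hz => simp
    | ha a b ha hb => simp only [map_add, LinearMap.add_apply, sum_add_distrib, ha, hb, smul_add]
    | hs c a ha =>
      simp only [map_smul, LinearMap.smul_apply, ← smul_sum, ha]
      rw [smul_comm]
    | h0 i =>
      induction y using pi_ind with
      | hz => simp
      | ha a b ha hb => simp only [map_add, LinearMap.add_apply, sum_add_distrib, ha, hb, smul_add]
      | hs c a ha =>
        simp only [map_smul, LinearMap.smul_apply, ← smul_sum, ha]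
        rw [smul_comm]
      | h0 j =>
        ext1 ξ
        induction ξ using dual_ind with
        | hz => simp
        | ha a b ha hb => simp only [map_add, ha, hb]
        | hs c a ha => simp only [map_smul, ha]
        | h0 l =>
          ext m
          rw [LinearMap.sum_apply, Finset.sum_apply, LinearMap.smul_apply, Pi.smul_apply, S_single, smul_eq_mul,
            sum_single_mul (fun x => P.S i x l m), ← h.d2 i j l m]
          refine sum_congr rfl fun r _ => ?_
          have e1 : ∀ z : ι → k, P.toDat.S z (Pi.single r 1) (LinearMap.proj l) m = ∑ s, z s * P.S s r l m := by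
            intro z
            induction z using pi_ind with
            | hz => simp
            | ha a b ha hb =>
              simp only [map_add, LinearMap.add_apply, Pi.add_apply, add_mul, sum_add_distrib, ha, hb]
            | hs c a ha =>
              simp only [map_smul, LinearMap.smul_apply, Pi.smul_apply, smul_eq_mul, mul_assoc, ← mul_sum, ha]
            | h0 s =>
              rw [S_single, Finset.sum_eq_single r (fun b _ hb => by simp [hb]) (fun h => absurd (mem_univ _) h),
                Finset.sum_eq_single s (fun b _ hb => by simp [hb]) (fun h => absurd (mem_univ _) h)]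
              simp
          rw [e1]
          refine sum_congr rfl fun s _ => ?_
          rw [S_single, sum_single_mul (fun x => P.S i x r s)]
  d0 x y ξ η := by
    induction x using pi_ind with
    | hz =>
      have : ∀ ξ, P.toDat.T 0 ξ = 0 := fun ξ => LinearMap.ext fun z => by simp [Dat.T, LinearMap.flip_apply]
      simp [this]
    | ha a b ha hb =>
      simp only [T_add_left, LinearMap.add_comp, map_add, LinearMap.add_apply]
      linear_combination ha + hb
    | hs c a ha =>
      simp only [T_smul_left, LinearMap.smul_comp, map_smul, LinearMap.smul_apply, smul_eq_mul]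
      linear_combination c * ha
    | h0 i =>
      induction ξ using dual_ind with
      | hz =>
        have : ∀ x, P.toDat.T x 0 = 0 := fun ξ => LinearMap.ext fun z => by simp [Dat.T, LinearMap.flip_apply]
        simp [this]
      | ha a b ha hb =>
        simp only [T_add_right, LinearMap.add_comp, map_add, LinearMap.add_apply]
        linear_combination ha + hb
      | hs c a ha =>
        simp only [T_smul_right, LinearMap.smul_comp, map_smul, LinearMap.smul_apply, smul_eq_mul]
        linear_combination c * ha
      | h0 j =>
        induction y using pi_ind with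
        | hz =>
          have : ∀ ξ, P.toDat.T 0 ξ = 0 := fun ξ => LinearMap.ext fun z => by simp [Dat.T, LinearMap.flip_apply]
          simp [this]
        | ha a b ha hb =>
          simp only [T_add_left, LinearMap.comp_add, map_add, LinearMap.add_apply]
          linear_combination ha + hb
        | hs c a ha =>
          simp only [T_smul_left, LinearMap.comp_smul, map_smul, LinearMap.smul_apply, smul_eq_mul]
          linear_combination c * ha
        | h0 i' =>
          induction η using dual_ind with
          | hz =>
            have : ∀ x, P.toDat.T x 0 = 0 := fun ξ => LinearMap.ext fun z => by simp [Dat.T, LinearMap.flip_apply]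
            simp [this]
          | ha a b ha hb =>
            simp only [T_add_right, LinearMap.comp_add, map_add, LinearMap.add_apply]
            linear_combination ha + hb
          | hs c a ha =>
            simp only [T_smul_right, LinearMap.comp_smul, map_smul, LinearMap.smul_apply, smul_eq_mul]
            linear_combination c * ha
          | h0 j' =>
            have e1 : ∀ (z : ι → k) (m : ι), P.toDat.T (Pi.single i 1) (LinearMap.proj j) z m =
                ∑ l, z l * P.Tt i j l m := by
              intro z m
              induction z using pi_ind with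
              | hz => simp
              | ha a b ha hb => simp only [map_add, Pi.add_apply, add_mul, sum_add_distrib, ha, hb]
              | hs c a ha => simp only [map_smul, Pi.smul_apply, smul_eq_mul, mul_assoc, ← mul_sum, ha]
              | h0 s =>
                rw [T_single, Finset.sum_eq_single s (fun b _ hb => by simp [hb]) (fun h => absurd (mem_univ _) h),
                  Pi.single_eq_same, one_mul]
            have e2 : LinearMap.trace k (ι → k) (P.toDat.T (Pi.single i 1) (LinearMap.proj j) ∘ₗ
                P.toDat.T (Pi.single i' 1) (LinearMap.proj j')) = ∑ l, ∑ m, P.Tt i' j' l m * P.Tt i j m l := by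
              rw [trace_pi]
              refine sum_congr rfl fun l _ => ?_
              rw [LinearMap.comp_apply, e1]
              refine sum_congr rfl fun m _ => ?_
              rw [T_single]
            have e3 : LinearMap.trace k (κ → k) (P.toDat.σ (Pi.single i 1) (LinearMap.proj j) ∘ₗ
                P.toDat.σ (Pi.single i' 1) (LinearMap.proj j')) = ∑ p, ∑ q, P.sg i' j' p q * P.sg i j q p := by
              rw [trace_pi]
              refine sum_congr rfl fun p _ => ?_
              rw [LinearMap.comp_apply, σ_single, σ_single]
              refine sum_congr rfl fun q _ => ?_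
              beta_reduce
              rw [sum_single_mul (fun x => P.sg i' j' x q)]
            rw [e2, e3, LinearMap.proj_apply, T_single]
            exact h.d0 i j i' j'

end Arr

end LicciCF
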