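import Pool.Agent.Work.MP_a98e4e_ag.CF.Defs

/-!
# CF1: the dimension is two or twelve
-/

set_option autoImplicit false
set_option linter.unusedSectionVars false

open Module

namespace LicciCF

section

variable {k C B : Type*} [Field k] [CharZero k] [AddCommGroup C] [Module k C] [AddCommGroup B]
  [Module k B] [FiniteDimensional k C] [FiniteDimensional k B]

/-- CF1 -/
theorem sum_indep {M : Type*} [AddCommGroup M] [Module k M] {ι ι' : Type*} [Fintype ι]
    [Fintype ι'] (e : Basis ι k C) (e' : Basis ι' k C) (F : C →ₗ[k] Dual k C →ₗ[k] M) :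
    ∑ i, F (e i) (e.coord i) = ∑ j, F (e' j) (e'.coord j) := by
  classical
  have h1 : ∀ i, F (e i) (e.coord i) = ∑ j, e'.coord j (e i) • F (e' j) (e.coord i) := by
    intro i
    have h := e'.sum_repr (e i)
    calc F (e i) (e.coord i) = F (∑ j, e'.repr (e i) j • e' j) (e.coord i) := by rw [h]
      _ = _ := by
        rw [map_sum, LinearMap.sum_apply]
        refine Finset.sum_congr rfl fun j _ => ?_
        rw [map_smul, LinearMap.smul_apply, Basis.coord_apply]
  have h2 : ∀ j, F (e' j) (e'.coord j) = ∑ i, e'.coord j (e i) • F (e' j) (e.coord i) := by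
    intro j
    have h := e.sum_dual_apply_smul_coord (e'.coord j)
    calc F (e' j) (e'.coord j) = F (e' j) (∑ i, e'.coord j (e i) • e.coord i) := by rw [h]
      _ = _ := by
        rw [map_sum]
        exact Finset.sum_congr rfl fun i _ => map_smul _ _ _
  rw [Finset.sum_congr rfl fun i _ => h1 i, Finset.sum_congr rfl fun j _ => h2 j, Finset.sum_comm]

namespace CF1

/-- the trace as a sum -/
theorem trace_eq {V : Type*} [AddCommGroup V] [Module k V] {ι : Type} [Fintype ι]
    (e : Basis ι k V) (F : V →ₗ[k] V) : LinearMap.trace k V F = ∑ j, e.coord j (F (e j)) := by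
  classical
  rw [LinearMap.trace_eq_matrix_trace k e F, Matrix.trace]
  refine Finset.sum_congr rfl fun j _ => ?_
  rw [Matrix.diag_apply, LinearMap.toMatrix_apply, Basis.coord_apply]

variable {ι : Type} [Fintype ι] (e : Basis ι k C)

theorem sum_coord_smul (x : C) : ∑ i, e.coord i x • e i = x := by
  simpa only [Basis.coord_apply] using e.sum_repr x

theorem sum_coord_smul_dual (ξ : Dual k C) : ∑ i, ξ (e i) • e.coord i = ξ :=
  e.sum_dual_apply_smul_coord ξ

theorem sum_pair (x : C) (ξ : Dual k C) : ∑ i, e.coord i x * ξ (e i) = ξ x := by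
  conv_rhs => rw [← sum_coord_smul e x]
  rw [map_sum]
  exact Finset.sum_congr rfl fun i _ => by rw [map_smul, smul_eq_mul]

theorem coord_self (i : ι) : e.coord i (e i) = 1 := by
  rw [Basis.coord_apply, Basis.repr_self, Finsupp.single_eq_same]

theorem sum_one : ∑ i, e.coord i (e i) = (finrank k C : k) := by
  rw [Finset.sum_congr rfl fun i _ => coord_self e i, Finset.sum_const, Finset.card_univ,
    nsmul_eq_mul, mul_one, Module.finrank_eq_card_basis e]

/-- an element of a finite dimensional space is determined by the functionals -/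
theorem ext_dual {x y : C} (h : ∀ η : Dual k C, η x = η y) : x = y := by
  rw [← sub_eq_zero]
  refine (Module.forall_dual_apply_eq_zero_iff k (x - y)).1 fun η => ?_
  rw [map_sub, h, sub_self]

variable {P : Dat k C B}

theorem S_swap (hP : P.IsPkg) (x y : C) : P.S x y = - P.S y x := by
  have h := hP.S_alt (x + y)
  simp only [map_add, LinearMap.add_apply] at h
  rw [hP.S_alt x, hP.S_alt y, zero_add, add_zero] at h
  have h' : P.S y x + P.S x y = 0 := h
  exact eq_neg_of_add_eq_zero_right h'

theorem S_skew' (hP : P.IsPkg) (x y : C) (ξ η : Dual k C) : η (P.S x y ξ) = - ξ (P.S x y η) :=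
  eq_neg_of_add_eq_zero_left (hP.S_skew x y ξ η)

theorem R_apply (x : C) (ξ : Dual k C) (u : B) : P.R x ξ u = ξ x • u + P.σ x ξ u := by
  unfold Dat.R
  rw [LinearMap.add_apply, LinearMap.smul_apply, LinearMap.id_apply]

theorem T_apply (x : C) (ξ : Dual k C) (y : C) :
    P.T x ξ y = (2 : k) • (ξ y • x) - ξ x • y - P.S x y ξ := by
  unfold Dat.T
  rw [LinearMap.sub_apply, LinearMap.sub_apply, LinearMap.smul_apply, LinearMap.smul_apply,
    LinearMap.smulRight_apply, LinearMap.id_apply, LinearMap.flip_apply]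

theorem sum_R_left (x : C) (ξ : Dual k C) (u : B) :
    ∑ i, e.coord i x • P.R (e i) ξ u = P.R x ξ u := by
  have h1 : ∀ i, e.coord i x • P.R (e i) ξ u =
      (e.coord i x * ξ (e i)) • u + P.σ (e.coord i x • e i) ξ u := by
    intro i
    rw [R_apply, smul_add, smul_smul, map_smul, LinearMap.smul_apply, LinearMap.smul_apply]
  rw [Finset.sum_congr rfl fun i _ => h1 i, Finset.sum_add_distrib, ← Finset.sum_smul,
    sum_pair e, R_apply]
  congr 1
  calc ∑ i, P.σ (e.coord i x • e i) ξ u = P.σ (∑ i, e.coord i x • e i) ξ u := by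
        rw [map_sum, LinearMap.sum_apply, LinearMap.sum_apply]
    _ = P.σ x ξ u := by rw [sum_coord_smul]

theorem sum_R_right (x : C) (ξ : Dual k C) (u : B) :
    ∑ i, ξ (e i) • P.R x (e.coord i) u = P.R x ξ u := by
  have h1 : ∀ i, ξ (e i) • P.R x (e.coord i) u =
      (e.coord i x * ξ (e i)) • u + P.σ x (ξ (e i) • e.coord i) u := by
    intro i
    rw [R_apply, smul_add, smul_smul, map_smul, LinearMap.smul_apply, mul_comm]
  rw [Finset.sum_congr rfl fun i _ => h1 i, Finset.sum_add_distrib, ← Finset.sum_smul,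
    sum_pair e, R_apply]
  congr 1
  calc ∑ i, P.σ x (ξ (e i) • e.coord i) u = P.σ x (∑ i, ξ (e i) • e.coord i) u := by
        rw [map_sum, LinearMap.sum_apply]
    _ = P.σ x ξ u := by rw [sum_coord_smul_dual]

/-- the adjoint of `R` -/
theorem adjR (hP : P.IsPkg) (x : C) (ξ : Dual k C) (u w : B) :
    P.ω (P.R x ξ u) w = 2 * ξ x * P.ω u w - P.ω u (P.R x ξ w) := by
  have h := hP.sp x ξ u w
  rw [R_apply, R_apply, map_add, map_smul, LinearMap.add_apply, LinearMap.smul_apply, map_add,
    map_smul]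
  simp only [smul_eq_mul]
  linear_combination h

theorem d1_apply (hP : P.IsPkg) (x : C) (ξ : Dual k C) (u : B) :
    ∑ i, P.R (e i) ξ (P.R x (e.coord i) u) = (12 : k) • P.R x ξ u := by
  have h := congrArg (fun f : B →ₗ[k] B => f u) (hP.d1 ι e x ξ)
  simpa only [LinearMap.sum_apply, LinearMap.comp_apply, LinearMap.smul_apply] using h

/-- the adjoint of (D1) -/
theorem d1_star (hP : P.IsPkg) (x : C) (ξ : Dual k C) (u : B) :
    ∑ i, P.R x (e.coord i) (P.R (e i) ξ u) = (20 * ξ x) • u - (8 : k) • P.R x ξ u := by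
  rw [← sub_eq_zero]
  refine hP.nondeg _ fun w => ?_
  rw [map_sub, map_sum, LinearMap.sub_apply, LinearMap.sum_apply, map_sub, map_smul, map_smul,
    LinearMap.sub_apply, LinearMap.smul_apply, LinearMap.smul_apply]
  have h1 : ∀ i, P.ω (P.R x (e.coord i) (P.R (e i) ξ u)) w =
      2 * P.ω (e.coord i x • P.R (e i) ξ u) w - 2 * P.ω u (ξ (e i) • P.R x (e.coord i) w) +
        P.ω u (P.R (e i) ξ (P.R x (e.coord i) w)) := by
    intro i
    rw [adjR hP, adjR hP (e i) ξ u (P.R x (e.coord i) w), map_smul, LinearMap.smul_apply, map_smul,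
      smul_eq_mul, smul_eq_mul]
    ring
  rw [Finset.sum_congr rfl fun i _ => h1 i, Finset.sum_add_distrib, Finset.sum_sub_distrib,
    ← Finset.mul_sum, ← Finset.mul_sum]
  have h2 : ∑ i, P.ω (e.coord i x • P.R (e i) ξ u) w = P.ω (P.R x ξ u) w := by
    rw [← sum_R_left e x ξ u, map_sum, LinearMap.sum_apply]
  have h3 : ∑ i, P.ω u (ξ (e i) • P.R x (e.coord i) w) = P.ω u (P.R x ξ w) := by
    rw [← map_sum, sum_R_right]
  have h4 : ∑ i, P.ω u (P.R (e i) ξ (P.R x (e.coord i) w)) = 12 * P.ω u (P.R x ξ w) := by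
    rw [← map_sum, d1_apply e hP, map_smul, smul_eq_mul]
  rw [h2, h3, h4, smul_eq_mul, smul_eq_mul]
  have h5 := adjR hP x ξ u w
  linear_combination 10 * h5

end CF1

open CF1

/-- CF1 -/
theorem tau_zero {P : Dat k C B} (hP : P.IsPkg) (ι : Type) [Fintype ι] (e : Basis ι k C) :
    ∑ i, P.σ (e i) (e.coord i) = 0 := by
  ext u
  rw [LinearMap.sum_apply, LinearMap.zero_apply]
  have h1 : ∑ j, ∑ i, P.R (e i) (e.coord j) (P.R (e j) (e.coord i) u) =
      ∑ j, (12 : k) • P.R (e j) (e.coord j) u :=
    Finset.sum_congr rfl fun j _ => d1_apply e hP _ _ _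
  have h2 : ∑ j, ∑ i, P.R (e j) (e.coord i) (P.R (e i) (e.coord j) u) =
      ∑ j, ((20 * e.coord j (e j)) • u - (8 : k) • P.R (e j) (e.coord j) u) :=
    Finset.sum_congr rfl fun j _ => d1_star e hP _ _ _
  rw [Finset.sum_comm, h1] at h2
  have h3 : ∑ j, P.R (e j) (e.coord j) u = (∑ j, e.coord j (e j)) • u + ∑ j, P.σ (e j) (e.coord j) u := by
    rw [Finset.sum_smul, ← Finset.sum_add_distrib]
    exact Finset.sum_congr rfl fun j _ => R_apply _ _ _
  have h4 : ∑ j, (20 * e.coord j (e j)) • u = (20 : k) • ((∑ j, e.coord j (e j)) • u) := by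
    rw [Finset.sum_smul, Finset.smul_sum]
    exact Finset.sum_congr rfl fun j _ => mul_smul _ _ _
  rw [Finset.sum_sub_distrib, ← Finset.smul_sum, ← Finset.smul_sum, h4, h3] at h2
  have h5 : (20 : k) • ∑ j, P.σ (e j) (e.coord j) u = 0 := by
    generalize (∑ j, e.coord j (e j)) • u = a at h2
    generalize ∑ j, P.σ (e j) (e.coord j) u = t at h2 ⊢
    have h6 : (20 : k) • t = (12 : k) • (a + t) - ((20 : k) • a - (8 : k) • (a + t)) := by module
    rw [h6, h2, sub_self]
  exact (smul_eq_zero.1 h5).resolve_left (by norm_num)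

namespace CF1

variable {ι : Type} [Fintype ι] (e : Basis ι k C) {P : Dat k C B}

/-- elements of `sp` have trace zero -/
theorem trace_sigma (hP : P.IsPkg) (x : C) (ξ : Dual k C) : LinearMap.trace k B (P.σ x ξ) = 0 := by
  have hinj : Function.Injective P.ω := by
    refine (injective_iff_map_eq_zero P.ω).2 fun u hu => hP.nondeg u fun w => ?_
    rw [hu, LinearMap.zero_apply]
  let E : B ≃ₗ[k] Dual k B := LinearMap.linearEquivOfInjective P.ω hinj Subspace.dual_finrank_eq.symm
  have hE : ∀ u, E u = P.ω u := fun u => rfl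
  have h1 : E.conj (P.σ x ξ) + Module.Dual.transpose (R := k) (P.σ x ξ) = 0 := by
    ext φ w
    obtain ⟨u, rfl⟩ := E.surjective φ
    rw [LinearMap.add_apply, LinearMap.add_apply, LinearEquiv.conj_apply, LinearMap.comp_apply,
      LinearMap.comp_apply, LinearEquiv.coe_coe,
      LinearEquiv.coe_coe, LinearEquiv.symm_apply_apply,
      Module.Dual.transpose_apply, hE, hE]
    exact hP.sp x ξ u w
  have h2 := LinearMap.trace_conj' (P.σ x ξ) E
  have h4 := congrArg (LinearMap.trace k (Dual k B)) h1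
  rw [map_add, h2, LinearMap.trace_transpose', map_zero] at h4
  have h3 : (2 : k) * LinearMap.trace k B (P.σ x ξ) = 0 := by linear_combination h4
  exact (mul_eq_zero.1 h3).resolve_left (by norm_num)

/-- the contraction of the trace form on `B` -/
theorem sum_trace_sigma (hP : P.IsPkg) (x : C) (η : Dual k C) :
    ∑ m, LinearMap.trace k B (P.σ x (e.coord m) ∘ₗ P.σ (e m) η) = 11 * (finrank k B : k) * η x := by
  have h1 : ∑ m, P.R x (e.coord m) ∘ₗ P.R (e m) η =
      (20 * η x) • LinearMap.id - (8 : k) • P.R x η := by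
    ext u
    have := d1_star e hP x η u
    simpa only [LinearMap.sum_apply, LinearMap.comp_apply, LinearMap.sub_apply, LinearMap.smul_apply,
      LinearMap.id_apply] using this
  have h2 := congrArg (LinearMap.trace k B) h1
  have h3 : LinearMap.trace k B (P.R x η) = η x * (finrank k B : k) := by
    unfold Dat.R
    rw [map_add, map_smul, LinearMap.trace_id, trace_sigma hP, add_zero, smul_eq_mul]
  have h4 : ∀ m, LinearMap.trace k B (P.R x (e.coord m) ∘ₗ P.R (e m) η) =
      (e.coord m x * η (e m)) * (finrank k B : k) +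
        LinearMap.trace k B (P.σ x (e.coord m) ∘ₗ P.σ (e m) η) := by
    intro m
    have h5 : P.R x (e.coord m) ∘ₗ P.R (e m) η = (e.coord m x * η (e m)) • LinearMap.id +
        e.coord m x • P.σ (e m) η + η (e m) • P.σ x (e.coord m) +
          P.σ x (e.coord m) ∘ₗ P.σ (e m) η := by
      ext u
      simp only [LinearMap.comp_apply, LinearMap.add_apply, LinearMap.smul_apply, LinearMap.id_apply,
        R_apply, map_add, map_smul]
      module
    rw [h5, map_add, map_add, map_add, map_smul, map_smul, map_smul, trace_sigma hP, trace_sigma hP,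
      LinearMap.trace_id, smul_zero, smul_zero, add_zero, add_zero, smul_eq_mul]
  rw [map_sum, map_sub, map_smul, map_smul, LinearMap.trace_id, h3,
    Finset.sum_congr rfl fun m _ => h4 m, Finset.sum_add_distrib, ← Finset.sum_mul, sum_pair e,
    smul_eq_mul, smul_eq_mul] at h2
  linear_combination h2

/-- the operator `Γ` -/
noncomputable def Gm (P : Dat k C B) : C →ₗ[k] C := ∑ i, (P.S.flip (e i)).flip (e.coord i)

theorem Gm_apply (x : C) : Gm e P x = ∑ i, P.S x (e i) (e.coord i) := by
  unfold Gm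
  rw [LinearMap.sum_apply]
  rfl

theorem sum_S_left (hP : P.IsPkg) (y : C) (η : Dual k C) :
    ∑ m, e.coord m (P.S (e m) y η) = η (Gm e P y) := by
  rw [Gm_apply, map_sum]
  refine Finset.sum_congr rfl fun m _ => ?_
  rw [S_skew' hP, S_swap hP (e m) y, LinearMap.neg_apply, map_neg, neg_neg]

theorem sum_S_right (hP : P.IsPkg) (x : C) (η : Dual k C) :
    ∑ m, e.coord m (P.S x (e m) η) = - η (Gm e P x) := by
  rw [Gm_apply, map_sum, ← Finset.sum_neg_distrib]
  exact Finset.sum_congr rfl fun m _ => S_skew' hP _ _ _ _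

/-- the cubic contraction -/
theorem sum_SS (hP : P.IsPkg) (x : C) (η : Dual k C) :
    ∑ j, ∑ m, e.coord j (P.S x (P.S (e m) (e j) η) (e.coord m)) = 24 * η (Gm e P x) := by
  have h1 : ∀ j m, e.coord j (P.S x (P.S (e m) (e j) η) (e.coord m)) =
      ∑ l, e.coord j (P.S x (e l) (e.coord m)) * η (P.S (e j) (e m) (e.coord l)) := by
    intro j m
    have h2 := sum_coord_smul e (P.S (e m) (e j) η)
    calc e.coord j (P.S x (P.S (e m) (e j) η) (e.coord m))
        = e.coord j (P.S x (∑ l, e.coord l (P.S (e m) (e j) η) • e l) (e.coord m)) := by rw [h2]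
      _ = ∑ l, e.coord l (P.S (e m) (e j) η) * e.coord j (P.S x (e l) (e.coord m)) := by
          rw [map_sum, LinearMap.sum_apply, map_sum]
          refine Finset.sum_congr rfl fun l _ => ?_
          rw [map_smul, LinearMap.smul_apply, map_smul, smul_eq_mul]
      _ = _ := by
          refine Finset.sum_congr rfl fun l _ => ?_
          rw [S_skew' hP (e m) (e j) η, S_swap hP (e m) (e j), LinearMap.neg_apply, map_neg, neg_neg,
            mul_comm]
  have h3 : ∀ m l, ∑ j, e.coord j (P.S x (e l) (e.coord m)) * η (P.S (e j) (e m) (e.coord l)) =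
      η (P.S (P.S x (e l) (e.coord m)) (e m) (e.coord l)) := by
    intro m l
    have h2 := sum_coord_smul e (P.S x (e l) (e.coord m))
    conv_rhs => rw [← h2]
    rw [map_sum, LinearMap.sum_apply, LinearMap.sum_apply, map_sum]
    refine Finset.sum_congr rfl fun j _ => ?_
    rw [map_smul, LinearMap.smul_apply, LinearMap.smul_apply, map_smul, smul_eq_mul]
  have h4 : ∀ l, ∑ m, η (P.S (P.S x (e l) (e.coord m)) (e m) (e.coord l)) =
      24 * η (P.S x (e l) (e.coord l)) := by
    intro l
    have h5 := congrArg (fun f : Dual k C →ₗ[k] C => η (f (e.coord l))) (hP.d2 ι e x (e l))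
    simp only [LinearMap.sum_apply, map_sum, LinearMap.smul_apply, map_smul, smul_eq_mul] at h5
    exact h5
  calc ∑ j, ∑ m, e.coord j (P.S x (P.S (e m) (e j) η) (e.coord m))
      = ∑ j, ∑ m, ∑ l, e.coord j (P.S x (e l) (e.coord m)) * η (P.S (e j) (e m) (e.coord l)) :=
        Finset.sum_congr rfl fun j _ => Finset.sum_congr rfl fun m _ => h1 j m
    _ = ∑ m, ∑ l, ∑ j, e.coord j (P.S x (e l) (e.coord m)) * η (P.S (e j) (e m) (e.coord l)) := by
        rw [Finset.sum_comm]
        refine Finset.sum_congr rfl fun m _ => ?_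
        rw [Finset.sum_comm]
    _ = ∑ m, ∑ l, η (P.S (P.S x (e l) (e.coord m)) (e m) (e.coord l)) :=
        Finset.sum_congr rfl fun m _ => Finset.sum_congr rfl fun l _ => h3 m l
    _ = ∑ l, 24 * η (P.S x (e l) (e.coord l)) := by
        rw [Finset.sum_comm]
        exact Finset.sum_congr rfl fun l _ => h4 l
    _ = _ := by rw [← Finset.mul_sum, Gm_apply, map_sum]

/-- the sum of `T T` -/
theorem sum_TT (hP : P.IsPkg) (x z : C) (η : Dual k C) :
    ∑ m, P.T x (e.coord m) (P.T (e m) η z) =
      ((4 * (finrank k C : k) - 2) * η z - 2 * η (Gm e P z) - 2 * η z) • x + η x • z +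
        (2 : k) • P.S x z η - (2 * η z) • Gm e P x +
          ∑ m, P.S x (P.S (e m) z η) (e.coord m) := by
  have h1 : ∀ m, P.T x (e.coord m) (P.T (e m) η z) =
      (4 * η z * e.coord m (e m)) • x - (2 * (e.coord m z * η (e m))) • x -
        (2 * e.coord m (P.S (e m) z η)) • x - (2 * η z) • (e.coord m x • e m) +
        (e.coord m x * η (e m)) • z + e.coord m x • P.S (e m) z η -
        (2 * η z) • P.S x (e m) (e.coord m) + η (e m) • P.S x z (e.coord m) +
        P.S x (P.S (e m) z η) (e.coord m) := by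
    intro m
    rw [T_apply, T_apply]
    simp only [map_sub, map_smul, LinearMap.sub_apply, LinearMap.smul_apply, smul_eq_mul]
    module
  rw [Finset.sum_congr rfl fun m _ => h1 m]
  simp only [Finset.sum_add_distrib, Finset.sum_sub_distrib]
  have s1 : ∑ m, (4 * η z * e.coord m (e m)) • x = (4 * η z * (finrank k C : k)) • x := by
    rw [← Finset.sum_smul, ← Finset.mul_sum, sum_one]
  have s2 : ∑ m, (2 * (e.coord m z * η (e m))) • x = (2 * η z) • x := by
    rw [← Finset.sum_smul, ← Finset.mul_sum, sum_pair]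
  have s3 : ∑ m, (2 * e.coord m (P.S (e m) z η)) • x = (2 * η (Gm e P z)) • x := by
    rw [← Finset.sum_smul, ← Finset.mul_sum, sum_S_left e hP]
  have s4 : ∑ m, (2 * η z) • (e.coord m x • e m) = (2 * η z) • x := by
    rw [← Finset.smul_sum, sum_coord_smul]
  have s5 : ∑ m, (e.coord m x * η (e m)) • z = η x • z := by
    rw [← Finset.sum_smul, sum_pair]
  have s6 : ∑ m, e.coord m x • P.S (e m) z η = P.S x z η := by
    calc ∑ m, e.coord m x • P.S (e m) z η = P.S (∑ m, e.coord m x • e m) z η := by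
          rw [map_sum, LinearMap.sum_apply, LinearMap.sum_apply]
          refine Finset.sum_congr rfl fun m _ => ?_
          rw [map_smul, LinearMap.smul_apply, LinearMap.smul_apply]
      _ = _ := by rw [sum_coord_smul]
  have s7 : ∑ m, (2 * η z) • P.S x (e m) (e.coord m) = (2 * η z) • Gm e P x := by
    rw [← Finset.smul_sum, Gm_apply]
  have s8 : ∑ m, η (e m) • P.S x z (e.coord m) = P.S x z η := by
    calc ∑ m, η (e m) • P.S x z (e.coord m) = P.S x z (∑ m, η (e m) • e.coord m) := by
          rw [map_sum]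
          exact Finset.sum_congr rfl fun m _ => (map_smul _ _ _).symm
      _ = _ := by rw [sum_coord_smul_dual]
  rw [s1, s2, s3, s4, s5, s6, s7, s8]
  module

theorem sum_trace_T (hP : P.IsPkg) (x : C) (η : Dual k C) :
    ∑ m, LinearMap.trace k C (P.T x (e.coord m) ∘ₗ P.T (e m) η) =
      (5 * (finrank k C : k) - 4) * η x + 18 * η (Gm e P x) := by
  have h1 : ∑ m, LinearMap.trace k C (P.T x (e.coord m) ∘ₗ P.T (e m) η) =
      ∑ j, e.coord j (∑ m, P.T x (e.coord m) (P.T (e m) η (e j))) := by
    rw [Finset.sum_congr rfl fun m _ => trace_eq e (P.T x (e.coord m) ∘ₗ P.T (e m) η),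
      Finset.sum_comm]
    refine Finset.sum_congr rfl fun j _ => ?_
    rw [map_sum]
    rfl
  have h2 : ∀ j, e.coord j (∑ m, P.T x (e.coord m) (P.T (e m) η (e j))) =
      (4 * (finrank k C : k) - 4) * (e.coord j x * η (e j)) -
        2 * (e.coord j x * η (Gm e P (e j))) + η x * e.coord j (e j) +
        2 * e.coord j (P.S x (e j) η) - 2 * (e.coord j (Gm e P x) * η (e j)) +
          ∑ m, e.coord j (P.S x (P.S (e m) (e j) η) (e.coord m)) := by
    intro j
    rw [sum_TT e hP, map_add, map_sub, map_add, map_add, map_smul, map_smul, map_smul, map_smul,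
      map_sum]
    simp only [smul_eq_mul]
    ring
  have h3 : ∑ j, e.coord j x * η (Gm e P (e j)) = η (Gm e P x) := by
    have := sum_pair e x (η ∘ₗ Gm e P)
    simpa only [LinearMap.comp_apply] using this
  rw [h1, Finset.sum_congr rfl fun j _ => h2 j]
  simp only [Finset.sum_add_distrib, Finset.sum_sub_distrib, ← Finset.mul_sum]
  rw [sum_pair e, sum_pair e, h3, sum_one, sum_S_right e hP, sum_SS e hP]
  ring

theorem Gm_eq (hP : P.IsPkg) (x : C) : Gm e P x = ((finrank k C : k) + 10) • x := by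
  refine ext_dual (k := k) fun η => ?_
  rw [map_smul, smul_eq_mul]
  have h1 := fun m => hP.d0 x (e m) (e.coord m) η
  have h2 : ∑ m, (LinearMap.trace k C (P.T x (e.coord m) ∘ₗ P.T (e m) η) -
      2⁻¹ * LinearMap.trace k B (P.σ x (e.coord m) ∘ₗ P.σ (e m) η)) =
      ∑ m, 12 * η (P.T x (e.coord m) (e m)) := Finset.sum_congr rfl fun m _ => h1 m
  have h3 : ∑ m, P.T x (e.coord m) (e m) = (2 * (finrank k C : k) - 1) • x - Gm e P x := by
    have h4 : ∀ m, P.T x (e.coord m) (e m) = (2 * e.coord m (e m)) • x - e.coord m x • e m -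
        P.S x (e m) (e.coord m) := by
      intro m
      rw [T_apply, smul_smul]
    rw [Finset.sum_congr rfl fun m _ => h4 m]
    simp only [Finset.sum_sub_distrib, ← Finset.sum_smul, ← Finset.mul_sum]
    rw [sum_one, sum_coord_smul, Gm_apply]
    module
  have h5 : (finrank k B : k) = 56 + 2 * (finrank k C : k) := by
    rw [hP.dim]; push_cast; ring
  rw [Finset.sum_sub_distrib, ← Finset.mul_sum, ← Finset.mul_sum, sum_trace_T e hP,
    sum_trace_sigma e hP, ← map_sum, h3, map_sub, map_smul, smul_eq_mul, h5] at h2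
  have h6 : (30 : k) * (η (Gm e P x) - ((finrank k C : k) + 10) * η x) = 0 := by
    linear_combination h2
  have h7 := (mul_eq_zero.1 h6).resolve_left (by norm_num)
  exact sub_eq_zero.1 h7

end CF1

/-- CF1 -/
theorem Gam {P : Dat k C B} (hP : P.IsPkg) (ι : Type) [Fintype ι] (e : Basis ι k C) (x : C) :
    ∑ i, P.S x (e i) (e.coord i) = ((finrank k C : k) + 10) • x := by
  rw [← Gm_apply, Gm_eq e hP]

/-- CF1 -/
theorem sum_T {P : Dat k C B} (hP : P.IsPkg) (ι : Type) [Fintype ι] (e : Basis ι k C) :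
    ∑ i, P.T (e i) (e.coord i) = (12 : k) • LinearMap.id := by
  ext y
  rw [LinearMap.sum_apply, LinearMap.smul_apply, LinearMap.id_apply]
  have h4 : ∀ m, P.T (e m) (e.coord m) y = (2 : k) • (e.coord m y • e m) - e.coord m (e m) • y +
      P.S y (e m) (e.coord m) := by
    intro m
    rw [T_apply, S_swap hP (e m) y, LinearMap.neg_apply, sub_neg_eq_add]
  rw [Finset.sum_congr rfl fun m _ => h4 m]
  simp only [Finset.sum_add_distrib, Finset.sum_sub_distrib, ← Finset.sum_smul, ← Finset.smul_sum]
  rw [sum_one, sum_coord_smul, Gam hP]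
  module

/-- CF1 -/
theorem two_or_twelve {P : Dat k C B} (hP : P.IsPkg) {ε : C} (hne : ε ≠ 0)
    (e1 : ∀ x, P.S ε x = 0 → ∃ c : k, x = c • ε) (e2 : ∀ x y, ∃ z, P.S x y = P.S ε z) :
    finrank k C = 2 ∨ finrank k C = 12 := by
  classical
  let e := Module.finBasis k C
  -- the operator `M ↦ ∑ S (M ξ_m) x_m`
  let Q : Fin (finrank k C) → C →ₗ[k] (Dual k C →ₗ[k] C) := fun m => P.S.flip (e m)
  let ev : Fin (finrank k C) → (Dual k C →ₗ[k] C) →ₗ[k] C := fun m =>
    LinearMap.applyₗ (e.coord m)
  let Φ : (Dual k C →ₗ[k] C) →ₗ[k] (Dual k C →ₗ[k] C) := ∑ m, Q m ∘ₗ ev m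
  have hΦ : ∀ M, Φ M = ∑ m, P.S (M (e.coord m)) (e m) := by
    intro M
    show (∑ m, Q m ∘ₗ ev m) M = _
    rw [LinearMap.sum_apply]
    rfl
  let V : Submodule k (Dual k C →ₗ[k] C) := LinearMap.range (P.S ε)
  have hV : ∀ M, Φ M ∈ V := by
    intro M
    rw [hΦ]
    refine Submodule.sum_mem _ fun m _ => ?_
    obtain ⟨z, hz⟩ := e2 (M (e.coord m)) (e m)
    exact ⟨z, hz.symm⟩
  have hV2 : ∀ M ∈ V, Φ M = (24 : k) • M := by
    rintro M ⟨w, rfl⟩
    rw [hΦ]
    exact hP.d2 _ e ε w
  have hproj : LinearMap.IsProj V ((24 : k)⁻¹ • Φ) := by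
    refine ⟨fun M => V.smul_mem _ (hV M), fun M hM => ?_⟩
    rw [LinearMap.smul_apply, hV2 M hM, smul_smul, inv_mul_cancel₀ (by norm_num), one_smul]
  have htr := hproj.trace
  have htr2 : LinearMap.trace k _ Φ = (finrank k C : k) * ((finrank k C : k) + 10) := by
    show LinearMap.trace k _ (∑ m, Q m ∘ₗ ev m) = _
    rw [map_sum]
    have h1 : ∀ m, LinearMap.trace k _ (Q m ∘ₗ ev m) = LinearMap.trace k _ (ev m ∘ₗ Q m) :=
      fun m => LinearMap.trace_comp_comm' _ _
    rw [Finset.sum_congr rfl fun m _ => h1 m, ← map_sum]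
    have h2 : ∑ m, ev m ∘ₗ Q m = ((finrank k C : k) + 10) • LinearMap.id := by
      ext x
      rw [LinearMap.sum_apply, LinearMap.smul_apply, LinearMap.id_apply]
      exact Gam hP _ e x
    rw [h2, map_smul, LinearMap.trace_id, smul_eq_mul, mul_comm]
  have hrank : finrank k V + 1 = finrank k C := by
    have h1 := LinearMap.finrank_range_add_finrank_ker (P.S ε)
    have h2 : LinearMap.ker (P.S ε) = Submodule.span k {ε} := by
      ext x
      rw [LinearMap.mem_ker, Submodule.mem_span_singleton]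
      constructor
      · intro h
        obtain ⟨c, hc⟩ := e1 x h
        exact ⟨c, hc.symm⟩
      · rintro ⟨c, rfl⟩
        rw [map_smul, hP.S_alt, smul_zero]
    rw [h2, finrank_span_singleton hne] at h1
    exact h1
  rw [map_smul, htr2, smul_eq_mul] at htr
  have h3 : (finrank k C : k) = (finrank k V : k) + 1 := by
    rw [← hrank]; push_cast; ring
  have h4 : ((finrank k C : k) - 2) * ((finrank k C : k) - 12) = 0 := by
    have h5 : (finrank k C : k) * ((finrank k C : k) + 10) = 24 * (finrank k V : k) := by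
      rw [← htr, ← mul_assoc, mul_inv_cancel₀ (by norm_num), one_mul]
    linear_combination h5 - 24 * h3
  rcases mul_eq_zero.1 h4 with h | h
  · left
    have : (finrank k C : k) = ((2 : ℕ) : k) := by push_cast; linear_combination h
    exact_mod_cast this
  · right
    have : (finrank k C : k) = ((12 : ℕ) : k) := by push_cast; linear_combination h
    exact_mod_cast this

end

end LicciCF
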