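import Pool.Agent.Work.MP_a98e4e_ag.CF.Defs

/-!
# CF2: the case of rank two does not occur
-/

set_option autoImplicit false

open Module

attribute [local instance 100] LieRing.ofAssociativeRing

namespace LicciCF

variable {k C B : Type*} [Field k] [CharZero k] [AddCommGroup C] [Module k C] [AddCommGroup B]
  [Module k B] [FiniteDimensional k C] [FiniteDimensional k B]

/-- The operator relations of the case of rank two are contradictory. -/
theorem sl_two_contra (hB : 0 < finrank k B) (h e f : End k B)
    (r1 : h * h - (10 : k) • h - (11 : k) • 1 + f * e = 0)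
    (r2 : h * e - e * h = -((10 : k) • e)) (r3 : h * f - f * h = (10 : k) • f)
    (r4 : e * f - f * e = -((20 : k) • h)) : False := by
  have hne : Nontrivial B := Module.finrank_pos_iff.1 hB
  -- the kernel of `e` is not trivial
  have hker : ∃ v : B, v ≠ 0 ∧ e v = 0 := by
    by_contra hcon
    push Not at hcon
    have hinj : LinearMap.ker e = ⊥ := by
      rw [Submodule.eq_bot_iff]
      intro v hv
      by_contra hv0
      exact hcon v hv0 hv
    have hu : IsUnit e := (LinearMap.isUnit_iff_ker_eq_bot e).2 hinj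
    obtain ⟨g, hg⟩ := hu.exists_right_inv
    have h1 : h = e * h * g - (10 : k) • (1 : End k B) := by
      have h2 := congrArg (fun x => x * g) r2
      simp only [sub_mul, neg_mul, smul_mul_assoc] at h2
      rw [mul_assoc h e g, hg, mul_one] at h2
      have h2' : h = -((10 : k) • (1 : End k B)) + e * h * g := sub_eq_iff_eq_add.1 h2
      calc h = -((10 : k) • (1 : End k B)) + e * h * g := h2'
        _ = _ := by abel
    have h3 := congrArg (LinearMap.trace k B) h1
    rw [map_sub, LinearMap.trace_mul_comm, map_smul, LinearMap.trace_one, ← mul_assoc] at h3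
    have hg' : g * e = 1 := by
      obtain ⟨g', hg'⟩ := hu.exists_left_inv
      have : g' = g := by
        calc g' = g' * (e * g) := by rw [hg, mul_one]
          _ = g := by rw [← mul_assoc, hg', one_mul]
      rw [← this]; exact hg'
    rw [hg', one_mul] at h3
    have h4 : (10 : k) • (finrank k B : k) = 0 := by linear_combination h3
    rw [smul_eq_mul] at h4
    rcases mul_eq_zero.1 h4 with h5 | h5
    · norm_num at h5
    · exact hB.ne' (by exact_mod_cast h5)
  obtain ⟨v, hv0, hev⟩ := hker
  -- an eigenvector in the kernel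
  have hq : ∀ u : B, e u = 0 → h (h u) = (10 : k) • h u + (11 : k) • u := by
    intro u hu
    have := congrArg (fun x : End k B => x u) r1
    simp only [LinearMap.add_apply, LinearMap.sub_apply, Module.End.mul_apply, LinearMap.smul_apply,
      Module.End.one_apply, hu, map_zero, LinearMap.zero_apply, add_zero] at this
    rw [sub_sub, sub_eq_zero] at this
    exact this
  have hst : e (h v) = 0 := by
    have := congrArg (fun x : End k B => x v) r2
    simp only [LinearMap.sub_apply, Module.End.mul_apply, LinearMap.neg_apply, LinearMap.smul_apply,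
      hev, map_zero, smul_zero, neg_zero, zero_sub, neg_eq_zero] at this
    exact this
  have heig : ∃ (w : B) (c : k), w ≠ 0 ∧ e w = 0 ∧ h w = c • w ∧ (c = -1 ∨ c = 11) := by
    by_cases hw : h v - (11 : k) • v = 0
    · exact ⟨v, 11, hv0, hev, sub_eq_zero.1 hw, Or.inr rfl⟩
    · refine ⟨h v - (11 : k) • v, -1, hw, ?_, ?_, Or.inl rfl⟩
      · rw [map_sub, map_smul, hst, hev, smul_zero, sub_zero]
      · rw [map_sub, map_smul, hq v hev]
        module
  obtain ⟨w, c, hw0, hew, hhw, hc⟩ := heig
  set H : End k B := (-(5 : k)⁻¹) • h with hH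
  set E : End k B := ((10 : k)⁻¹) • e with hE
  set F : End k B := ((10 : k)⁻¹) • f with hF
  have hHw : H w = (-(5 : k)⁻¹ * c) • w := by
    rw [hH, LinearMap.smul_apply, hhw, smul_smul]
  have hc0 : -(5 : k)⁻¹ * c ≠ 0 := by
    rcases hc with rfl | rfl
    · have : -(5 : k)⁻¹ * -1 = 5⁻¹ := by ring
      rw [this]
      exact inv_ne_zero (by norm_num)
    · exact mul_ne_zero (neg_ne_zero.2 (inv_ne_zero (by norm_num))) (by norm_num)
  have t : IsSl2Triple H E F := by
    refine ⟨?_, ?_, ?_, ?_⟩
    · intro h0
      rw [h0, LinearMap.zero_apply] at hHw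
      rcases smul_eq_zero.1 hHw.symm with h1 | h1
      · exact hc0 h1
      · exact hw0 h1
    · rw [Ring.lie_def, hE, hF, hH, smul_mul_smul_comm, smul_mul_smul_comm, ← smul_sub, r4, smul_neg,
        smul_smul, ← neg_smul]
      congr 1
      norm_num
    · rw [Ring.lie_def, hE, hH, smul_mul_smul_comm, smul_mul_smul_comm, mul_comm (10 : k)⁻¹, ← smul_sub, r2,
        smul_neg, smul_smul, ← neg_smul, ← Nat.cast_smul_eq_nsmul k, smul_smul]
      congr 1
      norm_num
    · rw [Ring.lie_def, hF, hH, smul_mul_smul_comm, smul_mul_smul_comm, mul_comm (10 : k)⁻¹, ← smul_sub, r3,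
        smul_smul, ← Nat.cast_smul_eq_nsmul k, smul_smul, ← neg_smul]
      congr 1
      norm_num
  have hp : t.HasPrimitiveVectorWith w (-(5 : k)⁻¹ * c) := by
    refine ⟨hw0, ?_, ?_⟩
    · exact hHw
    · show E w = 0
      rw [hE, LinearMap.smul_apply, hew, smul_zero]
  obtain ⟨n, hn⟩ := hp.exists_nat
  rcases hc with rfl | rfl
  · have h1 : (1 : k) = ((5 * n : ℕ) : k) := by
      push_cast
      rw [← hn]
      norm_num
    have h2 : 1 = 5 * n := by exact_mod_cast h1
    omega
  · have h1 : ((11 + 5 * n : ℕ) : k) = 0 := by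
      push_cast
      rw [← hn]
      norm_num
    have h2 : 11 + 5 * n = 0 := by exact_mod_cast h1
    omega

/-- CF2 -/
theorem ne_two {P : Dat k C B} (hP : P.IsPkg) : finrank k C ≠ 2 := by
  intro h2
  have hdim := hP.dim
  rw [h2] at hdim
  let b : Basis (Fin 2) k C := (finBasisOfFinrankEq k C h2)
  have c00 : b.coord 0 (b 0) = 1 := by simp
  have c01 : b.coord 0 (b 1) = 0 := by simp
  have c10 : b.coord 1 (b 0) = 0 := by simp
  have c11 : b.coord 1 (b 1) = 1 := by simp
  set R11 : End k B := P.R (b 0) (b.coord 0) with hR11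
  set R12 : End k B := P.R (b 0) (b.coord 1) with hR12
  set R21 : End k B := P.R (b 1) (b.coord 0) with hR21
  set R22 : End k B := P.R (b 1) (b.coord 1) with hR22
  have D11 : R11 * R11 + R21 * R12 = (12 : k) • R11 := by
    have := hP.d1 (Fin 2) b (b 0) (b.coord 0)
    rw [Fin.sum_univ_two] at this
    exact this
  have D22 : R12 * R21 + R22 * R22 = (12 : k) • R22 := by
    have := hP.d1 (Fin 2) b (b 1) (b.coord 1)
    rw [Fin.sum_univ_two] at this
    exact this
  have D12 : R12 * R11 + R22 * R12 = (12 : k) • R12 := by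
    have := hP.d1 (Fin 2) b (b 0) (b.coord 1)
    rw [Fin.sum_univ_two] at this
    exact this
  have D21 : R11 * R21 + R21 * R22 = (12 : k) • R21 := by
    have := hP.d1 (Fin 2) b (b 1) (b.coord 0)
    rw [Fin.sum_univ_two] at this
    exact this
  -- adjoints
  have adj : ∀ (x : C) (ξ : Dual k C) (u w : B), P.ω (P.R x ξ u) w = P.ω u ((2 * ξ x) • w - P.R x ξ w) := by
    intro x ξ u w
    have := hP.sp x ξ u w
    simp only [Dat.R, LinearMap.add_apply, LinearMap.smul_apply, LinearMap.id_apply, map_add, map_smul,
      map_sub, smul_eq_mul]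
    linear_combination this
  have a11 : ∀ u w, P.ω (R11 u) w = P.ω u ((2 : k) • w - R11 w) := by
    intro u w; rw [hR11, adj, c00, mul_one]
  have a12 : ∀ u w, P.ω (R12 u) w = -P.ω u (R12 w) := by
    intro u w; rw [hR12, adj, c10, mul_zero, zero_smul, zero_sub, map_neg]
  have a21 : ∀ u w, P.ω (R21 u) w = -P.ω u (R21 w) := by
    intro u w; rw [hR21, adj, c01, mul_zero, zero_smul, zero_sub, map_neg]
  have a22 : ∀ u w, P.ω (R22 u) w = P.ω u ((2 : k) • w - R22 w) := by
    intro u w; rw [hR22, adj, c11, mul_one]
  have nd : ∀ X Y : End k B, (∀ u w, P.ω (X u) w = P.ω (Y u) w) → X = Y := by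
    intro X Y hXY
    ext u
    rw [← sub_eq_zero]
    refine hP.nondeg _ fun w => ?_
    rw [map_sub, LinearMap.sub_apply, hXY, sub_self]
  have E11 : R11 * R11 + R12 * R21 = (20 : k) • 1 - (8 : k) • R11 := by
    refine nd _ _ fun u w => ?_
    have h1 := congrArg (fun X : End k B => P.ω u (X w)) D11
    simp only [LinearMap.add_apply, LinearMap.sub_apply, Module.End.mul_apply, LinearMap.smul_apply,
      Module.End.one_apply, map_add, map_sub, map_smul, smul_eq_mul, a11, a12, a21] at h1 ⊢
    linear_combination h1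
  have E22 : R21 * R12 + R22 * R22 = (20 : k) • 1 - (8 : k) • R22 := by
    refine nd _ _ fun u w => ?_
    have h1 := congrArg (fun X : End k B => P.ω u (X w)) D22
    simp only [LinearMap.add_apply, LinearMap.sub_apply, Module.End.mul_apply, LinearMap.smul_apply,
      Module.End.one_apply, map_add, map_sub, map_smul, smul_eq_mul, a22, a12, a21] at h1 ⊢
    linear_combination h1
  have htau : R22 = (2 : k) • 1 - R11 := by
    have h1 : (20 : k) • (R22 - ((2 : k) • 1 - R11)) = 0 := by
      have e1 : R11 * R11 + R21 * R12 + (R12 * R21 + R22 * R22) = (12 : k) • R11 + (12 : k) • R22 := by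
        rw [D11, D22]
      have e2 : R11 * R11 + R12 * R21 + (R21 * R12 + R22 * R22) =
          (20 : k) • 1 - (8 : k) • R11 + ((20 : k) • 1 - (8 : k) • R22) := by rw [E11, E22]
      have e3 : (12 : k) • R11 + (12 : k) • R22 =
          (20 : k) • (1 : End k B) - (8 : k) • R11 + ((20 : k) • 1 - (8 : k) • R22) := by
        rw [← e1, ← e2]; abel
      linear_combination (norm := module) e3
    have h3 := (smul_eq_zero.1 h1).resolve_left (by norm_num)
    exact sub_eq_zero.1 h3
  refine sl_two_contra (k := k) (B := B) (by omega) (R11 - 1) R12 R21 ?_ ?_ ?_ ?_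
  · have : (R11 - 1) * (R11 - 1) = R11 * R11 - (2 : k) • R11 + 1 := by
      rw [sub_mul, mul_sub, mul_one, one_mul, two_smul]; abel
    rw [this]
    linear_combination (norm := module) D11
  · rw [htau] at D12
    have e1 : (R11 - 1) * R12 - R12 * (R11 - 1) = R11 * R12 - R12 * R11 := by noncomm_ring
    have e2 : ((2 : k) • (1 : End k B) - R11) * R12 = (2 : k) • R12 - R11 * R12 := by
      rw [sub_mul, smul_mul_assoc, one_mul]
    rw [e1]
    rw [e2] at D12
    linear_combination (norm := module) -D12
  · rw [htau] at D21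
    have e1 : (R11 - 1) * R21 - R21 * (R11 - 1) = R11 * R21 - R21 * R11 := by noncomm_ring
    have e2 : R21 * ((2 : k) • (1 : End k B) - R11) = (2 : k) • R21 - R21 * R11 := by
      rw [mul_sub, mul_smul_comm, mul_one]
    rw [e1]
    rw [e2] at D21
    linear_combination (norm := module) D21
  · linear_combination (norm := module) E11 - D11

end LicciCF
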