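import Pool.Agent.Work.MP_a98e4e_ag.CF.Defs

/-!
# CF3a: if `ε` is in the image of `∂`, then `δ` is injective; module structure of a derivation
-/

set_option autoImplicit false

open Module

namespace LicciCF

variable {k C B : Type*} [Field k] [AddCommGroup C] [Module k C] [AddCommGroup B]
  [Module k B] [FiniteDimensional k C] [FiniteDimensional k B]

/-- `S(x,y) = - S(y,x)` -/
theorem S_anti {P : Dat k C B} (hP : P.IsPkg) (x y : C) : P.S x y = -P.S y x := by
  have h := hP.S_alt (x + y)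
  simp only [map_add, LinearMap.add_apply, hP.S_alt, zero_add, add_zero] at h
  exact eq_neg_of_add_eq_zero_left (by rw [add_comm]; exact h)

/-- `dq` through `R` -/
theorem dq_R {P : Dat k C B} (hP : P.IsPkg) {δ : Dual k C →ₗ[k] B} {del : B →ₗ[k] C} (hd : P.IsDer δ del)
    (x : C) (u : B) (ξ η : Dual k C) :
    η (P.S x (del u) ξ) = ξ (del (P.R x η u)) - η (del (P.R x ξ u)) := by
  have h1 := hP.sp x ξ (δ η) u
  have h2 := hP.sp x η (δ ξ) u
  rw [hd.dq, hd.adj, hd.adj]
  simp only [Dat.R, LinearMap.add_apply, LinearMap.smul_apply, LinearMap.id_apply, map_add, map_smul,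
    smul_eq_mul, hd.adj]
  linear_combination h1 - h2

/-- (3'') -/
theorem S_del {P : Dat k C B} (hP : P.IsPkg) {δ : Dual k C →ₗ[k] B} {del : B →ₗ[k] C} (hd : P.IsDer δ del)
    {x y : C} {u a : B} (h : ∀ ξ, P.R x ξ u = P.R y ξ a) : P.S x (del u) = P.S y (del a) := by
  ext ξ
  refine (Module.forall_dual_apply_eq_zero_iff k _).1 (fun η => ?_) |> sub_eq_zero.1
  rw [map_sub, dq_R hP hd, dq_R hP hd, h, h, sub_self]

/-- if `ε` is in the image of `∂`, then `δ` is injective -/
theorem inj_of_mem {P : Dat k C B} (hP : P.IsPkg) {ε : C} (hε : P.IsEps ε)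
    {δ : Dual k C →ₗ[k] B} {del : B →ₗ[k] C} (hd : P.IsDer δ del) (hmem : ε ∈ LinearMap.range del) :
    Function.Injective δ := by
  obtain ⟨u, hu⟩ := hmem
  rw [injective_iff_map_eq_zero]
  intro f hf
  have hI : ∀ w, f (del w) = 0 := fun w => by rw [hd.adj, hf, map_zero, LinearMap.zero_apply]
  ext x
  obtain ⟨a, ha⟩ := hε.e3 x u
  have h1 := S_del hP hd ha
  rw [hu, S_anti hP x ε] at h1
  have h2 : P.S ε (x + del a) = 0 := by rw [map_add, ← h1]; abel
  obtain ⟨c, hc⟩ := hε.e1 _ h2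
  have h3 := congrArg f hc
  rw [map_add, hI, add_zero, map_smul, ← hu, hI, smul_zero] at h3
  rw [h3, LinearMap.zero_apply]

end LicciCF
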