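import Pool.Agent.Work.MP_a98e4e_ag.CF.CF1
import Pool.Agent.Work.MP_a98e4e_ag.CF.CF2
import Pool.Agent.Work.MP_a98e4e_ag.CF.CF3a

/-!
# CF3: the homology package
-/

set_option autoImplicit false
set_option linter.unusedSectionVars false

open Module

namespace LicciCF

variable {k C B : Type*} [Field k] [CharZero k] [AddCommGroup C] [Module k C] [AddCommGroup B]
  [Module k B] [FiniteDimensional k C] [FiniteDimensional k B]

namespace Dat

variable {P : Dat k C B}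

lemma R_apply (x : C) (ξ : Dual k C) (u : B) : P.R x ξ u = ξ x • u + P.σ x ξ u := by
  simp [R]

lemma T_apply (x : C) (ξ : Dual k C) (y : C) :
    P.T x ξ y = (2 * ξ y) • x - ξ x • y - P.S x y ξ := by
  simp [T, mul_smul]

namespace IsPkg

variable (hP : P.IsPkg)
include hP

lemma anti (u w : B) : P.ω u w = -P.ω w u := by
  have h := hP.alt (u + w)
  simp only [map_add, LinearMap.add_apply, hP.alt] at h
  linear_combination h

lemma eq_of (u v : B) (h : ∀ w, P.ω u w = P.ω v w) : u = v := by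
  rw [← sub_eq_zero]
  apply hP.nondeg
  intro w
  rw [map_sub, LinearMap.sub_apply, h, sub_self]

lemma sp' (x : C) (ξ : Dual k C) (u w : B) : P.ω u (P.σ x ξ w) = -P.ω (P.σ x ξ u) w := by
  linear_combination hP.sp x ξ u w

lemma S_anti (x y : C) : P.S x y = -P.S y x := by
  have h := hP.S_alt (x + y)
  simp only [map_add, LinearMap.add_apply, hP.S_alt] at h
  rw [eq_neg_iff_add_eq_zero, add_comm]
  simpa using h

end IsPkg

namespace IsDer

variable (hP : P.IsPkg) {δ : Dual k C →ₗ[k] B} {del : B →ₗ[k] C} (hd : P.IsDer δ del)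
include hP hd

lemma ker_iff (ξ : Dual k C) : δ ξ = 0 ↔ ∀ u, ξ (del u) = 0 := by
  constructor
  · intro h u
    rw [hd.adj, h, map_zero, LinearMap.zero_apply]
  · intro h
    apply hP.nondeg
    intro w
    rw [← hd.adj, h]

omit hP in
lemma dqR (hP : P.IsPkg) (x : C) (u : B) (ξ η : Dual k C) :
    η (P.S x (del u) ξ) = P.ω (δ ξ) (P.R x η u) - P.ω (δ η) (P.R x ξ u) := by
  rw [hd.dq, Dat.R_apply, Dat.R_apply, map_add, map_add, map_smul, map_smul, hP.sp', hP.sp',
    hd.adj, hd.adj]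
  simp only [smul_eq_mul]
  ring

lemma S_del {x ε : C} {u a : B} (h : ∀ ξ, P.R x ξ u = P.R ε ξ a) :
    P.S x (del u) = P.S ε (del a) := by
  ext ξ
  rw [← sub_eq_zero, ← Module.forall_dual_apply_eq_zero_iff k]
  intro η
  rw [map_sub, hd.dqR hP, hd.dqR hP, h, h, sub_self]

lemma del_sigma {x : C} {ξ : Dual k C} (hξ : δ ξ = 0) {u : B} (hu : del u = 0) :
    del (P.σ x ξ u) = 0 := by
  rw [← Module.forall_dual_apply_eq_zero_iff k]
  intro η
  rw [hd.adj, hP.sp']
  have h := hd.dq x u ξ η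
  rw [hu, hξ] at h
  simp only [map_zero, LinearMap.zero_apply, mul_zero, sub_zero, add_zero] at h
  rw [← h, neg_zero]

lemma T_del {x : C} {ξ : Dual k C} (hξ : δ ξ = 0) (u : B) :
    P.T x ξ (del u) = del (P.σ x ξ u) := by
  rw [← sub_eq_zero, ← Module.forall_dual_apply_eq_zero_iff k]
  intro η
  have h := hd.dq x u ξ η
  have h2 : ξ (del u) = 0 := (hd.ker_iff hP ξ).1 hξ u
  rw [hξ, h2] at h
  rw [map_sub, hd.adj η (P.σ x ξ u), hP.sp', Dat.T_apply, map_sub, map_sub, h, h2]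
  simp only [map_zero, LinearMap.zero_apply, map_smul, smul_eq_mul, mul_zero, zero_smul]
  ring

lemma sigma_delta {x : C} {ξ : Dual k C} (hξ : δ ξ = 0) (η : Dual k C) :
    P.σ x ξ (δ η) = -δ (η ∘ₗ P.T x ξ) := by
  apply hP.eq_of
  intro w
  have h : P.ω (δ (η ∘ₗ P.T x ξ)) w = η (P.T x ξ (del w)) := by
    rw [← hd.adj]
    rfl
  rw [map_neg, LinearMap.neg_apply, h, hd.T_del hP hξ, hd.adj, hP.sp', neg_neg]

lemma R_delta {x : C} {ξ : Dual k C} (hξ : δ ξ = 0) (η : Dual k C) :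
    ∃ ζ, P.R x ξ (δ η) = δ ζ := by
  refine ⟨ξ x • η - η ∘ₗ P.T x ξ, ?_⟩
  rw [Dat.R_apply, hd.sigma_delta hP hξ, map_sub, map_smul, sub_eq_add_neg]

/-- the image of `del` is the annihilator of `ker δ`. -/
lemma S_mem {x : C} {ξ η : Dual k C} (hξ : δ ξ = 0) (hη : δ η = 0) (u : B) :
    η (P.S x (del u) ξ) = 0 := by
  rw [hd.dqR hP, hξ, hη]
  simp

end IsDer

end Dat

lemma trace_coord {V ι : Type*} [AddCommGroup V] [Module k V] [Fintype ι] (b : Basis ι k V)
    (M : V →ₗ[k] V) : LinearMap.trace k V M = ∑ i, b.coord i (M (b i)) := by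
  classical
  rw [LinearMap.trace_eq_matrix_trace k b, Matrix.trace]
  refine Finset.sum_congr rfl fun i _ => ?_
  rw [Matrix.diag_apply, LinearMap.toMatrix_apply, Basis.coord_apply]

lemma comp_sum' {V W U ι : Type*} [AddCommGroup V] [Module k V] [AddCommGroup W] [Module k W]
    [AddCommGroup U] [Module k U] [Fintype ι] (M : W →ₗ[k] U) (X : ι → V →ₗ[k] W) :
    M ∘ₗ (∑ i, X i) = ∑ i, M ∘ₗ X i := by
  ext v
  simp [LinearMap.sum_apply]

/-! ## Splittings -/

/-- Complements of `range del` in `C` and of `range δ` in `ker del`. -/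
structure Spl (P : Dat k C B) (δ : Dual k C →ₗ[k] B) (del : B →ₗ[k] C) where
  C' : Submodule k C
  B' : Submodule k B
  π : C →ₗ[k] C'
  ρ : B →ₗ[k] B'
  π_del : ∀ u, π (del u) = 0
  π_id : ∀ x : C', π x = x
  π_ker : ∀ x, π x = 0 → ∃ u, del u = x
  B'_le : ∀ w : B', del w = 0
  ρ_id : ∀ w : B', ρ w = w
  ρ_ω : ∀ u (w : B'), P.ω (ρ u) w = P.ω u w
  ρ_ker : ∀ u, del u = 0 → ρ u = 0 → ∃ ξ, δ ξ = u
  nd : ∀ w : B', (∀ w' : B', P.ω w w' = 0) → w = 0
  compl : IsCompl (LinearMap.range del) C'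

theorem exists_spl {P : Dat k C B} (hP : P.IsPkg) {δ : Dual k C →ₗ[k] B} {del : B →ₗ[k] C}
    (hd : P.IsDer δ del) : Nonempty (Spl P δ del) := by
  obtain ⟨C', hC'⟩ := Submodule.exists_isCompl (LinearMap.range del)
  obtain ⟨Q, hQ⟩ := Submodule.exists_isCompl (LinearMap.range δ)
  set B' : Submodule k B := Q ⊓ LinearMap.ker del with hB'
  have hle : LinearMap.range δ ≤ LinearMap.ker del := by
    rintro _ ⟨ξ, rfl⟩
    exact hd.sq ξ
  have hdec : ∀ u, del u = 0 → ∃ ξ, ∃ w ∈ B', u = δ ξ + w := by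
    intro u hu
    have h1 : u ∈ LinearMap.range δ ⊔ Q := by rw [hQ.sup_eq_top]; trivial
    obtain ⟨_, ⟨ξ, rfl⟩, w, hw, rfl⟩ := Submodule.mem_sup.1 h1
    rw [map_add, hd.sq, zero_add] at hu
    exact ⟨ξ, w, ⟨hw, LinearMap.mem_ker.2 hu⟩, rfl⟩
  have hortho : ∀ ξ, ∀ w ∈ B', P.ω (δ ξ) w = 0 := by
    intro ξ w hw
    rw [← hd.adj, LinearMap.mem_ker.1 hw.2, map_zero]
  have hnd : ∀ w : B', (∀ w' : B', P.ω w w' = 0) → w = 0 := by
    rintro ⟨w, hw⟩ h
    -- `w` is orthogonal to `ker del`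
    have h1 : ∀ u, del u = 0 → P.ω w u = 0 := by
      intro u hu
      obtain ⟨ξ, w', hw', rfl⟩ := hdec u hu
      rw [map_add, hP.anti w (δ ξ), hortho ξ w hw, neg_zero, zero_add]
      exact h ⟨w', hw'⟩
    -- so it is in `range δ`
    have h2 : ∃ ξ : Dual k C, δ ξ = w := by
      have h3 : P.ω w ∈ (LinearMap.ker del).dualAnnihilator := by
        rw [Submodule.mem_dualAnnihilator]
        exact fun u hu => h1 u hu
      rw [← LinearMap.range_dualMap_eq_dualAnnihilator_ker] at h3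
      obtain ⟨ξ, hξ⟩ := h3
      refine ⟨ξ, hP.eq_of _ _ fun u => ?_⟩
      rw [← hd.adj, ← hξ]
      rfl
    obtain ⟨ξ, hξ⟩ := h2
    have h4 : w ∈ LinearMap.range δ ⊓ Q := ⟨⟨ξ, hξ⟩, hw.1⟩
    rw [hQ.inf_eq_bot, Submodule.mem_bot] at h4
    exact Subtype.ext h4
  -- the orthogonal projection
  set φ : B' →ₗ[k] Dual k B' := P.ω.compl₁₂ B'.subtype B'.subtype with hφ
  have hφi : Function.Injective φ := by
    rw [injective_iff_map_eq_zero]
    intro w hw
    apply hnd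
    intro w'
    exact LinearMap.congr_fun hw w'
  have hφb : Function.Bijective φ := ⟨hφi,
    (LinearMap.injective_iff_surjective_of_finrank_eq_finrank
      (Subspace.dual_finrank_eq).symm).1 hφi⟩
  set e : B' ≃ₗ[k] Dual k B' := LinearEquiv.ofBijective φ hφb with he
  set ψ : B →ₗ[k] Dual k B' := P.ω.compl₁₂ LinearMap.id B'.subtype with hψ
  have hρω : ∀ u (w : B'), P.ω (e.symm (ψ u)) w = P.ω u w := by
    intro u w
    have h1 : φ (e.symm (ψ u)) = ψ u := e.apply_symm_apply (ψ u)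
    exact LinearMap.congr_fun h1 w
  have hρid : ∀ w : B', e.symm (ψ w) = w := by
    intro w
    rw [LinearEquiv.symm_apply_eq]
    rfl
  refine ⟨⟨C', B', Submodule.projectionOnto C' _ hC'.symm, e.symm.toLinearMap ∘ₗ ψ, ?_, ?_,
    ?_, ?_, hρid, hρω, ?_, hnd, hC'⟩⟩
  · intro u
    rw [Submodule.projectionOnto_apply_eq_zero_iff]
    exact ⟨u, rfl⟩
  · intro x
    exact Submodule.projectionOnto_apply_left hC'.symm x
  · intro x hx
    rw [Submodule.projectionOnto_apply_eq_zero_iff] at hx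
    exact hx
  · intro w
    exact LinearMap.mem_ker.1 w.2.2
  · intro u hu hρ
    obtain ⟨ξ, w, hw, rfl⟩ := hdec u hu
    have h1 : (e.symm.toLinearMap ∘ₗ ψ) (δ ξ) = 0 := by
      have h2 : ψ (δ ξ) = 0 := by
        ext w'
        exact hortho ξ w' w'.2
      simp [h2]
    rw [map_add, h1, zero_add] at hρ
    have h2 : (⟨w, hw⟩ : B') = 0 := by rw [← hρid ⟨w, hw⟩]; exact hρ
    have h3 : w = 0 := congrArg Subtype.val h2
    exact ⟨ξ, by rw [h3, add_zero]⟩


namespace Spl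

variable {P : Dat k C B} {δ : Dual k C →ₗ[k] B} {del : B →ₗ[k] C} (s : Spl P δ del)

/-- The homology package. -/
noncomputable def dat : Dat k s.C' s.B' where
  ω := P.ω.compl₁₂ s.B'.subtype s.B'.subtype
  σ := LinearMap.mk₂ k (fun x f => s.ρ ∘ₗ P.σ x (s.π.dualMap f) ∘ₗ s.B'.subtype)
    (fun x x' f => by ext u; simp) (fun c x f => by ext u; simp)
    (fun x f f' => by ext u; simp) (fun c x f => by ext u; simp)
  S := LinearMap.mk₂ k (fun x y => s.π ∘ₗ P.S x y ∘ₗ s.π.dualMap)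
    (fun x x' f => by ext u; simp) (fun c x f => by ext u; simp)
    (fun x f f' => by ext u; simp) (fun c x f => by ext u; simp)

lemma dat_ω (u w : s.B') : s.dat.ω u w = P.ω u w := rfl

lemma dat_σ (x : s.C') (f : Dual k s.C') (u : s.B') :
    s.dat.σ x f u = s.ρ (P.σ x (s.π.dualMap f) u) := rfl

lemma dat_S (x y : s.C') (f : Dual k s.C') :
    s.dat.S x y f = s.π (P.S x y (s.π.dualMap f)) := rfl

lemma dualMap_del (f : Dual k s.C') (u : B) : s.π.dualMap f (del u) = 0 := by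
  rw [LinearMap.dualMap_apply, s.π_del, map_zero]

lemma dualMap_coe (f : Dual k s.C') (x : s.C') : s.π.dualMap f x = f x := by
  rw [LinearMap.dualMap_apply, s.π_id]

lemma dat_R (x : s.C') (f : Dual k s.C') (u : s.B') :
    s.dat.R x f u = s.ρ (P.R x (s.π.dualMap f) u) := by
  rw [Dat.R_apply, Dat.R_apply, s.dat_σ, map_add, map_smul, s.ρ_id, s.dualMap_coe]

lemma dat_T (x : s.C') (f : Dual k s.C') (y : s.C') :
    s.dat.T x f y = s.π (P.T x (s.π.dualMap f) y) := by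
  rw [Dat.T_apply, Dat.T_apply, s.dat_S, map_sub, map_sub, map_smul, map_smul, s.π_id, s.π_id,
    s.dualMap_coe, s.dualMap_coe]

section

variable (hP : P.IsPkg) (hd : P.IsDer δ del)
include hP hd

lemma δ_dualMap (f : Dual k s.C') : δ (s.π.dualMap f) = 0 :=
  (hd.ker_iff hP _).2 fun u => s.dualMap_del f u

omit hP in
lemma ρ_δ (ξ : Dual k C) : s.ρ (δ ξ) = 0 := by
  apply s.nd
  intro w
  rw [s.ρ_ω, ← hd.adj, s.B'_le, map_zero]

/-- `u - ρ u` is a boundary for a cycle `u`. -/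
lemma cyc {u : B} (hu : del u = 0) : ∃ ζ, u = s.ρ u + δ ζ := by
  have h1 : del (u - s.ρ u) = 0 := by rw [map_sub, hu, s.B'_le, sub_zero]
  have h2 : s.ρ (u - s.ρ u) = 0 := by rw [map_sub, s.ρ_id, sub_self]
  obtain ⟨ζ, hζ⟩ := s.ρ_ker _ h1 h2
  exact ⟨ζ, by rw [hζ]; abel⟩

lemma ρ_R {x : C} {ξ : Dual k C} (hξ : δ ξ = 0) {u : B} (hu : del u = 0) :
    s.ρ (P.R x ξ (s.ρ u)) = s.ρ (P.R x ξ u) := by
  obtain ⟨ζ, hζ⟩ := s.cyc hP hd hu
  obtain ⟨η, hη⟩ := hd.R_delta hP (x := x) hξ ζ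
  conv_rhs => rw [hζ, map_add, hη, map_add, s.ρ_δ hd, add_zero]

lemma ρ_sigma {x : C} {ξ : Dual k C} (hξ : δ ξ = 0) {u : B} (hu : del u = 0) :
    s.ρ (P.σ x ξ (s.ρ u)) = s.ρ (P.σ x ξ u) := by
  obtain ⟨ζ, hζ⟩ := s.cyc hP hd hu
  conv_rhs => rw [hζ, map_add, hd.sigma_delta hP hξ, map_add, map_neg, s.ρ_δ hd, neg_zero,
    add_zero]

lemma π_S_del {x : C} {ξ : Dual k C} (hξ : δ ξ = 0) (u : B) :
    s.π (P.S x (del u) ξ) = 0 := by
  rw [← Module.forall_dual_apply_eq_zero_iff k]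
  intro f
  exact hd.S_mem hP hξ (s.δ_dualMap hP hd f) u

lemma π_S_del' {x : C} {ξ : Dual k C} (hξ : δ ξ = 0) (u : B) :
    s.π (P.S (del u) x ξ) = 0 := by
  rw [hP.S_anti, LinearMap.neg_apply, map_neg, s.π_S_del hP hd hξ, neg_zero]

omit hP hd in
/-- `x - π x` is in the range of `del`. -/
lemma cyc' (x : C) : ∃ u, x = s.π x + del u := by
  have h1 : s.π (x - s.π x) = 0 := by rw [map_sub, s.π_id, sub_self]
  obtain ⟨u, hu⟩ := s.π_ker _ h1
  exact ⟨u, by rw [hu]; abel⟩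

lemma π_S_π {x y : C} {ξ : Dual k C} (hξ : δ ξ = 0) :
    s.π (P.S (s.π x) y ξ) = s.π (P.S x y ξ) := by
  obtain ⟨u, hu⟩ := s.cyc' x
  conv_rhs => rw [hu, map_add, LinearMap.add_apply, LinearMap.add_apply, map_add,
    s.π_S_del' hP hd hξ, add_zero]

lemma π_S_π' {x y : C} {ξ : Dual k C} (hξ : δ ξ = 0) :
    s.π (P.S x (s.π y) ξ) = s.π (P.S x y ξ) := by
  rw [hP.S_anti, LinearMap.neg_apply, map_neg, s.π_S_π hP hd hξ, ← map_neg,
    ← LinearMap.neg_apply, ← hP.S_anti]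

lemma π_T_π {x y : C} {ξ : Dual k C} (hξ : δ ξ = 0) :
    s.π (P.T x ξ (s.π y)) = s.π (P.T x ξ y) := by
  obtain ⟨u, hu⟩ := s.cyc' y
  conv_rhs => rw [hu, map_add, hd.T_del hP hξ, map_add, s.π_del, add_zero]

end

/-- An adapted basis of `C`. -/
structure Adp {ι : Type} (e' : Basis ι k s.C') where
  κ : Type
  fin : Fintype κ
  E : Basis (κ ⊕ ι) k C
  u : κ → B
  del_u : ∀ i, del (u i) = E (Sum.inl i)
  ρ_u : ∀ i, s.ρ (u i) = 0
  inr : ∀ j, E (Sum.inr j) = e' j
  coord_inr : ∀ j, E.coord (Sum.inr j) = s.π.dualMap (e'.coord j)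

theorem exists_adp {ι : Type} (e' : Basis ι k s.C') : Nonempty (s.Adp e') := by
  classical
  set eI := Module.finBasis k (LinearMap.range del) with heI
  set E : Basis (Fin (finrank k (LinearMap.range del)) ⊕ ι) k C :=
    (eI.prod e').map (Submodule.prodEquivOfIsCompl _ _ s.compl) with hE
  have h1 : ∀ i, E (Sum.inl i) = eI i := by
    intro i
    simp [hE]
  have h2 : ∀ j, E (Sum.inr j) = e' j := by
    intro j
    simp [hE]
  have h3 : ∀ i, ∃ u, del u = E (Sum.inl i) ∧ s.ρ u = 0 := by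
    intro i
    obtain ⟨u, hu⟩ := (eI i).2
    refine ⟨u - s.ρ u, ?_, ?_⟩
    · rw [map_sub, s.B'_le, sub_zero, hu, h1]
    · rw [map_sub, s.ρ_id, sub_self]
  choose u hu hρ using h3
  refine ⟨⟨_, inferInstance, E, u, hu, hρ, h2, fun j => ?_⟩⟩
  apply E.ext
  rintro (i | l)
  · rw [Basis.coord_apply, Basis.repr_self, ← hu, s.dualMap_del,
      Finsupp.single_apply, if_neg (by simp)]
  · rw [Basis.coord_apply, Basis.repr_self, h2, s.dualMap_coe, Basis.coord_apply,
      Basis.repr_self, Finsupp.single_apply, Finsupp.single_apply]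
    simp

section

variable {s} {ι : Type} {e' : Basis ι k s.C'} (a : s.Adp e')

/-- the coordinate of `E (inl i)` -/
noncomputable def Adp.ξ (i : a.κ) : Dual k C := a.E.coord (Sum.inl i)

lemma Adp.ξ_inr (i : a.κ) (j : ι) : a.ξ i (e' j) = 0 := by
  classical
  rw [Adp.ξ, ← a.inr, Basis.coord_apply, Basis.repr_self, Finsupp.single_apply,
    if_neg (by simp)]

lemma Adp.ξ_coe (i : a.κ) (x : s.C') : a.ξ i x = 0 := by
  have h : (a.ξ i) ∘ₗ s.C'.subtype = 0 := by
    apply e'.ext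
    intro j
    exact a.ξ_inr i j
  exact LinearMap.congr_fun h x

variable [Fintype ι]

/-- a boundary is a combination of the `E (inl i)`. -/
lemma Adp.del_eq [Fintype a.κ] (v : B) :
    del v = ∑ i, a.ξ i (del v) • del (a.u i) := by
  have h := a.E.sum_repr (del v)
  rw [Fintype.sum_sum_type] at h
  have h2 : ∑ j, (a.E.repr (del v)) (Sum.inr j) • a.E (Sum.inr j) = 0 := by
    refine Finset.sum_eq_zero fun j _ => ?_
    have h3 : (a.E.repr (del v)) (Sum.inr j) = 0 := by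
      have h4 := LinearMap.congr_fun (a.coord_inr j) (del v)
      rw [s.dualMap_del] at h4
      exact h4
    rw [h3, zero_smul]
  rw [h2, add_zero] at h
  rw [← h]
  conv_lhs => rw [← h]
  refine Finset.sum_congr rfl fun i _ => ?_
  rw [a.del_u, h]
  rfl

end

section pkg

variable (hP : P.IsPkg) (hd : P.IsDer δ del)
include hP hd

lemma dat_d2 (ι : Type) [Fintype ι] (e' : Basis ι k s.C') (x y : s.C') :
    ∑ j, s.dat.S (s.dat.S x y (e'.coord j)) (e' j) = (24 : k) • s.dat.S x y := by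
  obtain ⟨a⟩ := s.exists_adp e'
  let _ := a.fin
  ext1 f
  have h := LinearMap.congr_fun (hP.d2 _ a.E x y) (s.π.dualMap f)
  rw [Fintype.sum_sum_type, LinearMap.add_apply, LinearMap.sum_apply, LinearMap.sum_apply] at h
  have h2 := congrArg s.π h
  rw [map_add, map_sum, map_sum] at h2
  have h3 : ∑ i, s.π (P.S (P.S x y (a.E.coord (Sum.inl i))) (a.E (Sum.inl i))
      (s.π.dualMap f)) = 0 := by
    refine Finset.sum_eq_zero fun i _ => ?_
    rw [← a.del_u]
    exact s.π_S_del hP hd (s.δ_dualMap hP hd f) _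
  rw [h3, zero_add] at h2
  rw [LinearMap.sum_apply, LinearMap.smul_apply, s.dat_S, ← map_smul, ← LinearMap.smul_apply,
    ← h2]
  refine Finset.sum_congr rfl fun j _ => ?_
  rw [s.dat_S, s.dat_S, s.π_S_π hP hd (s.δ_dualMap hP hd f), a.inr, a.coord_inr]

/-- the correction term in (D1') -/
lemma corr {ι : Type} [Fintype ι] {e' : Basis ι k s.C'} (a : s.Adp e') [Fintype a.κ]
    (x : s.C') {ξ : Dual k C} (hξ : δ ξ = 0) (u w : s.B') :
    ∑ i, P.ω (P.R (del (a.u i)) ξ (P.R x (a.ξ i) u)) w = 0 := by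
  have h0 : ∀ v, ξ (del v) = 0 := (hd.ker_iff hP ξ).1 hξ
  -- the symmetric matrix
  set T : a.κ → a.κ → k := fun i l => a.ξ l (del (P.R x (a.ξ i) u)) with hT
  have hTs : ∀ i l, T i l = T l i := by
    intro i l
    have h := hd.dqR hP x u (a.ξ i) (a.ξ l)
    rw [s.B'_le, map_zero, LinearMap.zero_apply, map_zero] at h
    simp only [hT, hd.adj]
    linear_combination h
  -- the antisymmetric matrix
  set Y : a.κ → a.κ → k := fun l i => P.ω (P.σ (del (a.u l)) ξ w) (a.u i) with hY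
  have hYs : ∀ i l, Y i l = -Y l i := by
    intro i l
    have h := hd.dq2 ξ hξ (a.u l) w (a.u i)
    rw [s.B'_le, map_zero, LinearMap.zero_apply, LinearMap.zero_apply, map_zero,
      LinearMap.zero_apply, add_zero] at h
    have h2 := hP.sp (del (a.u i)) ξ (a.u l) w
    have h3 := hP.anti (a.u l) (P.σ (del (a.u i)) ξ w)
    simp only [hY]
    linear_combination h - h2 + h3
  have h1 : ∀ i, P.ω (P.R (del (a.u i)) ξ (P.R x (a.ξ i) u)) w = -∑ l, T i l * Y l i := by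
    intro i
    set v := P.R x (a.ξ i) u with hv
    have h := hd.dq2 ξ hξ (a.u i) v w
    rw [s.B'_le w, map_zero, LinearMap.zero_apply, LinearMap.zero_apply, map_zero,
      LinearMap.zero_apply, add_zero] at h
    have h2 : P.ω (P.σ (del v) ξ w) (a.u i) = ∑ l, T i l * Y l i := by
      rw [a.del_eq v]
      simp only [map_sum, LinearMap.sum_apply, map_smul, LinearMap.smul_apply, smul_eq_mul]
      rfl
    rw [Dat.R_apply, h0, zero_smul, zero_add, ← h2]
    linear_combination h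
  simp only [h1]
  rw [Finset.sum_neg_distrib, neg_eq_zero]
  have h2 : ∑ i, ∑ l, T i l * Y l i = -∑ i, ∑ l, T i l * Y l i := by
    conv_lhs => rw [Finset.sum_comm]
    rw [← Finset.sum_neg_distrib]
    refine Finset.sum_congr rfl fun i _ => ?_
    rw [← Finset.sum_neg_distrib]
    refine Finset.sum_congr rfl fun l _ => ?_
    rw [hTs l i, hYs i l]
    ring
  have h3 : (2 : k) ≠ 0 := two_ne_zero
  have h4 : (2 : k) * ∑ i, ∑ l, T i l * Y l i = 0 := by linear_combination h2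
  exact (mul_eq_zero.1 h4).resolve_left h3

lemma dat_d1 (ι : Type) [Fintype ι] (e' : Basis ι k s.C') (x : s.C') (f : Dual k s.C') :
    ∑ j, s.dat.R (e' j) f ∘ₗ s.dat.R x (e'.coord j) = (12 : k) • s.dat.R x f := by
  obtain ⟨a⟩ := s.exists_adp e'
  let _ := a.fin
  have hf := s.δ_dualMap hP hd f
  ext1 u
  have h := LinearMap.congr_fun (hP.d1 _ a.E x (s.π.dualMap f)) u
  rw [Fintype.sum_sum_type, LinearMap.add_apply, LinearMap.sum_apply, LinearMap.sum_apply] at h
  have h2 := congrArg s.ρ h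
  rw [map_add] at h2
  have h3 : s.ρ (∑ i, (P.R (a.E (Sum.inl i)) (s.π.dualMap f) ∘ₗ
      P.R x (a.E.coord (Sum.inl i))) u) = 0 := by
    apply s.nd
    intro w
    rw [s.ρ_ω, map_sum, LinearMap.sum_apply, ← s.corr hP hd a x hf u w]
    refine Finset.sum_congr rfl fun i _ => ?_
    rw [← a.del_u]
    rfl
  rw [h3, zero_add, map_sum] at h2
  rw [LinearMap.sum_apply, LinearMap.smul_apply, s.dat_R, ← map_smul, ← LinearMap.smul_apply,
    ← h2]
  refine Finset.sum_congr rfl fun j _ => ?_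
  rw [LinearMap.comp_apply, LinearMap.comp_apply, s.dat_R, s.dat_R, a.coord_inr, a.inr]
  refine s.ρ_R hP hd hf ?_
  rw [Dat.R_apply, map_add, map_smul, s.B'_le, smul_zero, zero_add]
  exact hd.del_sigma hP (s.δ_dualMap hP hd _) (s.B'_le u)

/-- the trace of an operator preserving `range δ`. -/
lemma tr_B {ι : Type} [Fintype ι] {e' : Basis ι k s.C'} (a : s.Adp e') [Fintype a.κ]
    (M : B →ₗ[k] B) (hM : ∀ η, ∃ ζ, M (δ η) = δ ζ) :
    LinearMap.trace k B M = LinearMap.trace k s.B' (s.ρ ∘ₗ M ∘ₗ s.B'.subtype) +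
      ∑ i, (P.ω (δ (a.ξ i)) (M (a.u i)) + P.ω (M (δ (a.ξ i))) (a.u i)) := by
  set p1 : B →ₗ[k] B := s.B'.subtype ∘ₗ s.ρ with hp1
  set p2 : B →ₗ[k] B := ∑ i, (P.ω (δ (a.ξ i))).smulRight (a.u i) with hp2
  set p3 : B →ₗ[k] B := LinearMap.id - p1 - p2 with hp3
  have hp2a : ∀ w, p2 w = ∑ i, P.ω (δ (a.ξ i)) w • a.u i := by
    intro w
    rw [hp2, LinearMap.sum_apply]
    rfl
  -- values of `p3`
  have h1 : ∀ w, ∃ ζ, p3 w = δ ζ := by
    intro w
    have h2 : del (p3 w) = 0 := by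
      have h3 : del (p1 w) = 0 := s.B'_le _
      have h4 : del (p2 w) = del w := by
        rw [hp2a, map_sum, a.del_eq w]
        refine Finset.sum_congr rfl fun i _ => ?_
        rw [map_smul, hd.adj]
      rw [hp3, LinearMap.sub_apply, LinearMap.sub_apply, map_sub, map_sub, h3, h4,
        LinearMap.id_apply, sub_zero, sub_self]
    have h5 : s.ρ (p3 w) = 0 := by
      have h3 : s.ρ (p1 w) = s.ρ w := s.ρ_id _
      have h4 : s.ρ (p2 w) = 0 := by
        rw [hp2a, map_sum]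
        refine Finset.sum_eq_zero fun i _ => ?_
        rw [map_smul, a.ρ_u, smul_zero]
      rw [hp3, LinearMap.sub_apply, LinearMap.sub_apply, map_sub, map_sub, h3, h4,
        LinearMap.id_apply, sub_self, sub_zero]
    obtain ⟨ζ, hζ⟩ := s.ρ_ker _ h2 h5
    exact ⟨ζ, hζ.symm⟩
  have h2 : ∀ ζ, p3 (δ ζ) = δ ζ := by
    intro ζ
    have h3 : p1 (δ ζ) = 0 := by
      rw [hp1, LinearMap.comp_apply, s.ρ_δ hd, map_zero]
    have h4 : p2 (δ ζ) = 0 := by
      rw [hp2a]
      refine Finset.sum_eq_zero fun i _ => ?_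
      rw [← hd.adj, hd.sq, map_zero, zero_smul]
    rw [hp3, LinearMap.sub_apply, LinearMap.sub_apply, h3, h4, LinearMap.id_apply, sub_zero,
      sub_zero]
  -- boundaries are combinations of the `δ (ξ i)`
  have h3 : ∀ ζ, δ ζ = ∑ i, P.ω (δ ζ) (a.u i) • δ (a.ξ i) := by
    intro ζ
    have h4 := a.E.sum_dual_apply_smul_coord ζ
    conv_lhs => rw [← h4]
    rw [Fintype.sum_sum_type, map_add, map_sum, map_sum]
    have h5 : ∑ j, δ (ζ (a.E (Sum.inr j)) • a.E.coord (Sum.inr j)) = 0 := by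
      refine Finset.sum_eq_zero fun j _ => ?_
      rw [map_smul, a.coord_inr, s.δ_dualMap hP hd, smul_zero]
    rw [h5, add_zero]
    refine Finset.sum_congr rfl fun i _ => ?_
    rw [map_smul, ← hd.adj, a.del_u]
    rfl
  have h4 : p3 = ∑ i, ((P.ω.flip (a.u i)) ∘ₗ p3).smulRight (δ (a.ξ i)) := by
    ext w
    rw [LinearMap.sum_apply]
    obtain ⟨ζ, hζ⟩ := h1 w
    simp only [LinearMap.smulRight_apply, LinearMap.comp_apply, LinearMap.flip_apply, hζ]
    exact h3 ζ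
  have hid : M = M ∘ₗ p1 + M ∘ₗ p2 + M ∘ₗ p3 := by
    ext w
    simp only [LinearMap.add_apply, LinearMap.comp_apply, hp3, LinearMap.sub_apply,
      LinearMap.id_apply, map_sub]
    abel
  have t1 : LinearMap.trace k B (M ∘ₗ p1) =
      LinearMap.trace k s.B' (s.ρ ∘ₗ M ∘ₗ s.B'.subtype) := by
    rw [hp1, ← LinearMap.comp_assoc, LinearMap.trace_comp_comm']
  have t2 : LinearMap.trace k B (M ∘ₗ p2) = ∑ i, P.ω (δ (a.ξ i)) (M (a.u i)) := by
    rw [hp2, comp_sum', map_sum]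
    refine Finset.sum_congr rfl fun i _ => ?_
    have h5 : M ∘ₗ (P.ω (δ (a.ξ i))).smulRight (a.u i) =
        (P.ω (δ (a.ξ i))).smulRight (M (a.u i)) := by
      ext w
      simp
    rw [h5, LinearMap.trace_smulRight]
  have t3 : LinearMap.trace k B (M ∘ₗ p3) = ∑ i, P.ω (M (δ (a.ξ i))) (a.u i) := by
    conv_lhs => rw [h4, comp_sum', map_sum]
    refine Finset.sum_congr rfl fun i _ => ?_
    have h5 : M ∘ₗ ((P.ω.flip (a.u i)) ∘ₗ p3).smulRight (δ (a.ξ i)) =
        ((P.ω.flip (a.u i)) ∘ₗ p3).smulRight (M (δ (a.ξ i))) := by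
      ext w
      simp
    rw [h5, LinearMap.trace_smulRight, LinearMap.comp_apply, LinearMap.flip_apply]
    obtain ⟨ζ, hζ⟩ := hM (a.ξ i)
    rw [hζ, h2]
  conv_lhs => rw [hid, map_add, map_add, t1, t2, t3]
  rw [Finset.sum_add_distrib]
  ring

lemma dat_d0 (x y : s.C') (f g : Dual k s.C') :
    LinearMap.trace k s.C' (s.dat.T x f ∘ₗ s.dat.T y g) -
      2⁻¹ * LinearMap.trace k s.B' (s.dat.σ x f ∘ₗ s.dat.σ y g) =
      12 * g (s.dat.T x f y) := by
  set e' := Module.finBasis k s.C' with he'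
  obtain ⟨a⟩ := s.exists_adp e'
  let _ := a.fin
  have hf := s.δ_dualMap hP hd f
  have hg := s.δ_dualMap hP hd g
  set F := s.π.dualMap f with hF
  set G := s.π.dualMap g with hG
  have h := hP.d0 x y F G
  -- the trace over `I`
  set N : k := ∑ i, P.ω (δ (a.ξ i)) (P.σ x F (P.σ y G (a.u i))) with hN
  have key : ∀ {ξ η : Dual k C}, δ ξ = 0 → δ η = 0 → ∀ (x y : C),
      ∑ i, P.ω (δ (a.ξ i)) (P.σ x ξ (P.σ y η (a.u i))) =
      ∑ i, ∑ l, P.ω (δ (a.ξ l)) (P.σ y η (a.u i)) * P.ω (δ (a.ξ i)) (P.σ x ξ (a.u l)) := by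
    intro ξ η hξ hη x y
    refine Finset.sum_congr rfl fun i _ => ?_
    rw [← hd.adj, ← hd.T_del hP hξ, a.del_eq (P.σ y η (a.u i)), map_sum, map_sum]
    refine Finset.sum_congr rfl fun l _ => ?_
    rw [map_smul, map_smul, hd.T_del hP hξ, ← hd.adj, ← hd.adj]
    rfl
  have hN2 : ∑ i, P.ω (δ (a.ξ i)) (P.σ y G (P.σ x F (a.u i))) = N := by
    rw [hN, key hf hg, key hg hf, Finset.sum_comm]
    refine Finset.sum_congr rfl fun i _ => Finset.sum_congr rfl fun l _ => ?_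
    ring
  -- the trace over `C`
  have t1 : LinearMap.trace k C (P.T x F ∘ₗ P.T y G) =
      LinearMap.trace k s.C' (s.dat.T x f ∘ₗ s.dat.T y g) + N := by
    rw [trace_coord a.E, trace_coord e', Fintype.sum_sum_type, add_comm]
    congr 1
    · refine Finset.sum_congr rfl fun j _ => ?_
      rw [LinearMap.comp_apply, LinearMap.comp_apply, s.dat_T, s.dat_T, a.coord_inr, a.inr,
        LinearMap.dualMap_apply, s.π_T_π hP hd hf]
    · refine Finset.sum_congr rfl fun i _ => ?_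
      rw [LinearMap.comp_apply, ← a.del_u, hd.T_del hP hg, hd.T_del hP hf, ← hd.adj]
      rfl
  -- the trace over `B`
  have t2 : LinearMap.trace k B (P.σ x F ∘ₗ P.σ y G) =
      LinearMap.trace k s.B' (s.dat.σ x f ∘ₗ s.dat.σ y g) + 2 * N := by
    rw [s.tr_B hP hd a (P.σ x F ∘ₗ P.σ y G)]
    · congr 1
      · congr 1
        ext1 u
        rw [LinearMap.comp_apply, LinearMap.comp_apply, LinearMap.comp_apply,
          LinearMap.comp_apply, s.dat_σ, s.dat_σ, Submodule.subtype_apply]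
        exact (s.ρ_sigma hP hd hf (hd.del_sigma hP hg (s.B'_le u))).symm
      · rw [Finset.sum_add_distrib, two_mul]
        congr 1
        rw [← hN2]
        refine Finset.sum_congr rfl fun i _ => ?_
        rw [LinearMap.comp_apply, hP.sp', hP.sp', neg_neg]
    · intro η
      refine ⟨(η ∘ₗ P.T y G) ∘ₗ P.T x F, ?_⟩
      rw [LinearMap.comp_apply, hd.sigma_delta hP hg, map_neg, hd.sigma_delta hP hf, neg_neg]
  rw [t1, t2] at h
  rw [s.dat_T]
  have h2 : G (P.T x F y) = g (s.π (P.T x F y)) := rfl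
  rw [← h2, ← h]
  have h3 : (2 : k)⁻¹ * (2 * N) = N := by
    rw [← mul_assoc, inv_mul_cancel₀ two_ne_zero, one_mul]
  rw [mul_add, h3]
  ring

lemma finrank_range : finrank k (LinearMap.range δ) = finrank k (LinearMap.range del) := by
  have h1 : P.ω ∘ₗ δ = del.dualMap := by
    ext ξ u
    rw [LinearMap.comp_apply, ← hd.adj]
    rfl
  rw [← LinearMap.finrank_range_dualMap_eq_finrank_range del, ← h1, LinearMap.range_comp]
  have hinj : Function.Injective P.ω := by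
    rw [injective_iff_map_eq_zero]
    intro u hu
    exact hP.nondeg u fun w => by rw [hu, LinearMap.zero_apply]
  exact (Submodule.equivMapOfInjective P.ω hinj _).finrank_eq

lemma dat_dim : finrank k s.B' = 56 + 2 * finrank k s.C' := by
  have h1 := LinearMap.finrank_range_add_finrank_ker del
  have h2 := Submodule.finrank_add_eq_of_isCompl s.compl
  have h3 := finrank_range hP hd
  have h4 : finrank k s.B' + finrank k (LinearMap.range δ) = finrank k (LinearMap.ker del) := by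
    set f : LinearMap.ker del →ₗ[k] s.B' := s.ρ ∘ₗ (LinearMap.ker del).subtype with hf
    have h5 := LinearMap.finrank_range_add_finrank_ker f
    have h6 : LinearMap.range f = ⊤ := by
      rw [LinearMap.range_eq_top]
      intro w
      exact ⟨⟨w, LinearMap.mem_ker.2 (s.B'_le w)⟩, s.ρ_id w⟩
    have h7 : (LinearMap.ker f).map (LinearMap.ker del).subtype = LinearMap.range δ := by
      ext u
      constructor
      · rintro ⟨⟨v, hv⟩, hv2, rfl⟩
        obtain ⟨ξ, hξ⟩ := s.ρ_ker v (LinearMap.mem_ker.1 hv) hv2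
        exact ⟨ξ, hξ⟩
      · rintro ⟨ξ, rfl⟩
        exact ⟨⟨δ ξ, LinearMap.mem_ker.2 (hd.sq ξ)⟩, s.ρ_δ hd ξ, rfl⟩
    rw [h6, finrank_top] at h5
    rw [← h7, Submodule.finrank_map_subtype_eq]
    exact h5
  have h5 := hP.dim
  omega

theorem isPkg : s.dat.IsPkg where
  alt u := hP.alt _
  nondeg u h := s.nd u h
  sp x f u w := by
    rw [s.dat_ω, s.dat_ω, s.dat_σ, s.dat_σ, s.ρ_ω, hP.anti u, s.ρ_ω, ← hP.anti]
    exact hP.sp _ _ _ _
  S_alt x := by
    ext f
    rw [s.dat_S, hP.S_alt]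
    simp
  S_skew x y f g := by
    rw [s.dat_S, s.dat_S]
    exact hP.S_skew x y (s.π.dualMap f) (s.π.dualMap g)
  dim := s.dat_dim hP hd
  d1 ι _ e' x f := s.dat_d1 hP hd ι e' x f
  d2 ι _ e' x y := s.dat_d2 hP hd ι e' x y
  d0 x y f g := s.dat_d0 hP hd x y f g

variable {ε : C} (hε : P.IsEps ε)
include hε

lemma dat_e2 (x y : s.C') : ∃ z, s.dat.S x y = s.dat.S (s.π ε) z := by
  obtain ⟨z, hz⟩ := hε.e2 x y
  refine ⟨s.π z, ?_⟩
  ext1 f
  rw [s.dat_S, s.dat_S, hz, s.π_S_π hP hd (s.δ_dualMap hP hd f),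
    s.π_S_π' hP hd (s.δ_dualMap hP hd f)]

lemma S_range (x : C) (u : B) : ∃ v, P.S x (del u) = P.S ε (del v) := by
  obtain ⟨a, ha⟩ := hε.e3 x u
  exact ⟨a, hd.S_del hP ha⟩

lemma dat_e1 (z : s.C') (h : s.dat.S (s.π ε) z = 0) : ∃ c : k, z = c • s.π ε := by
  set e' := Module.finBasis k s.C' with he'
  obtain ⟨a⟩ := s.exists_adp e'
  let _ := a.fin
  -- `M = S ε z` maps cycles to boundaries
  have h1 : ∀ f : Dual k s.C', ∃ t, P.S ε z (s.π.dualMap f) = del t := by
    intro f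
    have h2 := LinearMap.congr_fun h f
    rw [s.dat_S, s.π_S_π hP hd (s.δ_dualMap hP hd f), LinearMap.zero_apply] at h2
    obtain ⟨t, ht⟩ := s.π_ker _ h2
    exact ⟨t, ht.symm⟩
  have h2 : ∀ i : a.κ ⊕ Fin (finrank k s.C'), ∃ v,
      P.S (P.S ε z (a.E.coord i)) (a.E i) = P.S ε (del v) := by
    rintro (i | j)
    · rw [← a.del_u]
      exact S_range hP hd hε _ _
    · rw [a.coord_inr]
      obtain ⟨t, ht⟩ := h1 (e'.coord j)
      rw [ht, hP.S_anti]
      obtain ⟨v, hv⟩ := S_range hP hd hε (a.E (Sum.inr j)) t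
      exact ⟨-v, by rw [hv, map_neg, map_neg]⟩
  choose v hv using h2
  have h3 := hP.d2 _ a.E ε z
  simp only [hv] at h3
  rw [← map_sum, ← map_sum] at h3
  have h4 : P.S ε ((24 : k) • (z : C) - del (∑ i, v i)) = 0 := by
    rw [map_sub, h3, map_smul, sub_self]
  obtain ⟨c, hc⟩ := hε.e1 _ h4
  have h5 := congrArg s.π hc
  rw [map_sub, map_smul, s.π_del, s.π_id, sub_zero, map_smul] at h5
  refine ⟨24⁻¹ * c, ?_⟩
  rw [mul_smul, ← h5, smul_smul, inv_mul_cancel₀ (by norm_num), one_smul]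

end pkg

end Spl

/-- CF3: the homology package. -/
theorem inj_of_ne {P : Dat k C B} (hP : P.IsPkg) {ε : C} (hε : P.IsEps ε)
    {δ : Dual k C →ₗ[k] B} {del : B →ₗ[k] C} (hd : P.IsDer δ del) (hne : δ ≠ 0) :
    Function.Injective δ := by
  by_cases hmem : ε ∈ LinearMap.range del
  · exact inj_of_mem hP hε hd hmem
  obtain ⟨s⟩ := exists_spl hP hd
  exfalso
  have hP' := s.isPkg hP hd
  have hne' : s.π ε ≠ 0 := fun h => hmem (s.π_ker ε h)
  have h12 : finrank k s.C' = 12 :=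
    (two_or_twelve hP' hne' (s.dat_e1 hP hd hε) (s.dat_e2 hP hd hε)).resolve_left (ne_two hP')
  have h12' : finrank k C = 12 :=
    (two_or_twelve hP hε.ne hε.e1 hε.e2).resolve_left (ne_two hP)
  have h1 := Submodule.finrank_add_eq_of_isCompl s.compl
  have h2 : finrank k (LinearMap.range del) = 0 := by omega
  have h3 : LinearMap.range del = ⊥ := Submodule.finrank_eq_zero.1 h2
  apply hne
  ext1 ξ
  rw [LinearMap.zero_apply, hd.ker_iff hP]
  intro u
  have h4 : del u ∈ LinearMap.range del := ⟨u, rfl⟩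
  rw [h3, Submodule.mem_bot] at h4
  rw [h4, map_zero]

end LicciCF
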