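import Pool.Agent.Work.MP_a98e4e_ag.CF.CF1
import Pool.Agent.Work.MP_a98e4e_ag.CF.Four.E

/-! # CF4: existence of the Clifford structure -/

set_option autoImplicit false

open Module

namespace LicciCF

variable {k C B : Type*} [Field k] [CharZero k] [AddCommGroup C] [Module k C] [AddCommGroup B]
  [Module k B] [FiniteDimensional k C] [FiniteDimensional k B]

/-- CF4: existence of the algebra `W`. -/
theorem exists_clifford {P : Dat k C B} (hP : P.IsPkg) {ε : C} (hε : P.IsEps ε)
    (h12 : finrank k C = 12) {δ : Dual k C →ₗ[k] B} {del : B →ₗ[k] C} (hd : P.IsDer δ del)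
    (hinj : Function.Injective δ) :
    ∃ (W : Submodule k C) (K : W →ₗ[k] W →ₗ[k] k) (Tw : W →ₗ[k] (C →ₗ[k] C)),
      finrank k W = 11 ∧ (∀ w, (∀ w', K w w' = 0) → w = 0) ∧
      (∀ w w', K w w' = K w' w) ∧ ∀ w, Tw w ∘ₗ Tw w = K w w • LinearMap.id := by
  let e := Module.finBasis k C
  exact Dat.exists_clifford_of hP hε e (by rw [Fintype.card_fin, h12])
    (tau_zero hP (Fin (finrank k C)) e) (sum_T hP (Fin (finrank k C)) e) hd hinj

end LicciCF
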