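import Mathlib

/-!
# CF4b: the algebra `W` and its Clifford structure (pure linear algebra)

`W` is an algebra with anticommutative product `ad w z`; `a w`, `ap w`, `bf f`, `bz` are the
operators on `B` of the case of ranks `12 | 80 | 12`, restricted to the span of `v` and of the
vectors `β f = bf f v`.
-/

set_option autoImplicit false

open Module

namespace LicciCF

namespace Core

variable {k W B : Type*} [Field k] [AddCommGroup W] [Module k W]
  [AddCommGroup B] [Module k B]

/-- The data. -/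
structure Data (k W B : Type*) [Field k] [AddCommGroup W] [Module k W]
    [AddCommGroup B] [Module k B] where
  v : B
  bz : B →ₗ[k] B
  bf : Dual k W →ₗ[k] (B →ₗ[k] B)
  a : W →ₗ[k] (B →ₗ[k] B)
  ap : W →ₗ[k] (B →ₗ[k] B)
  ad : W →ₗ[k] (W →ₗ[k] W)
  J : W →ₗ[k] W

/-- `β f = b_f v`. -/
def Data.beta (D : Data k W B) : Dual k W →ₗ[k] B := D.bf.flip D.v

theorem Data.beta_apply (D : Data k W B) (f : Dual k W) : D.beta f = D.bf f D.v := rfl

/-- The relations. -/
structure Rel (D : Data k W B) : Prop where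
  bv : D.bz D.v = D.v
  r1f : ∀ w f u, D.ap w (D.bf f u) + D.bf f (D.a w u) = (2 * f w) • u
  r1z : ∀ w u, D.bz (D.a w u) = D.ap w ((2 : k) • u - D.bz u)
  r3 : ∀ (w : W) (f : Dual k W), D.ap w (D.beta f) = f w • D.v - D.beta (f ∘ₗ D.ad w)
  rz : ∀ f : Dual k W, D.bz (D.beta f) = D.beta f + D.beta (f ∘ₗ D.J)
  anti : ∀ w z, D.ad w z = - D.ad z w
  ind : ∀ (c : k) (f : Dual k W), c • D.v + D.beta f = 0 → c = 0 ∧ f = 0
  tr : ∀ w, LinearMap.trace k W (D.ad w) = 0

/-- The Killing form. -/
noncomputable def Data.K (D : Data k W B) : W →ₗ[k] Dual k W :=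
  LinearMap.mk₂ k (fun w z => LinearMap.trace k W (D.ad w ∘ₗ D.ad z))
    (fun w w' z => by rw [map_add, LinearMap.add_comp, map_add])
    (fun c w z => by rw [map_smul, LinearMap.smul_comp, map_smul])
    (fun w z z' => by rw [map_add, LinearMap.comp_add, map_add])
    (fun c w z => by rw [map_smul, LinearMap.comp_smul, map_smul])

theorem Data.K_apply (D : Data k W B) (w z : W) :
    D.K w z = LinearMap.trace k W (D.ad w ∘ₗ D.ad z) := rfl

theorem Data.K_symm [FiniteDimensional k W] (D : Data k W B) (w z : W) : D.K w z = D.K z w :=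
  LinearMap.trace_comp_comm' _ _

variable {D : Data k W B}

/-- (3a) -/
theorem Rel.bf_a_v (h : Rel D) (f : Dual k W) (w : W) :
    D.bf f (D.a w D.v) = f w • D.v + D.beta (f ∘ₗ D.ad w) := by
  have h1 := h.r1f w f D.v
  rw [← D.beta_apply, h.r3] at h1
  have h2 : D.bf f (D.a w D.v) = (2 * f w) • D.v - (f w • D.v - D.beta (f ∘ₗ D.ad w)) := by
    rw [← h1]
    abel
  rw [h2, two_mul, add_smul]
  abel

/-- `a'_w v = b_ζ a_w v`. -/
theorem Rel.ap_v (h : Rel D) (w : W) : D.ap w D.v = D.bz (D.a w D.v) := by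
  rw [h.r1z, h.bv]
  congr 1
  rw [two_smul]
  abel

/-- Sum over a basis of `W`. -/
theorem sum_dual {ι : Type*} [Fintype ι] (g : Basis ι k W) (f : Dual k W) :
    ∑ i, f (g i) • g.coord i = f := by
  classical
  apply g.ext
  intro j
  rw [LinearMap.sum_apply]
  simp only [LinearMap.smul_apply, smul_eq_mul, Basis.coord_apply, Basis.repr_self]
  rw [Finset.sum_eq_single j]
  · simp
  · intro i _ hi
    rw [Finsupp.single_apply, if_neg (Ne.symm hi), mul_zero]
  · intro hj
    exact absurd (Finset.mem_univ j) hj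

theorem trace_sum {ι : Type*} [Fintype ι] (g : Basis ι k W) (F : W →ₗ[k] W) :
    LinearMap.trace k W F = ∑ i, g.coord i (F (g i)) := by
  classical
  rw [LinearMap.trace_eq_matrix_trace k g, Matrix.trace]
  refine Finset.sum_congr rfl fun i _ => ?_
  rw [Matrix.diag_apply, LinearMap.toMatrix_apply]
  rfl

/-- (4) -/
theorem Rel.ten_a_v [CharZero k] (h : Rel D) {ι : Type*} [Fintype ι] (g : Basis ι k W)
    (hc : Fintype.card ι = 11)
    (h2 : ∀ u, D.bz u + ∑ i, D.bf (g.coord i) (D.a (g i) u) = (12 : k) • u) (w : W) :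
    (10 : k) • D.a w D.v = D.beta (D.K w) := by
  have h3 := h2 (D.a w D.v)
  have h4 : ∀ i, D.bf (g.coord i) (D.a (g i) (D.a w D.v)) =
      (2 : k) • D.a w D.v - g.coord i w • D.ap (g i) D.v -
        ((g.coord i (D.ad w (g i))) • D.v - D.beta ((g.coord i ∘ₗ D.ad w) ∘ₗ D.ad (g i))) := by
    intro i
    have h5 := h.r1f (g i) (g.coord i) (D.a w D.v)
    have h6 : g.coord i (g i) = 1 := by simp
    rw [h6, mul_one, h.bf_a_v, map_add, map_smul, h.r3] at h5
    rw [← h5]
    simp only [LinearMap.comp_apply]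
    abel
  simp only [h4] at h3
  rw [Finset.sum_sub_distrib, Finset.sum_sub_distrib, Finset.sum_sub_distrib] at h3
  rw [Finset.sum_const, Finset.card_univ, hc] at h3
  have h7 : ∑ i, g.coord i (D.ad w (g i)) • D.v = 0 := by
    rw [← Finset.sum_smul, ← trace_sum, h.tr, zero_smul]
  have h8 : ∑ i, D.beta ((g.coord i ∘ₗ D.ad w) ∘ₗ D.ad (g i)) = - D.beta (D.K w) := by
    rw [← map_sum, ← map_neg]
    congr 1
    ext z
    rw [LinearMap.sum_apply, LinearMap.neg_apply, D.K_apply, trace_sum g, ← Finset.sum_neg_distrib]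
    refine Finset.sum_congr rfl fun i _ => ?_
    simp only [LinearMap.comp_apply]
    rw [h.anti (g i) z, map_neg, map_neg]
  have h9 : ∑ i, g.coord i w • D.ap (g i) D.v = D.ap w D.v := by
    conv_rhs => rw [← g.sum_repr w]
    rw [map_sum, LinearMap.sum_apply]
    refine Finset.sum_congr rfl fun i _ => ?_
    rw [map_smul, LinearMap.smul_apply]
    rfl
  rw [h7, h8, h9, h.ap_v] at h3
  have h10 : D.bz (D.a w D.v) + (11 • (2 : k) • D.a w D.v - D.bz (D.a w D.v) -
      (0 - -D.beta (D.K w))) = (22 : k) • D.a w D.v - D.beta (D.K w) := by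
    have h11 : (11 : ℕ) • (2 : k) • D.a w D.v = (22 : k) • D.a w D.v := by
      rw [← Nat.cast_smul_eq_nsmul k, smul_smul]
      norm_num
    rw [h11]
    abel
  rw [h10] at h3
  have h12 : (22 : k) • D.a w D.v = (10 : k) • D.a w D.v + (12 : k) • D.a w D.v := by
    rw [← add_smul]
    norm_num
  rw [h12] at h3
  have h13 := sub_eq_iff_eq_add.1 h3
  rw [add_comm ((12 : k) • D.a w D.v)] at h13
  exact add_right_cancel h13

/-- (5) -/
theorem Rel.bf_beta (h : Rel D) (h4 : ∀ w, (10 : k) • D.a w D.v = D.beta (D.K w)) (f : Dual k W)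
    (w : W) : D.bf f (D.beta (D.K w)) = (10 * f w) • D.v + (10 : k) • D.beta (f ∘ₗ D.ad w) := by
  rw [← h4, map_smul, h.bf_a_v, smul_add, smul_smul]

/-- The Killing form is nondegenerate. -/
theorem Rel.K_inj [CharZero k] (h : Rel D) (h4 : ∀ w, (10 : k) • D.a w D.v = D.beta (D.K w))
    (w : W) (hw : D.K w = 0) : w = 0 := by
  have h10 : (10 : k) ≠ 0 := by norm_num
  refine (Module.forall_dual_apply_eq_zero_iff k w).1 fun f => ?_
  have h5 := h.bf_beta h4 f w
  rw [hw, map_zero, map_zero, ← map_smul] at h5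
  have h6 := (h.ind _ _ h5.symm).1
  exact (mul_eq_zero.1 h6).resolve_left h10

/-- The comparison of coefficients. -/
theorem Rel.ext (h : Rel D) {c c' : k} {f f' : Dual k W}
    (he : c • D.v + D.beta f = c' • D.v + D.beta f') : c = c' ∧ f = f' := by
  have h1 : (c - c') • D.v + D.beta (f - f') = 0 := by
    rw [sub_smul, map_sub]
    have : c • D.v - c' • D.v + (D.beta f - D.beta f') =
        (c • D.v + D.beta f) - (c' • D.v + D.beta f') := by abel
    rw [this, he, sub_self]
  have h2 := h.ind _ _ h1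
  exact ⟨sub_eq_zero.1 h2.1, sub_eq_zero.1 h2.2⟩

theorem Rel.ten_ap_v (h : Rel D) (h4 : ∀ w, (10 : k) • D.a w D.v = D.beta (D.K w)) (w : W) :
    (10 : k) • D.ap w D.v = D.beta (D.K w + D.K w ∘ₗ D.J) := by
  rw [h.ap_v, ← map_smul, h4, h.rz, map_add]

/-- Step 7: the action of `a w` on `β (K u)`. -/
theorem Rel.step7 [CharZero k] [FiniteDimensional k W] (h : Rel D)
    (h4 : ∀ w, (10 : k) • D.a w D.v = D.beta (D.K w))
    (hst : ∀ (w : W) (f : Dual k W), ∃ (c : k) (g : Dual k W),
      D.a w (D.beta f) = c • D.v + D.beta g) (w u z : W) :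
    (D.K u w - D.K u (D.J w)) • z + (10 : k) • D.ad (D.ad w u) z =
      (2 * D.K u z) • w - (D.K w z + D.K w (D.J z)) • u + (10 : k) • D.ad u (D.ad w z) := by
  have h10 : (10 : k) ≠ 0 := by norm_num
  obtain ⟨c, g, hg⟩ := hst w (D.K u)
  -- the element `x` with `K x = g`
  have hKi : Function.Injective D.K := by
    rw [← LinearMap.ker_eq_bot, LinearMap.ker_eq_bot']
    exact fun x hx => h.K_inj h4 x hx
  have hKs : Function.Surjective D.K := by
    have hf : finrank k W = finrank k (Dual k W) := (Subspace.dual_finrank_eq).symm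
    exact (LinearMap.injective_iff_surjective_of_finrank_eq_finrank hf).1 hKi
  obtain ⟨x, hx⟩ := hKs g
  -- apply `b_ζ`
  have hc : c = D.K u w - D.K u (D.J w) := by
    have h5 := congrArg D.bz hg
    rw [h.r1z, map_add, map_smul, h.bv, h.rz, h.rz] at h5
    have h6 : (2 : k) • D.beta (D.K u) - (D.beta (D.K u) + D.beta (D.K u ∘ₗ D.J)) =
        D.beta (D.K u - D.K u ∘ₗ D.J) := by
      rw [map_sub, two_smul]
      abel
    rw [h6, h.r3] at h5
    have h7 : (D.K u - D.K u ∘ₗ D.J) w • D.v + D.beta (-((D.K u - D.K u ∘ₗ D.J) ∘ₗ D.ad w)) =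
        c • D.v + D.beta (g + g ∘ₗ D.J) := by
      rw [map_neg, map_add, ← h5]
      abel
    exact (h.ext h7).1.symm
  -- apply `b_f`
  have hf : ∀ f : Dual k W, 10 * f x = -(10 * f (D.ad u w)) ∧
      c • f + (10 : k) • (f ∘ₗ D.ad x) = (2 * f w) • D.K u - f u • (D.K w + D.K w ∘ₗ D.J) +
        (10 : k) • ((f ∘ₗ D.ad u) ∘ₗ D.ad w) := by
    intro f
    have h5 := congrArg (D.bf f) hg
    rw [← hx, map_add, map_smul, ← D.beta_apply, h.bf_beta h4] at h5
    have h6 := h.r1f w f (D.beta (D.K u))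
    rw [h.bf_beta h4, map_add, map_smul, map_smul, h.r3, h5] at h6
    have h7 : (10 * f u) • D.ap w D.v = D.beta (f u • (D.K w + D.K w ∘ₗ D.J)) := by
      rw [mul_comm, ← smul_smul, h.ten_ap_v h4, map_smul]
    rw [h7] at h6
    have h8 : (10 * f x) • D.v + D.beta (c • f + (10 : k) • (f ∘ₗ D.ad x)) =
        (-(10 * f (D.ad u w))) • D.v + D.beta ((2 * f w) • D.K u -
          f u • (D.K w + D.K w ∘ₗ D.J) + (10 : k) • ((f ∘ₗ D.ad u) ∘ₗ D.ad w)) := by
      rw [map_add, map_add, map_sub, map_smul, map_smul, map_smul, map_smul, neg_smul]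
      have h9 : (10 * f x) • D.v + (c • D.beta f + (10 : k) • D.beta (f ∘ₗ D.ad x)) =
          (2 * f w) • D.beta (D.K u) - (D.beta (f u • (D.K w + D.K w ∘ₗ D.J)) +
            (10 : k) • ((f ∘ₗ D.ad u) w • D.v - D.beta ((f ∘ₗ D.ad u) ∘ₗ D.ad w))) := by
        rw [← h6]
        abel
      rw [h9, smul_sub, smul_smul, LinearMap.comp_apply]
      simp only [map_smul]
      abel
    exact h.ext h8
  have hxe : x = D.ad w u := by
    have h5 : x - D.ad w u = 0 := by
      refine (Module.forall_dual_apply_eq_zero_iff k _).1 fun f => ?_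
      have h6 := (hf f).1
      rw [h.anti u w, map_neg, mul_neg, neg_neg] at h6
      rw [map_sub, mul_left_cancel₀ h10 h6, sub_self]
    exact sub_eq_zero.1 h5
  rw [← hc, ← hxe]
  have h5 : (c • z + (10 : k) • D.ad x z) -
      ((2 * D.K u z) • w - (D.K w z + D.K w (D.J z)) • u + (10 : k) • D.ad u (D.ad w z)) = 0 := by
    refine (Module.forall_dual_apply_eq_zero_iff k _).1 fun f => ?_
    have h6 := congrArg (fun F : Dual k W => F z) (hf f).2
    simp only [LinearMap.add_apply, LinearMap.sub_apply, LinearMap.smul_apply, smul_eq_mul,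
      LinearMap.comp_apply] at h6
    simp only [map_sub, map_add, map_smul, smul_eq_mul]
    linear_combination h6
  exact sub_eq_zero.1 h5

/-- (7) and the vanishing of `K w (J w)`. -/
theorem Rel.step7a [CharZero k] [FiniteDimensional k W] (h : Rel D) (h11 : finrank k W = 11)
    (h4 : ∀ w, (10 : k) • D.a w D.v = D.beta (D.K w))
    (hst : ∀ (w : W) (f : Dual k W), ∃ (c : k) (g : Dual k W),
      D.a w (D.beta f) = c • D.v + D.beta g) (w : W) :
    D.K w (D.J w) = 0 ∧ ∀ u, (10 : k) • D.ad w (D.ad w u) =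
      D.K w w • u - (D.K w u + D.K (D.J w) u) • w := by
  have h10 : (10 : k) ≠ 0 := by norm_num
  have hww : D.ad w w = 0 := by
    have h1 := h.anti w w
    have h2 : (2 : k) • D.ad w w = 0 := by
      rw [two_smul]
      nth_rewrite 1 [h1]
      exact neg_add_cancel _
    exact (smul_eq_zero.1 h2).resolve_left two_ne_zero
  have h7 : ∀ u, (10 : k) • D.ad w (D.ad w u) =
      (D.K w w + D.K w (D.J w)) • u - (D.K w u + D.K (D.J w) u) • w := by
    intro u
    have h1 := h.step7 h4 hst w u w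
    rw [hww, map_zero, smul_zero, add_zero, h.anti (D.ad w u) w, smul_neg] at h1
    have h2 : (10 : k) • D.ad w (D.ad w u) = (D.K u w - D.K u (D.J w)) • w -
        ((2 * D.K u w) • w - (D.K w w + D.K w (D.J w)) • u) := by
      rw [← h1]
      abel
    rw [h2, D.K_symm w u, D.K_symm (D.J w) u, sub_smul, add_smul, two_mul, add_smul, add_smul]
    abel
  -- the trace over `u`
  have htr : (10 : k) * D.K w w = 11 * (D.K w w + D.K w (D.J w)) -
      (D.K w w + D.K (D.J w) w) := by
    have h1 : (10 : k) • (D.ad w ∘ₗ D.ad w) = (D.K w w + D.K w (D.J w)) • LinearMap.id -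
        (D.K w + D.K (D.J w)).smulRight w := by
      ext u
      simp only [LinearMap.smul_apply, LinearMap.comp_apply, LinearMap.sub_apply,
        LinearMap.id_apply, LinearMap.smulRight_apply, LinearMap.add_apply]
      exact h7 u
    have h2 := congrArg (LinearMap.trace k W) h1
    rw [map_smul, ← D.K_apply, map_sub, map_smul, LinearMap.trace_id, h11,
      LinearMap.trace_smulRight, smul_eq_mul, smul_eq_mul, LinearMap.add_apply] at h2
    rw [h2]
    push_cast
    ring
  have h0 : D.K w (D.J w) = 0 := by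
    rw [D.K_symm (D.J w) w] at htr
    have h1 : (10 : k) * D.K w (D.J w) = 0 := by linear_combination -htr
    exact (mul_eq_zero.1 h1).resolve_left h10
  refine ⟨h0, fun u => ?_⟩
  rw [h7 u, h0, add_zero]

/-- (8) -/
theorem Rel.step8 [CharZero k] [FiniteDimensional k W] (h : Rel D) (h11 : finrank k W = 11)
    (h4 : ∀ w, (10 : k) • D.a w D.v = D.beta (D.K w))
    (hst : ∀ (w : W) (f : Dual k W), ∃ (c : k) (g : Dual k W),
      D.a w (D.beta f) = c • D.v + D.beta g) (w u : W) :
    D.K w (D.ad w u) + D.K (D.J w) (D.ad w u) = 0 := by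
  obtain ⟨_, h7⟩ := h.step7a h11 h4 hst w
  have hww : D.ad w w = 0 := by
    have h1 := h.anti w w
    have h2 : (2 : k) • D.ad w w = 0 := by
      rw [two_smul]
      nth_rewrite 1 [h1]
      exact neg_add_cancel _
    exact (smul_eq_zero.1 h2).resolve_left two_ne_zero
  by_cases hw : w = 0
  · rw [hw]
    simp
  · have h1 := congrArg (D.ad w) (h7 u)
    rw [map_smul, map_sub, map_smul, map_smul, hww, smul_zero, sub_zero, h7 (D.ad w u)] at h1
    have h2 : (D.K w (D.ad w u) + D.K (D.J w) (D.ad w u)) • w = 0 := by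
      have h3 := sub_eq_self.1 h1
      exact h3
    exact (smul_eq_zero.1 h2).resolve_right hw

/-- The Clifford operators on `k × W`. -/
noncomputable def Data.T (D : Data k W B) : W →ₗ[k] ((k × W) →ₗ[k] (k × W)) :=
  LinearMap.mk₂ k (fun w p =>
      ((10 : k)⁻¹ * (D.K w p.2 + D.K (D.J w) p.2), p.1 • w + D.ad w p.2))
    (fun w w' p => by
      refine Prod.ext ?_ ?_
      · simp only [map_add, LinearMap.add_apply, Prod.fst_add]
        ring
      · simp only [map_add, LinearMap.add_apply, Prod.snd_add, smul_add]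
        abel)
    (fun c w p => by
      refine Prod.ext ?_ ?_
      · simp only [map_smul, LinearMap.smul_apply, Prod.smul_fst, smul_eq_mul]
        ring
      · simp only [map_smul, LinearMap.smul_apply, Prod.smul_snd, smul_add,
          smul_comm p.1 c w])
    (fun w p p' => by
      refine Prod.ext ?_ ?_
      · simp only [map_add, Prod.snd_add, Prod.fst_add]
        ring
      · simp only [map_add, Prod.snd_add, Prod.fst_add, add_smul]
        abel)
    (fun c w p => by
      refine Prod.ext ?_ ?_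
      · simp only [map_smul, Prod.smul_snd, Prod.smul_fst, smul_eq_mul]
        ring
      · simp only [map_smul, Prod.smul_snd, Prod.smul_fst, smul_eq_mul, smul_add, smul_smul])

theorem Data.T_apply (D : Data k W B) (w : W) (s : k) (z : W) :
    D.T w (s, z) = ((10 : k)⁻¹ * (D.K w z + D.K (D.J w) z), s • w + D.ad w z) := rfl

/-- `T_w ^ 2 = K (w, w) / 10`. -/
theorem Rel.T_sq [CharZero k] [FiniteDimensional k W] (h : Rel D) (h11 : finrank k W = 11)
    (h4 : ∀ w, (10 : k) • D.a w D.v = D.beta (D.K w))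
    (hst : ∀ (w : W) (f : Dual k W), ∃ (c : k) (g : Dual k W),
      D.a w (D.beta f) = c • D.v + D.beta g) (w : W) :
    D.T w ∘ₗ D.T w = ((10 : k)⁻¹ * D.K w w) • LinearMap.id := by
  have h10 : (10 : k) ≠ 0 := by norm_num
  obtain ⟨h0, h7⟩ := h.step7a h11 h4 hst w
  have h8 := h.step8 h11 h4 hst w
  have hww : D.ad w w = 0 := by
    have h1 := h.anti w w
    have h2 : (2 : k) • D.ad w w = 0 := by
      rw [two_smul]
      nth_rewrite 1 [h1]
      exact neg_add_cancel _
    exact (smul_eq_zero.1 h2).resolve_left two_ne_zero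
  apply LinearMap.ext
  rintro ⟨s, z⟩
  rw [LinearMap.comp_apply, D.T_apply, D.T_apply, LinearMap.smul_apply, LinearMap.id_apply]
  ext
  · simp only [map_add, map_smul, smul_eq_mul, Prod.smul_fst]
    have h9 := h8 z
    have h12 : D.K (D.J w) w = 0 := by rw [D.K_symm, h0]
    rw [h12]
    linear_combination (10 : k)⁻¹ * h9
  · simp only [map_add, map_smul, hww, smul_zero, zero_add, Prod.smul_snd]
    have h9 := h7 z
    have h12 : D.ad w (D.ad w z) = (10 : k)⁻¹ • (D.K w w • z - (D.K w z + D.K (D.J w) z) • w) := by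
      rw [← h9, smul_smul, inv_mul_cancel₀ h10, one_smul]
    rw [h12, smul_sub, smul_smul, smul_smul]
    abel

/-- **CF4b**: the Clifford structure. -/
theorem core [CharZero k] [FiniteDimensional k W] (h : Rel D) (h11 : finrank k W = 11)
    (h4 : ∀ w, (10 : k) • D.a w D.v = D.beta (D.K w))
    (hst : ∀ (w : W) (f : Dual k W), ∃ (c : k) (g : Dual k W),
      D.a w (D.beta f) = c • D.v + D.beta g) :
    ∃ (K : W →ₗ[k] W →ₗ[k] k) (T : W →ₗ[k] ((k × W) →ₗ[k] (k × W))),
      (∀ w, (∀ w', K w w' = 0) → w = 0) ∧ (∀ w w', K w w' = K w' w) ∧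
      ∀ w, T w ∘ₗ T w = K w w • LinearMap.id := by
  refine ⟨(10 : k)⁻¹ • D.K, D.T, fun w hw => ?_, fun w w' => ?_, fun w => ?_⟩
  · refine h.K_inj h4 w ?_
    ext z
    have h1 := hw z
    rw [LinearMap.smul_apply, LinearMap.smul_apply, smul_eq_mul] at h1
    exact (mul_eq_zero.1 h1).resolve_left (inv_ne_zero (by norm_num))
  · rw [LinearMap.smul_apply, LinearMap.smul_apply, LinearMap.smul_apply, LinearMap.smul_apply,
      D.K_symm]
  · rw [h.T_sq h11 h4 hst w]
    rfl

end Core

end LicciCF
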