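import Mathlib

/-!
# CF4c: stability of the span (rank argument)
-/

set_option autoImplicit false

open Module

namespace LicciCF

section Rank

variable {k V : Type*} [Field k] [AddCommGroup V] [Module k V] [FiniteDimensional k V]

/-- The rank of an operator with `F ^ 2 = c F`. -/
theorem rank_of_sq (F : V →ₗ[k] V) (c : k) (hc : c ≠ 0) (hF : ∀ x, F (F x) = c • F x) :
    LinearMap.trace k V F = c * (finrank k (LinearMap.range F) : k) := by
  have hP : LinearMap.IsProj (LinearMap.range F) (c⁻¹ • F) := by
    constructor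
    · intro x
      rw [LinearMap.smul_apply]
      exact Submodule.smul_mem _ _ (LinearMap.mem_range_self F x)
    · rintro x ⟨y, rfl⟩
      rw [LinearMap.smul_apply, hF, smul_smul, inv_mul_cancel₀ hc, one_smul]
  have h1 := hP.trace
  rw [map_smul, smul_eq_mul] at h1
  rw [← h1, ← mul_assoc, mul_inv_cancel₀ hc, one_mul]

theorem trace_pi {ι : Type*} [Fintype ι] [DecidableEq ι] (F : (ι → V) →ₗ[k] (ι → V)) :
    LinearMap.trace k (ι → V) F =
      ∑ i, LinearMap.trace k V (LinearMap.proj i ∘ₗ F ∘ₗ LinearMap.single k (fun _ => V) i) := by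
  have h1 : F = ∑ i, (F ∘ₗ LinearMap.single k (fun _ => V) i) ∘ₗ LinearMap.proj i := by
    apply LinearMap.ext
    intro x
    rw [LinearMap.sum_apply]
    have h2 : x = ∑ i, LinearMap.single k (fun _ => V) i (x i) := by
      ext j
      simp [Finset.sum_apply, Pi.single_apply]
    conv_lhs => rw [h2]
    rw [map_sum]
    rfl
  conv_lhs => rw [h1]
  rw [map_sum]
  refine Finset.sum_congr rfl fun i _ => ?_
  exact LinearMap.trace_comp_comm' _ _

end Rank

section Stab

variable {k C B : Type*} [Field k] [CharZero k] [AddCommGroup C] [Module k C]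
  [AddCommGroup B] [Module k B] {ι : Type*} [Fintype ι]

/-- Stability of a subspace `BB` of dimension `12`. -/
theorem stab (e : Basis ι k C)
    (R : C →ₗ[k] Dual k C →ₗ[k] (B →ₗ[k] B)) (BB : Submodule k B) [FiniteDimensional k BB]
    (hBB : finrank k BB = 12) (x0 : C)
    (hR : ∀ x ξ u, ∑ i, R (e i) ξ (R x (e.coord i) u) = (12 : k) • R x ξ u)
    (htr : ∀ u, ∑ i, R (e i) (e.coord i) u = (12 : k) • u)
    (hst : ∀ x ξ, ∀ u ∈ BB, R x ξ u ∈ BB)
    (hinj : ∀ u, (∀ ξ, R x0 ξ u = 0) → u = 0) (x : C) (u : B) (hu : u ∈ BB) :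
    ∃ w ∈ BB, ∀ ξ, R x ξ u = R x0 ξ w := by
  classical
  -- the operators on `BB`
  let r : C → Dual k C → (BB →ₗ[k] BB) := fun x ξ => (R x ξ).restrict (hst x ξ)
  have hr : ∀ x ξ (y : BB), ((r x ξ y : BB) : B) = R x ξ y := fun x ξ y => rfl
  let F : (ι → BB) →ₗ[k] (ι → BB) :=
    LinearMap.pi fun l => ∑ i, r (e i) (e.coord l) ∘ₗ LinearMap.proj i
  have hF : ∀ φ l, F φ l = ∑ i, r (e i) (e.coord l) (φ i) := by
    intro φ l
    simp [F, LinearMap.sum_apply]
  have hsq1 : ∀ (x : C) (y : BB), F (fun l => r x (e.coord l) y) =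
      (12 : k) • fun l => r x (e.coord l) y := by
    intro x y
    funext l
    apply Subtype.ext
    rw [hF, Pi.smul_apply, Submodule.coe_smul, hr, ← hR]
    simp only [Submodule.coe_sum]
    rfl
  have hsum : ∀ φ, F φ = ∑ j, fun l => r (e j) (e.coord l) (φ j) := by
    intro φ
    funext l
    rw [hF, Finset.sum_apply]
  have hsq : ∀ φ, F (F φ) = (12 : k) • F φ := by
    intro φ
    conv_lhs => rw [hsum φ]
    rw [map_sum, hsum φ, Finset.smul_sum]
    exact Finset.sum_congr rfl fun j _ => hsq1 (e j) (φ j)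
  have h12 : (12 : k) ≠ 0 := by norm_num
  have htrace : LinearMap.trace k (ι → BB) F = 144 := by
    rw [trace_pi]
    have h1 : ∀ i, LinearMap.proj i ∘ₗ F ∘ₗ LinearMap.single k (fun _ => BB) i =
        r (e i) (e.coord i) := by
      intro i
      apply LinearMap.ext
      intro y
      rw [LinearMap.comp_apply, LinearMap.comp_apply, LinearMap.proj_apply, hF]
      rw [Finset.sum_eq_single i]
      · simp
      · intro j _ hj
        simp [hj]
      · intro h
        exact absurd (Finset.mem_univ i) h
    rw [Finset.sum_congr rfl fun i _ => by rw [h1 i]]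
    rw [← map_sum]
    have h2 : ∑ i, r (e i) (e.coord i) = (12 : k) • LinearMap.id := by
      apply LinearMap.ext
      intro y
      apply Subtype.ext
      rw [LinearMap.sum_apply, LinearMap.smul_apply, LinearMap.id_apply, Submodule.coe_smul,
        ← htr]
      simp only [Submodule.coe_sum]
      rfl
    rw [h2, map_smul, LinearMap.trace_id, hBB]
    norm_num
  have hrank : finrank k (LinearMap.range F) = 12 := by
    have h1 := rank_of_sq F 12 h12 hsq
    rw [htrace] at h1
    have h2 : (finrank k (LinearMap.range F) : k) = ((12 : ℕ) : k) := by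
      push_cast
      apply mul_left_cancel₀ h12
      rw [← h1]
      norm_num
    exact Nat.cast_injective h2
  -- the image of `BB` under `R x0`
  let G : BB →ₗ[k] (ι → BB) := LinearMap.pi fun l => r x0 (e.coord l)
  have hG : ∀ y, G y = fun l => r x0 (e.coord l) y := fun y => rfl
  have hGi : Function.Injective G := by
    rw [← LinearMap.ker_eq_bot, LinearMap.ker_eq_bot']
    intro y hy
    apply Subtype.ext
    refine hinj y fun ξ => ?_
    have h1 : ξ = ∑ l, ξ (e l) • e.coord l := by
      apply e.ext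
      intro j
      rw [LinearMap.sum_apply]
      simp [Basis.coord_apply, Finsupp.single_apply]
    rw [h1, map_sum, LinearMap.sum_apply]
    refine Finset.sum_eq_zero fun l _ => ?_
    rw [map_smul, LinearMap.smul_apply]
    have h2 := congrArg (fun φ : ι → BB => ((φ l : BB) : B)) hy
    have h3 : R x0 (e.coord l) (y : B) = 0 := h2
    rw [h3, smul_zero]
  have hmem : ∀ x (y : BB), (fun l => r x (e.coord l) y) ∈ LinearMap.range F := by
    intro x y
    refine ⟨(12 : k)⁻¹ • fun l => r x (e.coord l) y, ?_⟩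
    rw [map_smul, hsq1, smul_smul, inv_mul_cancel₀ h12, one_smul]
  have hle : LinearMap.range G ≤ LinearMap.range F := by
    rintro _ ⟨y, rfl⟩
    exact hmem x0 y
  have heq : LinearMap.range G = LinearMap.range F := by
    apply Submodule.eq_of_le_of_finrank_eq hle
    rw [hrank, LinearMap.finrank_range_of_inj hGi, hBB]
  have h1 := hmem x ⟨u, hu⟩
  rw [← heq] at h1
  obtain ⟨w, hw⟩ := h1
  refine ⟨w, w.2, fun ξ => ?_⟩
  have h1 : ξ = ∑ l, ξ (e l) • e.coord l := by
    apply e.ext
    intro j
    rw [LinearMap.sum_apply]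
    simp [Basis.coord_apply, Finsupp.single_apply]
  have h2 : ∀ l, R x (e.coord l) u = R x0 (e.coord l) w := by
    intro l
    have h3 := congrArg (fun φ : ι → BB => ((φ l : BB) : B)) hw
    exact h3.symm
  rw [h1, map_sum, map_sum, LinearMap.sum_apply, LinearMap.sum_apply]
  refine Finset.sum_congr rfl fun l _ => ?_
  rw [map_smul, map_smul, LinearMap.smul_apply, LinearMap.smul_apply, h2]

end Stab

end LicciCF
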