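import Pool.Agent.Work.MP_a98e4e_ag.CF.Defs
import Pool.Agent.Work.MP_a98e4e_ag.Six.Clifford

/-!
# CF5: no module of dimension 12 over the Clifford algebra of an 11-dimensional nondegenerate form
-/

set_option autoImplicit false

open Module

namespace LicciCF

variable {k C : Type*} [Field k] [CharZero k] [AddCommGroup C] [Module k C] [FiniteDimensional k C]

/-- CF5 -/
theorem no_clifford (h12 : finrank k C = 12) (W : Type*) [AddCommGroup W] [Module k W]
    [FiniteDimensional k W] (hW : finrank k W = 11) (K : W →ₗ[k] W →ₗ[k] k)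
    (Tw : W →ₗ[k] (C →ₗ[k] C)) (hnd : ∀ w, (∀ w', K w w' = 0) → w = 0)
    (hsymm : ∀ w w', K w w' = K w' w)
    (hT : ∀ w, Tw w ∘ₗ Tw w = K w w • LinearMap.id) : False := by
  classical
  have hpol : ∀ w w', Tw w ∘ₗ Tw w' + Tw w' ∘ₗ Tw w = (2 * K w w') • LinearMap.id := by
    intro w w'
    have h := hT (w + w')
    have h1 := hT w
    have h2 := hT w'
    ext v
    have e := congrArg (fun f : C →ₗ[k] C => f v) h
    have e1 := congrArg (fun f : C →ₗ[k] C => f v) h1
    have e2 := congrArg (fun f : C →ₗ[k] C => f v) h2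
    simp only [LinearMap.comp_apply, map_add, LinearMap.add_apply, LinearMap.smul_apply,
      LinearMap.id_apply] at e e1 e2 ⊢
    rw [e1, e2, hsymm w' w] at e
    have e3 : (K w w + K w w' + (K w w' + K w' w')) • v = K w w • v + (2 * K w w') • v + K w' w' • v := by
      module
    rw [e3] at e
    have e4 : K w w • v + (Tw w') ((Tw w) v) + ((Tw w) ((Tw w') v) + K w' w' • v) =
      K w w • v + ((Tw w) ((Tw w') v) + (Tw w') ((Tw w) v)) + K w' w' • v := by abel
    rw [e4] at e
    exact add_left_cancel (add_right_cancel e)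
  have : Invertible (2 : k) := invertibleOfNonzero two_ne_zero
  let N : LinearMap.BilinForm k W := K
  have hNs : N.IsSymm := ⟨fun x y => hsymm x y⟩
  have hNn : N.Nondegenerate := by
    refine ⟨fun x hx => hnd x hx, fun y hy => hnd y fun x => ?_⟩
    rw [hsymm]
    exact hy x
  obtain ⟨v0, hv0⟩ := LinearMap.BilinForm.exists_orthogonal_basis (B := N) ⟨fun x y => hsymm x y⟩
  let e : Fin (finrank k W) ≃ Fin 11 := finCongr hW
  have hvo : ∀ i j, i ≠ j → K (v0 i) (v0 j) = 0 := fun i j hij => hv0 hij
  have hvn : ∀ i, K (v0 i) (v0 i) ≠ 0 := fun i =>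
    LinearMap.BilinForm.iIsOrtho.not_isOrtho_basis_self_of_nondegenerate hv0 hNn i
  let w : Fin (2 * 3) → W := fun i => v0 (e.symm (Fin.castLE (by norm_num) i))
  have hinj : ∀ i j : Fin (2 * 3), i ≠ j →
      e.symm (Fin.castLE (by norm_num) i) ≠ e.symm (Fin.castLE (by norm_num) j) := by
    intro i j hij h
    have h2 := e.symm.injective h
    exact hij (Fin.castLE_injective _ h2)
  have h := Pool.Agent.Licci.Six.two_pow_dvd 3 C (fun i => (Tw (w i) : End k C)) (fun i => K (w i) (w i))
    (fun i => hvn _) (fun i => hT (w i))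
    (fun i j hij => by
      have h1 := hpol (w i) (w j)
      have h2 : K (w i) (w j) = 0 := hvo _ _ (hinj i j hij)
      rw [h2, mul_zero, zero_smul] at h1
      exact eq_neg_of_add_eq_zero_left h1)
  rw [h12] at h
  norm_num at h

end LicciCF
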