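import Mathlib

/-!
# Closed fibre packages (the algebra over the residue field in codimension six)

`C = X_1`, `Dual k C = X_{-1}`, `B = X_0`.
`σ x ξ = D(x,ξ)` on `B`, `R x ξ u = D(x,u) ξ`, `S x y ξ = D(x,y) ξ`, `T x ξ = D(x,ξ)` on `C`.
-/

set_option autoImplicit false

open Module

namespace LicciCF

/-- The components of a super symmetric quartic form on `X_{-1} + X_0 + X_1`. -/
structure Dat (k C B : Type*) [Field k] [AddCommGroup C] [Module k C]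
    [AddCommGroup B] [Module k B] where
  ω : B →ₗ[k] B →ₗ[k] k
  σ : C →ₗ[k] Dual k C →ₗ[k] (B →ₗ[k] B)
  S : C →ₗ[k] C →ₗ[k] Dual k C →ₗ[k] C

namespace Dat

variable {k C B : Type*} [Field k] [AddCommGroup C] [Module k C] [AddCommGroup B] [Module k B]
  (P : Dat k C B)

/-- `R x ξ u = D(x,u) ξ`. -/
def R (x : C) (ξ : Dual k C) : B →ₗ[k] B := ξ x • LinearMap.id + P.σ x ξ

/-- `T x ξ y = D(x,ξ) y`. -/
def T (x : C) (ξ : Dual k C) : C →ₗ[k] C :=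
  (2 : k) • ξ.smulRight x - ξ x • LinearMap.id - (P.S x).flip ξ

/-- The identity `D² = 12 D`, in components. -/
structure IsPkg [FiniteDimensional k C] [FiniteDimensional k B] : Prop where
  alt : ∀ u, P.ω u u = 0
  nondeg : ∀ u, (∀ w, P.ω u w = 0) → u = 0
  sp : ∀ x ξ u w, P.ω (P.σ x ξ u) w + P.ω u (P.σ x ξ w) = 0
  S_alt : ∀ x, P.S x x = 0
  S_skew : ∀ (x y : C) (ξ η : Dual k C), η (P.S x y ξ) + ξ (P.S x y η) = 0
  dim : finrank k B = 56 + 2 * finrank k C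
  d1 : ∀ (ι : Type) [Fintype ι] (e : Basis ι k C) (x : C) (ξ : Dual k C),
    ∑ i, P.R (e i) ξ ∘ₗ P.R x (e.coord i) = (12 : k) • P.R x ξ
  d2 : ∀ (ι : Type) [Fintype ι] (e : Basis ι k C) (x y : C),
    ∑ i, P.S (P.S x y (e.coord i)) (e i) = (24 : k) • P.S x y
  d0 : ∀ (x y : C) (ξ η : Dual k C),
    LinearMap.trace k C (P.T x ξ ∘ₗ P.T y η) -
      2⁻¹ * LinearMap.trace k B (P.σ x ξ ∘ₗ P.σ y η) = 12 * η (P.T x ξ y)

/-- `eps ≠ 0`, exactness of `k → X_1 → 𝒜² → 0`, and surjectivity of `X_0 → 𝒜¹`. -/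
structure IsEps (ε : C) : Prop where
  ne : ε ≠ 0
  e1 : ∀ x, P.S ε x = 0 → ∃ c : k, x = c • ε
  e2 : ∀ x y, ∃ z, P.S x y = P.S ε z
  e3 : ∀ x u, ∃ w, ∀ ξ, P.R x ξ u = P.R ε ξ w

/-- An odd derivation `d`: `δ ξ = d ξ` for `ξ ∈ X_{-1}`, `∂ u = d u` for `u ∈ X_0`. -/
structure IsDer (δ : Dual k C →ₗ[k] B) (del : B →ₗ[k] C) : Prop where
  adj : ∀ ξ u, ξ (del u) = P.ω (δ ξ) u
  sq : ∀ ξ, del (δ ξ) = 0
  dq : ∀ (x : C) (u : B) (ξ η : Dual k C), η (P.S x (del u) ξ) = P.ω (P.σ x ξ (δ η)) u - P.ω (P.σ x η (δ ξ)) u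
    + η x * ξ (del u) - ξ x * η (del u)
  dq2 : ∀ ξ, δ ξ = 0 → ∀ u v w,
    P.ω (P.σ (del u) ξ v) w + P.ω (P.σ (del v) ξ w) u + P.ω (P.σ (del w) ξ u) v = 0

end Dat

end LicciCF
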