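import Mathlib
import Pool.Agent.Work.MP_a98e4e_ag.Regular

/-!
# A discrete valuation ring quotient of a regular local ring
-/

set_option autoImplicit false

open IsLocalRing LicciCodimFour

namespace LicciCF

universe u

theorem dvr_of_spanFinrank_eq_one (R : Type u) [CommRing R] [IsRegularLocalRing R]
    [IsDomain R] (h : (maximalIdeal R).spanFinrank = 1) : IsDiscreteValuationRing R := by
  have hne : maximalIdeal R ≠ ⊥ := by
    intro h0
    rw [h0] at h
    simp at h
  have hnf : ¬ IsField R := fun hf =>
    hne ((IsLocalRing.isField_iff_maximalIdeal_eq).1 hf)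
  obtain ⟨S, hScard, hS⟩ := Submodule.FG.exists_span_finset_card_eq_spanFinrank
    (IsNoetherian.noetherian (maximalIdeal R))
  rw [h] at hScard
  obtain ⟨a, rfl⟩ := Finset.card_eq_one.1 hScard
  have hp : (maximalIdeal R).IsPrincipal := ⟨⟨a, by rw [← hS]; simp⟩⟩
  exact ((IsDiscreteValuationRing.TFAE R hnf).out 4 0).1 hp

/-- A regular local ring of positive dimension has a quotient which is a DVR. -/
theorem exists_dvr_quotient (n : ℕ) : ∀ (R : Type u) [CommRing R] [IsRegularLocalRing R],
    (maximalIdeal R).spanFinrank = n + 1 →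
    ∃ (V : Type u) (_ : CommRing V) (_ : IsDomain V) (_ : IsDiscreteValuationRing V)
      (φ : R →+* V), Function.Surjective φ := by
  induction n with
  | zero =>
    intro R _ _ h
    have := isDomain_of_isRegularLocalRing R
    exact ⟨R, inferInstance, inferInstance, dvr_of_spanFinrank_eq_one R (by simpa using h),
      RingHom.id R, Function.surjective_id⟩
  | succ n ih =>
    intro R _ _ h
    obtain ⟨x, hx, hx2, _⟩ := exists_good_element (R := R) (by omega)
    obtain ⟨hreg, hr⟩ := isRegularLocalRing_quotient hx hx2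
    obtain ⟨V, i1, i2, i3, φ, hφ⟩ := ih (R ⧸ Ideal.span {x}) (by omega)
    exact ⟨V, i1, i2, i3, φ.comp (Ideal.Quotient.mk _),
      hφ.comp Ideal.Quotient.mk_surjective⟩

/-- The residue map factors through a local quotient. -/
theorem exists_factor {R V : Type u} [CommRing R] [IsLocalRing R] [CommRing V] [IsLocalRing V]
    (φ : R →+* V) (hφ : Function.Surjective φ) :
    ∃ ψ : V →+* ResidueField R, ψ.comp φ = residue R := by
  have hloc : IsLocalHom φ := by
    refine ⟨fun a ha => ?_⟩
    by_contra hna
    -- the kernel is contained in the maximal ideal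
    have : RingHom.ker φ ≤ maximalIdeal R :=
      le_maximalIdeal (RingHom.ker_ne_top φ)
    obtain ⟨b, hb⟩ := hφ (↑ha.unit⁻¹)
    have h1 : φ (a * b - 1) = 0 := by
      rw [map_sub, map_mul, hb, map_one]
      simp
    have h2 : a * b - 1 ∈ maximalIdeal R := this h1
    have h3 : a * b ∈ maximalIdeal R := Ideal.mul_mem_right _ _ ((mem_maximalIdeal a).2 hna)
    have h4 : (1 : R) ∈ maximalIdeal R := by
      have := sub_mem h3 h2
      simp at this
    exact (Ideal.ne_top_iff_one _).1 (Ideal.IsPrime.ne_top inferInstance) h4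
  refine ⟨RingHom.liftOfSurjective φ hφ ⟨residue R, ?_⟩, ?_⟩
  · intro a ha
    rw [RingHom.mem_ker, residue_eq_zero_iff]
    exact le_maximalIdeal (RingHom.ker_ne_top φ) ha
  · exact RingHom.liftOfRightInverse_comp _ _ _ _

end LicciCF
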