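import Pool.Agent.Work.MP_a98e4e_ag.CF.Defs

/-!
# The leading form of the differential

Arrays of coefficients of the components of a quartic form on `X_{-1} + X_0 + X_1` over a commutative ring, and of
a differential; base change, division by a nonzero scalar, and the closed fibre of the leading form.
-/

set_option autoImplicit false
set_option linter.unusedSectionVars false
set_option linter.unusedSimpArgs false

open Module Finset

namespace LicciCF

/-- Coefficients: `ω(b_p,b_q) = om p q`, `σ(e_i,ξ^j) b_p = ∑ q, sg i j p q b_q`,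
`S(e_i,e_j) ξ^l = ∑ m, S i j l m e_m`, and the quartic form `q0` on `X_0`. -/
structure Arr (A ι κ : Type*) where
  om : κ → κ → A
  sg : ι → ι → κ → κ → A
  S : ι → ι → ι → ι → A
  q0 : κ → κ → κ → κ → A

namespace Arr

variable {A A' ι κ : Type*} [CommRing A] [CommRing A'] [Fintype ι] [Fintype κ] [DecidableEq ι]

/-- base change -/
def map (f : A →+* A') (P : Arr A ι κ) : Arr A' ι κ where
  om p q := f (P.om p q)
  sg i j p q := f (P.sg i j p q)
  S i j l m := f (P.S i j l m)
  q0 p q r s := f (P.q0 p q r s)

/-- `δ ξ^i = ∑ p, dl i p b_p`, `∂ b_p = ∑ i, de p i e_i` -/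
structure IsDer (P : Arr A ι κ) (dl : ι → κ → A) (de : κ → ι → A) : Prop where
  adj : ∀ i p, de p i = ∑ q, dl i q * P.om q p
  sq : ∀ i j, ∑ p, dl i p * de p j = 0
  dq : ∀ (i j l : ι) (p : κ), ∑ m, de p m * P.S i m j l =
    ∑ q, ∑ r, dl l q * P.sg i j q r * P.om r p - ∑ q, ∑ r, dl j q * P.sg i l q r * P.om r p
      + (if i = l then de p j else 0) - (if i = j then de p l else 0)
  dq2 : ∀ (j : ι) (u v w : κ), ∑ q, dl j q * P.q0 q u v w +
    (∑ m, ∑ r, de u m * P.sg m j v r * P.om r w + ∑ m, ∑ r, de v m * P.sg m j w r * P.om r u +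
      ∑ m, ∑ r, de w m * P.sg m j u r * P.om r v) = 0

theorem IsDer.map {P : Arr A ι κ} {dl : ι → κ → A} {de : κ → ι → A} (h : P.IsDer dl de) (f : A →+* A') :
    (P.map f).IsDer (fun i p => f (dl i p)) (fun p i => f (de p i)) := by
  refine ⟨fun i p => ?_, fun i j => ?_, fun i j l p => ?_, fun j u v w => ?_⟩
  · have := congrArg f (h.adj i p)
    simp only [map_sum, map_mul] at this
    exact this
  · have := congrArg f (h.sq i j)
    simpa only [map_sum, map_mul, map_zero] using this
  · have := congrArg f (h.dq i j l p)
    simp only [map_sum, map_mul, map_add, map_sub, apply_ite f, map_zero] at this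
    exact this
  · have := congrArg f (h.dq2 j u v w)
    simp only [map_sum, map_mul, map_add, map_zero] at this
    exact this

/-- division by a scalar -/
theorem IsDer.div [IsDomain A] {P : Arr A ι κ} {dl : ι → κ → A} {de : κ → ι → A} (h : P.IsDer dl de) {c : A}
    (hc : c ≠ 0) (dl' : ι → κ → A) (hdl : ∀ i p, dl i p = c * dl' i p) :
    P.IsDer dl' (fun p i => ∑ q, dl' i q * P.om q p) := by
  have hde : ∀ p i, de p i = c * ∑ q, dl' i q * P.om q p := by
    intro p i
    rw [h.adj, mul_sum]
    exact sum_congr rfl fun q _ => by rw [hdl, mul_assoc]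
  have hcan : ∀ {a b : A}, c * a = c * b → a = b := fun h => mul_left_cancel₀ hc h
  refine ⟨fun i p => rfl, fun i j => ?_, fun i j l p => ?_, fun j u v w => ?_⟩
  · apply hcan
    apply hcan
    rw [mul_zero, mul_zero, ← h.sq i j, mul_sum, mul_sum]
    exact sum_congr rfl fun p _ => by rw [hdl, hde]; ring
  · apply hcan
    have := h.dq i j l p
    simp only [hdl, hde] at this
    have e1 : ∀ j l, ∑ q, ∑ r, c * dl' l q * P.sg i j q r * P.om r p =
        c * ∑ q, ∑ r, dl' l q * P.sg i j q r * P.om r p := by
      intro j l
      simp only [mul_sum, mul_assoc]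
    have e2 : ∑ m, c * (∑ q, dl' m q * P.om q p) * P.S i m j l =
        c * ∑ m, (∑ q, dl' m q * P.om q p) * P.S i m j l := by
      rw [mul_sum]
      exact sum_congr rfl fun m _ => by ring
    have e3 : ∀ j l, (if i = l then c * ∑ q, dl' j q * P.om q p else 0) =
        c * (if i = l then ∑ q, dl' j q * P.om q p else 0) := by
      intro j l; split_ifs <;> simp
    rw [e1, e1, e2, e3, e3] at this
    rw [this]; ring
  · apply hcan
    have := h.dq2 j u v w
    simp only [hdl, hde] at this
    have e1 : ∀ u v w, ∑ m, ∑ r, c * (∑ q, dl' m q * P.om q u) * P.sg m j v r * P.om r w =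
        c * ∑ m, ∑ r, (∑ q, dl' m q * P.om q u) * P.sg m j v r * P.om r w := by
      intro u v w
      rw [mul_sum]
      refine sum_congr rfl fun m _ => ?_
      generalize (∑ q, dl' m q * P.om q u) = X
      rw [mul_sum]
      exact sum_congr rfl fun r _ => by ring
    have e2 : ∑ q, c * dl' j q * P.q0 q u v w = c * ∑ q, dl' j q * P.q0 q u v w := by
      simp only [mul_sum, mul_assoc]
    rw [e1, e1, e1, e2] at this
    rw [mul_zero, ← this]; ring

/-! ### from arrays to linear maps over a field -/

variable {k : Type*} [Field k] [DecidableEq κ]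

/-- the bilinear form -/
noncomputable def toDat (P : Arr k ι κ) : Dat k (ι → k) (κ → k) where
  ω := LinearMap.mk₂ k (fun u v => ∑ p, ∑ q, u p * v q * P.om p q)
    (fun a b c => by simp only [Pi.add_apply, add_mul, sum_add_distrib])
    (fun a b c => by simp only [Pi.smul_apply, smul_eq_mul, mul_sum, mul_assoc])
    (fun a b c => by simp only [Pi.add_apply, mul_add, add_mul, sum_add_distrib])
    (fun a b c => by
      simp only [Pi.smul_apply, smul_eq_mul, mul_sum]
      exact sum_congr rfl fun _ _ => sum_congr rfl fun _ _ => by ring)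
  σ := LinearMap.mk₂ k
    (fun (x : ι → k) (ξ : Dual k (ι → k)) => Matrix.toLin' (Matrix.of fun q p => ∑ i, ∑ j, x i * ξ (Pi.single j 1) * P.sg i j p q))
    (fun a b c => by
      rw [← map_add]; congr 1; ext q p
      simp only [Matrix.of_apply, Matrix.add_apply, Pi.add_apply, add_mul, sum_add_distrib])
    (fun a b c => by
      rw [← map_smul]; congr 1; ext q p
      simp only [Matrix.of_apply, Matrix.smul_apply, Pi.smul_apply, smul_eq_mul, mul_sum, mul_assoc])
    (fun a b c => by
      rw [← map_add]; congr 1; ext q p
      simp only [Matrix.of_apply, Matrix.add_apply, LinearMap.add_apply, mul_add, add_mul, sum_add_distrib])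
    (fun a b c => by
      rw [← map_smul]; congr 1; ext q p
      simp only [Matrix.of_apply, Matrix.smul_apply, LinearMap.smul_apply, smul_eq_mul, mul_sum]
      exact sum_congr rfl fun _ _ => sum_congr rfl fun _ _ => by ring)
  S := LinearMap.mk₂ k
    (fun (x y : ι → k) => (Matrix.toLin' (Matrix.of fun m l => ∑ i, ∑ j, x i * y j * P.S i j l m)) ∘ₗ
      (LinearMap.pi fun l => Dual.eval k (ι → k) (Pi.single l 1)))
    (fun a b c => by
      rw [← LinearMap.add_comp, ← map_add]; congr 2; ext q p
      simp only [Matrix.of_apply, Matrix.add_apply, Pi.add_apply, add_mul, sum_add_distrib])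
    (fun a b c => by
      rw [← LinearMap.smul_comp, ← map_smul]; congr 2; ext q p
      simp only [Matrix.of_apply, Matrix.smul_apply, Pi.smul_apply, smul_eq_mul, mul_sum, mul_assoc])
    (fun a b c => by
      rw [← LinearMap.add_comp, ← map_add]; congr 2; ext q p
      simp only [Matrix.of_apply, Matrix.add_apply, Pi.add_apply, mul_add, add_mul, sum_add_distrib])
    (fun a b c => by
      rw [← LinearMap.smul_comp, ← map_smul]; congr 2; ext q p
      simp only [Matrix.of_apply, Matrix.smul_apply, Pi.smul_apply, smul_eq_mul, mul_sum]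
      exact sum_congr rfl fun _ _ => sum_congr rfl fun _ _ => by ring)

theorem toDat_ω (P : Arr k ι κ) (u v : κ → k) : P.toDat.ω u v = ∑ p, ∑ q, u p * v q * P.om p q := rfl

theorem toDat_σ (P : Arr k ι κ) (x : ι → k) (ξ : Dual k (ι → k)) (u : κ → k) (q : κ) :
    P.toDat.σ x ξ u q = ∑ p, (∑ i, ∑ j, x i * ξ (Pi.single j 1) * P.sg i j p q) * u p := by
  show (Matrix.toLin' _ u) q = _
  rw [Matrix.toLin'_apply]
  rfl

theorem toDat_S (P : Arr k ι κ) (x y : ι → k) (ξ : Dual k (ι → k)) (m : ι) :
    P.toDat.S x y ξ m = ∑ l, (∑ i, ∑ j, x i * y j * P.S i j l m) * ξ (Pi.single l 1) := by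
  show (Matrix.toLin' _ _) m = _
  rw [Matrix.toLin'_apply]
  rfl

/-- the map `δ` -/
noncomputable def dMap (dl : ι → κ → k) : Dual k (ι → k) →ₗ[k] (κ → k) where
  toFun ξ p := ∑ i, ξ (Pi.single i 1) * dl i p
  map_add' a b := by ext p; simp only [LinearMap.add_apply, Pi.add_apply, add_mul, sum_add_distrib]
  map_smul' c a := by
    ext p
    simp only [LinearMap.smul_apply, Pi.smul_apply, smul_eq_mul, RingHom.id_apply, mul_sum, mul_assoc]

/-- the map `∂` -/
noncomputable def eMap (de : κ → ι → k) : (κ → k) →ₗ[k] (ι → k) where
  toFun u i := ∑ p, u p * de p i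
  map_add' a b := by ext p; simp only [Pi.add_apply, add_mul, sum_add_distrib]
  map_smul' c a := by
    ext p
    simp only [Pi.smul_apply, smul_eq_mul, RingHom.id_apply, mul_sum, mul_assoc]

theorem dMap_apply (dl : ι → κ → k) (ξ : Dual k (ι → k)) (p : κ) :
    dMap dl ξ p = ∑ i, ξ (Pi.single i 1) * dl i p := rfl

theorem eMap_apply (de : κ → ι → k) (u : κ → k) (i : ι) : eMap de u i = ∑ p, u p * de p i := rfl

theorem pi_ind {p : (ι → k) → Prop} (h0 : ∀ i, p (Pi.single i 1)) (hz : p 0) (ha : ∀ a b, p a → p b → p (a + b))
    (hs : ∀ (c : k) a, p a → p (c • a)) (x : ι → k) : p x := by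
  have hx : x = ∑ i, x i • (Pi.single i 1 : ι → k) := by
    ext j
    simp [Finset.sum_apply, Pi.single_apply]
  rw [hx]
  apply Finset.sum_induction _ p (fun a b => ha a b) hz
  intro i _
  exact hs _ _ (h0 i)

theorem dual_ind {p : Dual k (ι → k) → Prop} (h0 : ∀ i, p (LinearMap.proj i)) (hz : p 0)
    (ha : ∀ a b, p a → p b → p (a + b)) (hs : ∀ (c : k) a, p a → p (c • a)) (ξ : Dual k (ι → k)) : p ξ := by
  have hx : ξ = ∑ i, ξ (Pi.single i 1) • (LinearMap.proj i : Dual k (ι → k)) := by
    ext j
    simp [LinearMap.sum_apply, Pi.single_apply]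
  rw [hx]
  apply Finset.sum_induction _ p (fun a b => ha a b) hz
  intro i _
  exact hs _ _ (h0 i)

theorem dMap_proj (dl : ι → κ → k) (i : ι) : dMap dl (LinearMap.proj i) = fun p => dl i p := by
  ext p
  simp [dMap_apply, Pi.single_apply]

theorem eMap_single (de : κ → ι → k) (p : κ) : eMap de (Pi.single p 1) = fun i => de p i := by
  ext i
  simp [eMap_apply, Pi.single_apply]

theorem σ_single (P : Arr k ι κ) (i j : ι) (u : κ → k) :
    P.toDat.σ (Pi.single i 1) (LinearMap.proj j) u = fun q => ∑ p, u p * P.sg i j p q := by
  ext q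
  rw [toDat_σ]
  refine sum_congr rfl fun p _ => ?_
  rw [mul_comm]
  congr 1
  rw [Finset.sum_eq_single i (fun i' _ h => by simp [Pi.single_apply, h]) (fun h => absurd (mem_univ _) h),
    Finset.sum_eq_single j (fun j' _ h => by simp [Pi.single_apply, Ne.symm h]) (fun h => absurd (mem_univ _) h)]
  simp

theorem S_single (P : Arr k ι κ) (i l m : ι) (y : ι → k) :
    P.toDat.S (Pi.single i 1) y (LinearMap.proj l) m = ∑ j, y j * P.S i j l m := by
  rw [toDat_S]
  rw [Finset.sum_eq_single l (fun j' _ h => by simp [Pi.single_apply, Ne.symm h]) (fun h => absurd (mem_univ _) h)]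
  rw [Finset.sum_eq_single i (fun i' _ h => by simp [Pi.single_apply, h]) (fun h => absurd (mem_univ _) h)]
  simp

theorem ω_single (P : Arr k ι κ) (u : κ → k) (p : κ) :
    P.toDat.ω u (Pi.single p 1) = ∑ q, u q * P.om q p := by
  rw [toDat_ω]
  refine sum_congr rfl fun q _ => ?_
  rw [Finset.sum_eq_single p (fun i' _ h => by simp [Pi.single_apply, h]) (fun h => absurd (mem_univ _) h)]
  simp

/-- the quartic form on `X_0`, the first variable in coordinates -/
noncomputable def q0L (P : Arr k ι κ) (q : κ) : (κ → k) →ₗ[k] (κ → k) →ₗ[k] (κ → k) →ₗ[k] k :=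
  LinearMap.mk₂ k (fun u v => ∑ d, (∑ b, ∑ c, u b * v c * P.q0 q b c d) • (LinearMap.proj d : (κ → k) →ₗ[k] k))
    (fun a b c => by
      simp only [Pi.add_apply, add_mul, sum_add_distrib, add_smul])
    (fun a b c => by
      simp only [Pi.smul_apply, smul_eq_mul, mul_assoc, ← mul_sum, mul_smul, ← smul_sum])
    (fun a b c => by
      simp only [Pi.add_apply, mul_add, add_mul, sum_add_distrib, add_smul])
    (fun a b c => by
      simp only [Pi.smul_apply, smul_eq_mul, mul_assoc, mul_left_comm _ a, ← mul_sum, mul_smul, ← smul_sum])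

theorem q0L_single (P : Arr k ι κ) (q u v w : κ) :
    q0L P q (Pi.single u 1) (Pi.single v 1) (Pi.single w 1) = P.q0 q u v w := by
  show (∑ d, (∑ b, ∑ c, _ * _ * P.q0 q b c d) • (LinearMap.proj d : (κ → k) →ₗ[k] k)) _ = _
  rw [LinearMap.sum_apply]
  rw [Finset.sum_eq_single w (fun i' _ h => by simp [h]) (fun h => absurd (mem_univ _) h)]
  rw [Finset.sum_eq_single u (fun i' _ h => by simp [h]) (fun h => absurd (mem_univ _) h)]
  rw [Finset.sum_eq_single v (fun i' _ h => by simp [h]) (fun h => absurd (mem_univ _) h)]
  simp

/-- from arrays to linear maps -/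
theorem IsDer.toDat {P : Arr k ι κ} {dl : ι → κ → k} {de : κ → ι → k} (h : P.IsDer dl de) :
    P.toDat.IsDer (dMap dl) (eMap de) := by
  refine ⟨fun ξ u => ?_, fun ξ => ?_, fun x u ξ η => ?_, fun ξ hξ u v w => ?_⟩
  · induction ξ using dual_ind with
    | hz => simp
    | ha a b ha hb => simp only [LinearMap.add_apply, map_add, ha, hb]
    | hs c a ha => simp only [LinearMap.smul_apply, map_smul, ha]
    | h0 i =>
      induction u using pi_ind with
      | hz => simp
      | ha a b ha hb => simp only [map_add, ha, hb]
      | hs c a ha => simp only [map_smul, ha]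
      | h0 p =>
        rw [ω_single, dMap_proj, eMap_single]
        exact h.adj i p
  · induction ξ using dual_ind with
    | hz => simp
    | ha a b ha hb => simp only [map_add, ha, hb, add_zero]
    | hs c a ha => simp only [map_smul, ha, smul_zero]
    | h0 i =>
      ext j
      rw [dMap_proj, eMap_apply]
      exact h.sq i j
  · induction ξ using dual_ind with
    | hz => simp
    | ha a b ha hb => simp only [LinearMap.add_apply, map_add]; linear_combination ha + hb
    | hs c a ha => simp only [LinearMap.smul_apply, map_smul, smul_eq_mul]; linear_combination c * ha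
    | h0 j =>
      induction η using dual_ind with
      | hz => simp
      | ha a b ha hb => simp only [LinearMap.add_apply, map_add]; linear_combination ha + hb
      | hs c a ha => simp only [LinearMap.smul_apply, map_smul, smul_eq_mul]; linear_combination c * ha
      | h0 l =>
        induction x using pi_ind with
        | hz => simp
        | ha a b ha hb => simp only [LinearMap.add_apply, map_add]; linear_combination ha + hb
        | hs c a ha => simp only [LinearMap.smul_apply, map_smul, smul_eq_mul]; linear_combination c * ha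
        | h0 i =>
          induction u using pi_ind with
          | hz => simp
          | ha a b ha hb => simp only [LinearMap.add_apply, map_add]; linear_combination ha + hb
          | hs c a ha => simp only [LinearMap.smul_apply, map_smul, smul_eq_mul]; linear_combination c * ha
          | h0 p =>
            have := h.dq i j l p
            rw [eMap_single, dMap_proj, dMap_proj, σ_single, σ_single, ω_single, ω_single]
            simp only [LinearMap.proj_apply]
            rw [S_single, this]
            have e1 : ∀ l j, ∑ q, ∑ r, dl l q * P.sg i j q r * P.om r p =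
                ∑ q, (∑ p, dl l p * P.sg i j p q) * P.om q p := by
              intro l j
              rw [sum_comm]
              exact sum_congr rfl fun q _ => by rw [sum_mul]
            have e2 : ∀ l, (Pi.single i 1 : ι → k) l = if i = l then 1 else 0 := by
              intro l
              rw [Pi.single_apply]
              exact if_congr eq_comm rfl rfl
            rw [e1, e1, e2, e2]
            simp only [ite_mul, one_mul, zero_mul]
  · have key : ∀ (ξ : Dual k (ι → k)) (u v w : κ → k), ∑ q, dMap dl ξ q * q0L P q u v w +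
        (P.toDat.ω (P.toDat.σ (eMap de u) ξ v) w + P.toDat.ω (P.toDat.σ (eMap de v) ξ w) u +
          P.toDat.ω (P.toDat.σ (eMap de w) ξ u) v) = 0 := by
      intro ξ u v w
      induction ξ using dual_ind with
      | hz => simp
      | ha a b ha hb =>
        simp only [LinearMap.add_apply, map_add, Pi.add_apply, add_mul, sum_add_distrib]
        linear_combination ha + hb
      | hs c a ha =>
        simp only [LinearMap.smul_apply, map_smul, Pi.smul_apply, smul_eq_mul, mul_assoc, ← mul_sum]
        linear_combination c * ha
      | h0 j =>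
        induction u using pi_ind with
        | hz => simp
        | ha a b ha hb =>
          simp only [LinearMap.add_apply, map_add, mul_add, sum_add_distrib]
          linear_combination ha + hb
        | hs c a ha =>
          simp only [LinearMap.smul_apply, map_smul, smul_eq_mul, mul_left_comm _ c, ← mul_sum]
          linear_combination c * ha
        | h0 p =>
          induction v using pi_ind with
          | hz => simp
          | ha a b ha hb =>
            simp only [LinearMap.add_apply, map_add, mul_add, sum_add_distrib]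
            linear_combination ha + hb
          | hs c a ha =>
            simp only [LinearMap.smul_apply, map_smul, smul_eq_mul, mul_left_comm _ c, ← mul_sum]
            linear_combination c * ha
          | h0 q =>
            induction w using pi_ind with
            | hz => simp
            | ha a b ha hb =>
              simp only [LinearMap.add_apply, map_add, mul_add, sum_add_distrib]
              linear_combination ha + hb
            | hs c a ha =>
              simp only [LinearMap.smul_apply, map_smul, smul_eq_mul, mul_left_comm _ c, ← mul_sum]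
              linear_combination c * ha
            | h0 r =>
              have := h.dq2 j p q r
              have e1 : ∀ p q r, P.toDat.ω (P.toDat.σ (eMap de (Pi.single p 1)) (LinearMap.proj j) (Pi.single q 1))
                  (Pi.single r 1) = ∑ m, ∑ s, de p m * P.sg m j q s * P.om s r := by
                intro p q r
                rw [ω_single, sum_comm]
                refine sum_congr rfl fun s _ => ?_
                rw [toDat_σ, ← sum_mul]
                congr 1
                rw [Finset.sum_eq_single q (fun i' _ h => by simp [h]) (fun h => absurd (mem_univ _) h)]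
                rw [Pi.single_eq_same, mul_one]
                refine sum_congr rfl fun m _ => ?_
                rw [Finset.sum_eq_single j (fun j' _ h => by simp [Ne.symm h]) (fun h => absurd (mem_univ _) h)]
                rw [eMap_single]
                simp
              rw [e1, e1, e1, dMap_proj]
              simp only [q0L_single]
              exact this
    have h1 := key ξ u v w
    rw [hξ] at h1
    simpa using h1

theorem toDat_δ_ne {dl : ι → κ → k} {i : ι} {p : κ} (h : dl i p ≠ 0) : dMap dl ≠ 0 := by
  intro h0
  apply h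
  have := congrArg (fun f => f (LinearMap.proj i) p) h0
  simp only [LinearMap.zero_apply, Pi.zero_apply] at this
  rw [dMap_proj] at this
  exact this

/-- the leading form, general version -/
theorem IsDer.lead [IsDomain A] {P : Arr A ι κ} {dl : ι → κ → A} {de : κ → ι → A} (h : P.IsDer dl de)
    (f : A →+* k) {c : A} (hc : c ≠ 0) (dl' : ι → κ → A) (hdl : ∀ i p, dl i p = c * dl' i p)
    (hne : ∃ i p, f (dl' i p) ≠ 0) :
    ∃ (δ : Dual k (ι → k) →ₗ[k] (κ → k)) (del : (κ → k) →ₗ[k] (ι → k)), (P.map f).toDat.IsDer δ del ∧ δ ≠ 0 := by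
  obtain ⟨i, p, hip⟩ := hne
  exact ⟨_, _, ((h.div hc dl' hdl).map f).toDat, toDat_δ_ne (i := i) (p := p) hip⟩

/-- the leading form over a valuation ring -/
theorem exists_lead {V : Type*} [CommRing V] [IsDomain V] [ValuationRing V] {P : Arr V ι κ}
    {dl : ι → κ → V} {de : κ → ι → V} (h : P.IsDer dl de) (hne : ∃ i p, dl i p ≠ 0) :
    ∃ (δ : Dual (IsLocalRing.ResidueField V) (ι → IsLocalRing.ResidueField V) →ₗ[IsLocalRing.ResidueField V]
        (κ → IsLocalRing.ResidueField V))
      (del : (κ → IsLocalRing.ResidueField V) →ₗ[IsLocalRing.ResidueField V] (ι → IsLocalRing.ResidueField V)),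
      (P.map (IsLocalRing.residue V)).toDat.IsDer δ del ∧ δ ≠ 0 := by
  classical
  -- an entry which divides all others
  have hfin : ∀ s : Finset (ι × κ), s.Nonempty → ∃ a ∈ s, ∀ b ∈ s, dl a.1 a.2 ∣ dl b.1 b.2 := by
    intro s hs
    induction hs using Finset.Nonempty.cons_induction with
    | singleton a => exact ⟨a, mem_singleton_self a, fun b hb => by rw [mem_singleton.1 hb]⟩
    | cons a s ha hs ih =>
      obtain ⟨c, hc, hcs⟩ := ih
      rcases ValuationRing.dvd_total (dl a.1 a.2) (dl c.1 c.2) with h1 | h1
      · refine ⟨a, mem_cons_self a s, fun b hb => ?_⟩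
        rcases mem_cons.1 hb with rfl | hb
        · exact dvd_rfl
        · exact h1.trans (hcs b hb)
      · refine ⟨c, mem_cons_of_mem hc, fun b hb => ?_⟩
        rcases mem_cons.1 hb with rfl | hb
        · exact h1
        · exact hcs b hb
  obtain ⟨i₀, p₀, h₀⟩ := hne
  obtain ⟨⟨i, p⟩, -, hdvd⟩ := hfin univ ⟨(i₀, p₀), mem_univ _⟩
  have hne : dl i p ≠ 0 := fun h0 => h₀ (by
    have := hdvd (i₀, p₀) (mem_univ _)
    simp only [h0, zero_dvd_iff] at this
    exact this)
  have hall : ∀ j q, dl i p ∣ dl j q := fun j q => hdvd (j, q) (mem_univ _)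
  choose dl' hdl' using hall
  refine h.lead (IsLocalRing.residue V) hne dl' hdl' ⟨i, p, ?_⟩
  have : dl' i p = 1 := by
    have h2 := hdl' i p
    exact (mul_left_cancel₀ hne (by rw [mul_one]; exact h2)).symm
  rw [this, map_one]
  exact one_ne_zero

end Arr

end LicciCF
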