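import Pool.Agent.Work.MP_a98e4e_ag.CF.Lead
import Pool.Agent.Work.MP_a98e4e_ag.CF.Dvr

/-!
# The leading form over the residue field of a regular local ring

If the cokernel of `de` is killed by a power of every element of the maximal ideal, the
differential does not vanish over a discrete valuation ring `V = R ⧸ (x_2, …, x_n)`; its leading
form is a derivation of the closed fibre over the residue field of `R`.
-/

set_option autoImplicit false

open IsLocalRing LicciCodimFour Module

namespace LicciCF.Arr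

universe u

variable {R : Type u} [CommRing R] {ι κ : Type*} [Fintype ι] [Fintype κ] [DecidableEq ι]
  [DecidableEq κ]

theorem exists_lead_of_regular [IsRegularLocalRing R] [Nonempty ι]
    (hdim : 0 < (maximalIdeal R).spanFinrank) {P : Arr R ι κ} {dl : ι → κ → R} {de : κ → ι → R}
    (h : P.IsDer dl de)
    (hfin : ∀ y ∈ maximalIdeal R, ∃ N : ℕ, ∀ i, ∃ c : κ → R,
      ∀ j, ∑ p, c p * de p j = if j = i then y ^ N else 0) :
    ∃ (δ : Dual (ResidueField R) (ι → ResidueField R) →ₗ[ResidueField R] (κ → ResidueField R))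
      (del : (κ → ResidueField R) →ₗ[ResidueField R] (ι → ResidueField R)),
      (P.map (residue R)).toDat.IsDer δ del ∧ δ ≠ 0 := by
  classical
  obtain ⟨n, hn⟩ : ∃ n, (maximalIdeal R).spanFinrank = n + 1 := ⟨_, (Nat.succ_pred_eq_of_pos hdim).symm⟩
  obtain ⟨V, _, _, _, φ, hφ⟩ := exists_dvr_quotient n R hn
  obtain ⟨ψ, hψ⟩ := exists_factor φ hφ
  -- the differential is nonzero over `V`
  have hne : ∃ i p, φ (dl i p) ≠ 0 := by
    obtain ⟨t, ht⟩ := IsDiscreteValuationRing.exists_irreducible V
    obtain ⟨y, hy⟩ := hφ t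
    have hym : y ∈ maximalIdeal R := by
      rw [mem_maximalIdeal]
      intro hu
      exact ht.not_isUnit (hy ▸ hu.map φ)
    obtain ⟨N, hN⟩ := hfin y hym
    obtain ⟨i⟩ := ‹Nonempty ι›
    obtain ⟨c, hc⟩ := hN i
    have h1 := congrArg φ (hc i)
    rw [if_pos rfl, map_sum, map_pow, hy] at h1
    by_contra hcon
    push Not at hcon
    have h2 : ∀ p, φ (c p * de p i) = 0 := by
      intro p
      rw [map_mul, h.adj, map_sum, Finset.sum_eq_zero, mul_zero]
      intro q _
      rw [map_mul, hcon, zero_mul]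
    rw [Finset.sum_eq_zero fun p _ => h2 p] at h1
    exact pow_ne_zero N ht.ne_zero h1.symm
  -- an entry which divides all others
  have hfin : ∀ s : Finset (ι × κ), s.Nonempty →
      ∃ a ∈ s, ∀ b ∈ s, φ (dl a.1 a.2) ∣ φ (dl b.1 b.2) := by
    intro s hs
    induction hs using Finset.Nonempty.cons_induction with
    | singleton a =>
      exact ⟨a, Finset.mem_singleton_self a, fun b hb => by rw [Finset.mem_singleton.1 hb]⟩
    | cons a s ha hs ih =>
      obtain ⟨c, hc, hcs⟩ := ih
      rcases ValuationRing.dvd_total (φ (dl a.1 a.2)) (φ (dl c.1 c.2)) with h1 | h1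
      · refine ⟨a, Finset.mem_cons_self a s, fun b hb => ?_⟩
        rcases Finset.mem_cons.1 hb with rfl | hb
        · exact dvd_rfl
        · exact h1.trans (hcs b hb)
      · refine ⟨c, Finset.mem_cons_of_mem hc, fun b hb => ?_⟩
        rcases Finset.mem_cons.1 hb with rfl | hb
        · exact h1
        · exact hcs b hb
  obtain ⟨i₀, p₀, h₀⟩ := hne
  obtain ⟨⟨i, p⟩, -, hdvd⟩ := hfin Finset.univ ⟨(i₀, p₀), Finset.mem_univ _⟩
  have hne : φ (dl i p) ≠ 0 := fun h0 => h₀ (by
    have := hdvd (i₀, p₀) (Finset.mem_univ _)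
    simp only [h0, zero_dvd_iff] at this
    exact this)
  have hall : ∀ j q, φ (dl i p) ∣ φ (dl j q) := fun j q => hdvd (j, q) (Finset.mem_univ _)
  choose dl' hdl' using hall
  have h3 : dl' i p = 1 := by
    have h2 := hdl' i p
    exact (mul_left_cancel₀ hne (by rw [mul_one]; exact h2)).symm
  have h4 := (h.map φ).lead ψ hne dl' hdl' ⟨i, p, by rw [h3, map_one]; exact one_ne_zero⟩
  have h5 : (P.map φ).map ψ = P.map (residue R) := by
    rw [← hψ]; rfl
  rw [h5] at h4
  exact h4

end LicciCF.Arr
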