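import Pool.Agent.Work.MP_a98e4e_ag.CF.CF3
import Pool.Agent.Work.MP_a98e4e_ag.CF.CF4
import Pool.Agent.Work.MP_a98e4e_ag.CF.CF5

/-! # The closed fibre in codimension six does not exist -/

set_option autoImplicit false

open Module

namespace LicciCF

variable {k C B : Type*} [Field k] [CharZero k] [AddCommGroup C] [Module k C] [AddCommGroup B]
  [Module k B] [FiniteDimensional k C] [FiniteDimensional k B]

/-- The end of the proof. -/
theorem no_closed_fibre {P : Dat k C B} (hP : P.IsPkg) {ε : C} (hε : P.IsEps ε)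
    {δ : Dual k C →ₗ[k] B} {del : B →ₗ[k] C} (hd : P.IsDer δ del) (hne : δ ≠ 0) : False := by
  have h12 : finrank k C = 12 :=
    (two_or_twelve hP hε.ne hε.e1 hε.e2).resolve_left (ne_two hP)
  have hinj := inj_of_ne hP hε hd hne
  obtain ⟨W, K, Tw, h1, h2, h3, h4⟩ := exists_clifford hP hε h12 hd hinj
  exact no_clifford h12 W h1 K Tw h2 h3 h4

end LicciCF
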